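import Pool.Agent.Helper14G.Lower

/-!
# The defect of an idempotent
-/

open CategoryTheory AlgebraicGeometry

universe u v

namespace Pool.Agent.Helper14G

open Module
open Pool.Agent.H914 Pool.Agent.H914.VarClass Pool.Agent.H914.VarClass.Obj
  Pool.Agent.H914.WeilCohomology
open Pool.Agent.Y133.Half

variable {k : Type u} [Field k] {𝒱 : VarClass k} {ops : CycleOps 𝒱}
  {W : WeilCohomology.{u, v} ops} {P Q Z X Y : 𝒱.Obj}

namespace Sy

variable (S : Sys W)

/-- The defect of an idempotent: the difference of its rank and of the rank of the intersection form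
on the part cut out by it, relative to the unit. -/
noncomputable def df (P : 𝒱.Obj) (g : Module.End W.K (W.H P)) (Y : 𝒱.Obj) : ℝ :=
  rg g - (S.r P g (Y.prod Y) : ℝ) / S.a (Y.prod Y)

variable {S} in
lemma r_eq_df {g : Module.End W.K (W.H P)} (ha : 0 < S.a (Y.prod Y)) :
    (S.r P g (Y.prod Y) : ℝ) = (rg g - df S P g Y) * S.a (Y.prod Y) := by
  have : (S.a (Y.prod Y) : ℝ) ≠ 0 := by exact_mod_cast ha.ne'
  rw [df]
  field_simp
  ring

lemma df_nonneg {g : Module.End W.K (W.H P)} (hg : g ∈ S.Op P P) (hgg : g ∘ₗ g = g)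
    (ha : 0 < S.a (Y.prod Y)) : 0 ≤ df S P g Y := by
  have h1 : (S.r P g (Y.prod Y) : ℝ) ≤ rg g * S.a (Y.prod Y) := by
    exact_mod_cast S.r_le_rank hg hgg Y
  have ha' : (0 : ℝ) < S.a (Y.prod Y) := by exact_mod_cast ha
  rw [df, sub_nonneg, div_le_iff₀ ha']
  exact h1

/-- The defect is monotone. -/
lemma df_mono {g e : Module.End W.K (W.H P)} (hgm : g ∈ S.Op P P) (hem : e ∈ S.Op P P)
    (hg : g ∘ₗ g = g) (he : e ∘ₗ e = e) (heg : e ∘ₗ g = g) (hge : g ∘ₗ e = g)
    (ha : 0 < S.a (Y.prod Y)) : df S P g Y ≤ df S P e Y := by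
  have h := r_sub S hgm hem hg he heg hge Y
  have h1 : (S.r P e (Y.prod Y) : ℝ) + rg g * S.a (Y.prod Y) ≤
      S.r P g (Y.prod Y) + rg e * S.a (Y.prod Y) := by exact_mod_cast h
  rw [r_eq_df ha, r_eq_df ha] at h1
  have ha' : (0 : ℝ) < S.a (Y.prod Y) := by exact_mod_cast ha
  by_contra hlt
  push Not at hlt
  nlinarith [mul_lt_mul_of_pos_right hlt ha']

end Sy

end Pool.Agent.Helper14G
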