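import Pool.Agent.Helper14G.Seq
import Pool.Agent.Helper14G.Df

/-!
# Annihilators and chains of operators

For operators `x` and `y` on `H(P)` in the system, `y` numerically trivial, the classes on `P × Q`
which factor through `x` are more numerous than those which factor through `y x`, by at least
the rank of the intersection form on the part of `P × Q` cut out by an idempotent whose rank is at
least the rank of `x`.
-/

open CategoryTheory AlgebraicGeometry

universe u v

namespace Pool.Agent.Helper14G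

open Module Polynomial
open Pool.Agent.H914 Pool.Agent.H914.VarClass Pool.Agent.H914.VarClass.Obj
  Pool.Agent.H914.WeilCohomology
open Pool.Agent.Y133.Half

/-- A dimension count. -/
lemma finrank_step {K V E G : Type*} [Field K] [AddCommGroup V] [Module K V]
    [FiniteDimensional K V] [AddCommGroup E] [Module K E] [FiniteDimensional K E]
    [AddCommGroup G] [Module K G] (F : V →ₗ[K] G) (φ : V →ₗ[K] E) (M' M : Submodule K E)
    (hle : M' ≤ M) (hφ : ∀ v, φ v ∈ M) (hsmall : ∀ v, φ v ∈ M' → v ∈ LinearMap.ker F) :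
    finrank K M' + finrank K (LinearMap.range F) ≤ finrank K M := by
  obtain ⟨C₁, hC₁⟩ := Submodule.exists_isCompl (LinearMap.ker F)
  have h1 := LinearMap.finrank_range_add_finrank_ker F
  have h2 := Submodule.finrank_add_eq_of_isCompl hC₁
  have hzero : ∀ c ∈ C₁, φ c ∈ M' → c = 0 := by
    intro c hc h
    have h3 : c ∈ LinearMap.ker F ⊓ C₁ := ⟨hsmall c h, hc⟩
    rw [hC₁.inf_eq_bot] at h3
    exact (Submodule.mem_bot _).1 h3
  have hinj : Function.Injective (φ.domRestrict C₁) := by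
    rw [← LinearMap.ker_eq_bot, LinearMap.ker_eq_bot']
    intro c hc
    apply Subtype.ext
    apply hzero _ c.2
    have h3 : φ c = 0 := hc
    rw [h3]
    exact Submodule.zero_mem _
  have hdis : M' ⊓ LinearMap.range (φ.domRestrict C₁) = ⊥ := by
    rw [eq_bot_iff]
    rintro _ ⟨h3, ⟨c, rfl⟩⟩
    have h4 : (c : V) = 0 := hzero _ c.2 h3
    have h5 : c = 0 := Subtype.ext h4
    rw [h5, map_zero]
    exact Submodule.zero_mem _
  have hle' : M' ⊔ LinearMap.range (φ.domRestrict C₁) ≤ M := by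
    apply sup_le hle
    rintro _ ⟨c, rfl⟩
    exact hφ _
  have h3 := Submodule.finrank_sup_add_finrank_inf_eq M' (LinearMap.range (φ.domRestrict C₁))
  rw [hdis, finrank_bot, add_zero, LinearMap.finrank_range_of_inj hinj] at h3
  have h4 := Submodule.finrank_mono hle'
  omega

variable {k : Type u} [Field k] {𝒱 : VarClass k} {ops : CycleOps 𝒱}
  {W : WeilCohomology.{u, v} ops} {P Q P' Q' Z X Y : 𝒱.Obj}

namespace Sy

variable (S : Sys W)

lemma op_aeval {y : Module.End W.K (W.H P)} (hy : y ∈ S.Op P P) (q : W.K[X]) :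
    aeval y q ∈ S.Op P P :=
  (S.cat (fun _ : Fin 1 => P)).aeval_mem (i := 0) hy q

/-- An operator which is orthogonal to all operators in the opposite direction is numerically
trivial. -/
lemma nop_of_trace {u : W.H P →ₗ[W.K] W.H Q} (hu : u ∈ S.Op P Q)
    (h : ∀ v ∈ S.Op Q P, LinearMap.trace W.K (W.H Q) (par (W.isInternal Q) ∘ₗ u ∘ₗ v) = 0) :
    u ∈ S.NOp P Q := by
  obtain ⟨c, hc, rfl⟩ := Sys.mem_Op.1 hu
  refine Sys.NOp.corr ⟨hc, fun d hd => ?_⟩
  have h1 := h _ (Sys.Op.corr (S.map (swap Q P) hd))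
  rw [trace_corr_corr, swap_swap] at h1
  exact h1

/-- If all `v u` are nilpotent, then `u` is numerically trivial. -/
lemma nop_of_nil {u : W.H P →ₗ[W.K] W.H Q} (hu : u ∈ S.Op P Q)
    (h : ∀ v ∈ S.Op Q P, IsNilpotent (v ∘ₗ u : Module.End W.K (W.H P))) : u ∈ S.NOp P Q := by
  refine nop_of_trace S hu fun v hv => ?_
  have h1 : IsNilpotent (u ∘ₗ v : Module.End W.K (W.H Q)) := by
    obtain ⟨n, hn⟩ := h v hv
    refine ⟨n + 1, ?_⟩
    have h2 : ∀ n : ℕ, (u ∘ₗ v : Module.End W.K (W.H Q)) ^ (n + 1) =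
        u ∘ₗ ((v ∘ₗ u : Module.End W.K (W.H P)) ^ n) ∘ₗ v := by
      intro n
      induction n with
      | zero => rw [zero_add, pow_one, pow_zero]; rfl
      | succ n ih =>
        rw [pow_succ, ih, pow_succ]
        rfl
    rw [h2, hn, LinearMap.zero_comp, LinearMap.comp_zero]
  exact (S.cat (fun _ : Fin 1 => Q)).tr_nil (i := 0) (Sys.Op.comp hu hv) h1

/-- **The annihilator of an operator**, up to numerically trivial operators, is generated by an
idempotent. -/
theorem exists_ann (x : Module.End W.K (W.H P)) : ∃ e ∈ S.Op P P, e ∘ₗ e = e ∧ e ∘ₗ x = 0 ∧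
    ∀ (Q : 𝒱.Obj), ∀ u ∈ S.Op P Q, u ∘ₗ x = 0 → u ∘ₗ (1 - e) ∈ S.NOp P Q := by
  classical
  -- an idempotent of maximal rank which kills `x`
  let p : ℕ → Prop := fun n => ∃ e ∈ S.Op P P, e ∘ₗ e = e ∧ e ∘ₗ x = 0 ∧
    finrank W.K (LinearMap.range e) + n = finrank W.K (W.H P)
  have hp : ∃ n, p n := ⟨finrank W.K (W.H P), 0, Submodule.zero_mem _, by simp, by simp, by simp⟩
  obtain ⟨e, he, hee, hex, hn⟩ := Nat.find_spec hp
  set n := Nat.find hp with hn'
  have hmax : ∀ f ∈ S.Op P P, f ∘ₗ f = f → f ∘ₗ x = 0 →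
      finrank W.K (LinearMap.range f) ≤ finrank W.K (LinearMap.range e) := by
    intro f hf hff hfx
    have h1 := Submodule.finrank_le (LinearMap.range f)
    have h2 : n ≤ finrank W.K (W.H P) - finrank W.K (LinearMap.range f) :=
      Nat.find_min' hp ⟨f, hf, hff, hfx, by omega⟩
    omega
  refine ⟨e, he, hee, hex, fun Q u hu hux => ?_⟩
  have h1e : (1 - e) ∈ S.Op P P := Submodule.sub_mem _ Sys.Op.id he
  refine nop_of_nil S (Sys.Op.comp hu h1e) fun v hv => ?_
  -- the operator `w = v u (1 - e)` kills `x` and `e`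
  set w : Module.End W.K (W.H P) := v ∘ₗ u ∘ₗ (1 - e) with hw
  have hwm : w ∈ S.Op P P := Sys.Op.comp hv (Sys.Op.comp hu h1e)
  have hE : e * e = e := hee
  have hX : e * x = 0 := hex
  have hwx : w * x = 0 := by
    have h2 : (1 - e) * x = x := by rw [sub_mul, one_mul, hX, sub_zero]
    change (v ∘ₗ u) ∘ₗ ((1 - e) * x) = 0
    rw [h2, LinearMap.comp_assoc, hux, LinearMap.comp_zero]
  have hwe : w * e = 0 := by
    have h2 : (1 - e) * e = 0 := by rw [sub_mul, one_mul, hE, sub_self]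
    change (v ∘ₗ u) ∘ₗ ((1 - e) * e) = 0
    rw [h2, LinearMap.comp_zero]
  obtain ⟨r, hr1, hr2⟩ := exists_fit w
  apply hr2
  by_contra hf0
  set f := aeval w r * w with hf
  have hfm : f ∈ S.Op P P := Sys.Op.comp (op_aeval S hwm r) hwm
  have hfx : f * x = 0 := by rw [hf, mul_assoc, hwx, mul_zero]
  have hfe : f * e = 0 := by rw [hf, mul_assoc, hwe, mul_zero]
  set e' := e + f - e * f with he'
  have hem : e' ∈ S.Op P P := Submodule.sub_mem _ (Submodule.add_mem _ he hfm)
    (Sys.Op.comp he hfm)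
  have h1 : e' * e = e := by
    rw [he', sub_mul, add_mul, hE, hfe, mul_assoc, hfe, mul_zero, add_zero, sub_zero]
  have h2 : e' * f = f := by
    rw [he', sub_mul, add_mul, hr1, mul_assoc, hr1]
    abel
  have h3 : e' * e' = e' := by
    calc e' * e' = e' * (e + f - e * f) := by rw [← he']
      _ = e' * e + e' * f - e' * e * f := by rw [mul_sub, mul_add, ← mul_assoc e' e f]
      _ = e' := by rw [h1, h2]
  have h4 : e' * x = 0 := by
    rw [he', sub_mul, add_mul, hX, hfx, mul_assoc, hfx, mul_zero, add_zero, sub_zero]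
  have h5 : LinearMap.range e ⊔ LinearMap.range f ≤ LinearMap.range e' := by
    apply sup_le
    · rintro _ ⟨y, rfl⟩
      exact ⟨e y, congrArg (fun g : Module.End W.K (W.H P) => g y) h1⟩
    · rintro _ ⟨y, rfl⟩
      exact ⟨f y, congrArg (fun g : Module.End W.K (W.H P) => g y) h2⟩
  have h6 : LinearMap.range e ⊓ LinearMap.range f = ⊥ := by
    rw [eq_bot_iff]
    rintro _ ⟨⟨y, rfl⟩, ⟨y', hy'⟩⟩
    have h7 : f (e y) = 0 := congrArg (fun g : Module.End W.K (W.H P) => g y) hfe
    have h8 : f (f y') = f y' := congrArg (fun g : Module.End W.K (W.H P) => g y') hr1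
    rw [← hy'] at h7 ⊢
    rw [h8] at h7
    exact (Submodule.mem_bot _).2 h7
  have h7 := Submodule.finrank_sup_add_finrank_inf_eq (LinearMap.range e) (LinearMap.range f)
  rw [h6, finrank_bot, add_zero] at h7
  have h8 := Submodule.finrank_mono h5
  have h9 : 0 < finrank W.K (LinearMap.range f) := range_pos hf0
  have h10 := hmax e' hem h3 h4
  omega

/-- The classes on `P × Q`, as operators, composed with `x`. -/
noncomputable def Vx (P Q : 𝒱.Obj) (x : Module.End W.K (W.H P)) :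
    Submodule W.K (W.H P →ₗ[W.K] W.H Q) :=
  (S.Op P Q).map (LinearMap.lcomp W.K (W.H Q) x)

lemma mem_Vx {x : Module.End W.K (W.H P)} {w : W.H P →ₗ[W.K] W.H Q} :
    w ∈ Vx S P Q x ↔ ∃ u ∈ S.Op P Q, u ∘ₗ x = w := Submodule.mem_map

lemma Vx_one : finrank W.K (Vx S P Q 1) = finrank W.K (S.C (P.prod Q)) := by
  have h1 : Vx S P Q 1 = S.Op P Q := by
    ext w
    rw [mem_Vx]
    constructor
    · rintro ⟨u, hu, rfl⟩
      exact hu
    · intro hw
      exact ⟨w, hw, rfl⟩
  rw [h1]
  have hinj : Function.Injective (corrL W P Q) := by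
    rw [← LinearMap.ker_eq_bot, LinearMap.ker_eq_bot']
    intro c hc
    exact corr_inj' hc
  exact (Submodule.equivMapOfInjective _ hinj _).finrank_eq.symm

/-- **One step.** -/
theorem ann_step (P : 𝒱.Obj) (x : Module.End W.K (W.H P)) {y : Module.End W.K (W.H P)}
    (hy : y ∈ S.NOp P P) : ∃ g ∈ S.Op P P, g ∘ₗ g = g ∧
      finrank W.K (LinearMap.range x) ≤ rg g ∧
      ∀ Q, finrank W.K (Vx S P Q (y * x)) + S.r P g Q ≤ finrank W.K (Vx S P Q x) := by
  obtain ⟨e, he, hee, hex, hann⟩ := exists_ann S x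
  obtain ⟨h1, hdim⟩ := Sys.finrank_compl hee
  have h1e : (1 - e) ∈ S.Op P P := Submodule.sub_mem _ Sys.Op.id he
  obtain ⟨g, hg, hadj⟩ := Sys.Op.exists_adj h1e
  have hadj' : Adj W g (1 - e) := hadj.symm (Sys.Op.ev h1e) (Sys.Op.ev hg)
  refine ⟨g, hg, hadj'.idem h1, ?_, fun Q => ?_⟩
  · have h2 : rg g = finrank W.K (LinearMap.range (1 - e)) := hadj'.finrank_eq
    rw [h2]
    apply Submodule.finrank_mono
    rintro _ ⟨a, rfl⟩
    refine ⟨x a, ?_⟩
    have h3 : e (x a) = 0 := congrArg (fun f : Module.End W.K (W.H P) => f a) hex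
    rw [LinearMap.sub_apply, h3, sub_zero]
    rfl
  · -- the form and the map to the operators
    have hker : ∀ c : S.C (P.prod Q), W.corr (c : W.H (P.prod Q)) ∘ₗ (1 - e) ∈ S.NOp P Q →
        c ∈ LinearMap.ker (S.F (P.prod Q) (extOp W g 1)) := by
      intro c hc
      have h2 := corr_extOp hadj' (Sys.Op.ev h1e) (b := (1 : Module.End W.K (W.H Q))) Ev.id
        (c : W.H (P.prod Q))
      have h3 : W.corr (extOp W g (1 : Module.End W.K (W.H Q)) (c : W.H (P.prod Q))) ∈
          S.NOp P Q := by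
        rw [h2]
        exact hc
      obtain ⟨d, hd, hd'⟩ := Sys.mem_NOp.1 h3
      have h4 : d = extOp W g (1 : Module.End W.K (W.H Q)) (c : W.H (P.prod Q)) := by
        apply sub_eq_zero.1
        apply corr_inj'
        have h5 : W.corr (d - extOp W g (1 : Module.End W.K (W.H Q)) (c : W.H (P.prod Q))) =
            W.corr d - W.corr (extOp W g (1 : Module.End W.K (W.H Q)) (c : W.H (P.prod Q))) :=
          map_sub (corrL W P Q) _ _
        rw [h5, hd', sub_self]
      rw [LinearMap.mem_ker]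
      apply LinearMap.ext
      intro d'
      rw [Sys.F_apply, ← h4]
      exact hd.2 _ d'.2
    have key := finrank_step (S.F (P.prod Q) (extOp W g 1))
      ((LinearMap.lcomp W.K (W.H Q) x) ∘ₗ (corrL W P Q) ∘ₗ (S.C (P.prod Q)).subtype)
      (Vx S P Q (y * x)) (Vx S P Q x) (by
        intro w hw
        obtain ⟨u, hu, rfl⟩ := (mem_Vx S).1 hw
        exact (mem_Vx S).2 ⟨u ∘ₗ y, Sys.Op.comp hu (Sys.NOp.op hy), rfl⟩)
      (fun c => (mem_Vx S).2 ⟨_, Sys.Op.corr c.2, rfl⟩) (by
        intro c hc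
        obtain ⟨u, hu, hu'⟩ := (mem_Vx S).1 hc
        have hu'' : u ∘ₗ (y * x) = W.corr (c : W.H (P.prod Q)) ∘ₗ x := hu'
        have hvm : W.corr (c : W.H (P.prod Q)) ∈ S.Op P Q := Sys.Op.corr c.2
        have huy : u ∘ₗ y ∈ S.NOp P Q := Sys.NOp.comp_left hu hy
        have h2 : (W.corr (c : W.H (P.prod Q)) - u ∘ₗ y) ∘ₗ x = 0 := by
          rw [LinearMap.sub_comp, sub_eq_zero, ← hu'']
          rfl
        have h3 := hann Q (W.corr (c : W.H (P.prod Q)) - u ∘ₗ y)
          (Submodule.sub_mem _ hvm (Sys.NOp.op huy)) h2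
        apply hker
        have h5 : W.corr (c : W.H (P.prod Q)) ∘ₗ (1 - e) =
            (W.corr (c : W.H (P.prod Q)) - u ∘ₗ y) ∘ₗ (1 - e) + (u ∘ₗ y) ∘ₗ (1 - e) := by
          rw [← LinearMap.add_comp, sub_add_cancel]
        rw [h5]
        exact Submodule.add_mem _ h3 (Sys.NOp.comp_right huy h1e))
    exact key

/-- **The chain given by the powers of a numerically trivial operator.** -/
theorem chain_ann {y : Module.End W.K (W.H P)} (hy : y ∈ S.NOp P P)
    (ha : 0 < S.a (Y.prod Y)) (s : ℕ) :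
    ((s : ℝ) + 1) * ((finrank W.K (LinearMap.range (y ^ s)) : ℝ) - df S P 1 Y) *
      S.a (Y.prod Y) ≤ finrank W.K (S.C (P.prod (Y.prod Y))) := by
  have ha0 : (0 : ℝ) ≤ S.a (Y.prod Y) := Nat.cast_nonneg _
  set ρ : ℝ := (finrank W.K (LinearMap.range (y ^ s)) : ℝ) - df S P 1 Y with hρ
  have hstep : ∀ i ≤ s, (finrank W.K (Vx S P (Y.prod Y) (y ^ (i + 1))) : ℝ) +
      ρ * S.a (Y.prod Y) ≤ finrank W.K (Vx S P (Y.prod Y) (y ^ i)) := by
    intro i hi
    obtain ⟨g, hg, hgg, hr, hQ⟩ := ann_step S P (y ^ i) hy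
    have h1 := hQ (Y.prod Y)
    rw [← pow_succ'] at h1
    have h2 : (finrank W.K (Vx S P (Y.prod Y) (y ^ (i + 1))) : ℝ) + S.r P g (Y.prod Y) ≤
        finrank W.K (Vx S P (Y.prod Y) (y ^ i)) := by exact_mod_cast h1
    have h3 : df S P g Y ≤ df S P 1 Y :=
      df_mono S hg Sys.Op.id hgg rfl rfl rfl ha
    have h4 : finrank W.K (LinearMap.range (y ^ s)) ≤ rg g := by
      refine le_trans ?_ hr
      apply Submodule.finrank_mono
      have h5 : y ^ s = y ^ i * y ^ (s - i) := by rw [← pow_add]; congr 1; omega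
      rw [h5]
      exact LinearMap.range_comp_le_range (y ^ (s - i)) (y ^ i)
    have h5 : (finrank W.K (LinearMap.range (y ^ s)) : ℝ) ≤ rg g := by exact_mod_cast h4
    rw [r_eq_df ha] at h2
    have h6 : ρ * S.a (Y.prod Y) ≤ (rg g - df S P g Y) * S.a (Y.prod Y) :=
      mul_le_mul_of_nonneg_right (by rw [hρ]; linarith) ha0
    linarith
  have hsum : ∀ i ≤ s + 1, (finrank W.K (Vx S P (Y.prod Y) (y ^ i)) : ℝ) +
      i * (ρ * S.a (Y.prod Y)) ≤ finrank W.K (Vx S P (Y.prod Y) (y ^ 0)) := by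
    intro i
    induction i with
    | zero => intro _; simp
    | succ i ih =>
      intro hi
      have h1 := ih (by omega)
      have h2 := hstep i (by omega)
      push_cast
      linarith
  have h1 := hsum (s + 1) le_rfl
  rw [pow_zero, Vx_one] at h1
  have h2 : (0 : ℝ) ≤ finrank W.K (Vx S P (Y.prod Y) (y ^ (s + 1))) := Nat.cast_nonneg _
  push_cast at h1
  linarith

end Sy

end Pool.Agent.Helper14G
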