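import Mathlib

/-!
# Words which do not contain a given word as a scattered subword
-/

namespace Pool.Agent.Helper14G

section count

variable {ι : Type*} [Fintype ι] [DecidableEq ι]

open Classical in
/-- The words of length `N` which do not contain `J` as a scattered subword. -/
noncomputable def av (J : List ι) (N : ℕ) : Finset (Fin N → ι) :=
  Finset.univ.filter fun L => ¬ List.Sublist J (List.ofFn L)

lemma mem_av {J : List ι} {N : ℕ} {L : Fin N → ι} :
    L ∈ av J N ↔ ¬ List.Sublist J (List.ofFn L) := by
  classical
  rw [av, Finset.mem_filter]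
  exact ⟨fun h => h.2, fun h => ⟨Finset.mem_univ _, h⟩⟩

lemma card_av_succ (j : ι) (J : List ι) (N : ℕ) :
    (av (j :: J) (N + 1)).card ≤ (av J N).card +
      (Fintype.card ι - 1) * (av (j :: J) N).card := by
  classical
  have h : av (j :: J) (N + 1) ⊆
      (av J N).image (fun L => (Fin.cons j L : Fin (N + 1) → ι)) ∪
      ((Finset.univ.erase j) ×ˢ av (j :: J) N).image
        (fun p => (Fin.cons p.1 p.2 : Fin (N + 1) → ι)) := by
    intro L hL
    rw [mem_av, List.ofFn_succ] at hL
    rw [Finset.mem_union, Finset.mem_image, Finset.mem_image]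
    by_cases h0 : L 0 = j
    · left
      refine ⟨fun i => L i.succ, ?_, ?_⟩
      · rw [mem_av]
        intro h
        apply hL
        rw [h0]
        exact h.cons_cons j
      · rw [← h0]
        exact Fin.cons_self_tail L
    · right
      refine ⟨(L 0, fun i => L i.succ), ?_, Fin.cons_self_tail L⟩
      rw [Finset.mem_product, Finset.mem_erase]
      refine ⟨⟨h0, Finset.mem_univ _⟩, ?_⟩
      rw [mem_av]
      intro h
      exact hL (h.cons _)
  refine (Finset.card_le_card h).trans ((Finset.card_union_le _ _).trans ?_)
  refine Nat.add_le_add Finset.card_image_le (Finset.card_image_le.trans ?_)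
  rw [Finset.card_product, Finset.card_erase_of_mem (Finset.mem_univ _), Finset.card_univ]

lemma av_nil (N : ℕ) : av ([] : List ι) N = ∅ := by
  rw [Finset.eq_empty_iff_forall_notMem]
  intro L hL
  rw [mem_av] at hL
  exact hL (List.nil_sublist _)

/-- **The number of the words which avoid a given word.** -/
theorem card_av (hb : 2 ≤ Fintype.card ι) (J : List ι) (N : ℕ) :
    (av J N).card ≤ (N + 1) ^ J.length * (Fintype.card ι - 1) ^ N := by
  induction N generalizing J with
  | zero =>
    have h1 : (av J 0).card ≤ 1 := by
      refine (Finset.card_le_univ _).trans ?_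
      simp
    simpa using h1
  | succ N ih =>
    cases J with
    | nil => rw [av_nil, Finset.card_empty]; exact Nat.zero_le _
    | cons j J =>
      refine (card_av_succ j J N).trans ?_
      have h1 := ih J
      have h2 := ih (j :: J)
      set c := Fintype.card ι - 1 with hc
      have hc1 : 1 ≤ c := by omega
      rw [List.length_cons] at h2 ⊢
      have h3 : (N + 1) ^ J.length + (N + 1) ^ (J.length + 1) ≤ (N + 1 + 1) ^ (J.length + 1) := by
        have h4 : (N + 1) ^ J.length ≤ (N + 1 + 1) ^ J.length :=
          Nat.pow_le_pow_left (by omega) _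
        calc (N + 1) ^ J.length + (N + 1) ^ (J.length + 1) =
              (N + 1) ^ J.length * (N + 1 + 1) := by ring
          _ ≤ (N + 1 + 1) ^ J.length * (N + 1 + 1) := Nat.mul_le_mul_right _ h4
          _ = _ := by ring
      calc (av J N).card + c * (av (j :: J) N).card ≤
            (N + 1) ^ J.length * c ^ N + c * ((N + 1) ^ (J.length + 1) * c ^ N) :=
            Nat.add_le_add h1 (Nat.mul_le_mul_left _ h2)
        _ ≤ (N + 1) ^ J.length * c ^ (N + 1) + c * ((N + 1) ^ (J.length + 1) * c ^ N) := by
            apply Nat.add_le_add_right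
            exact Nat.mul_le_mul_left _ (Nat.pow_le_pow_right hc1 (by omega))
        _ = ((N + 1) ^ J.length + (N + 1) ^ (J.length + 1)) * c ^ (N + 1) := by ring
        _ ≤ _ := Nat.mul_le_mul_right _ h3

/-- A word which contains `J` as a scattered subword. -/
lemma exists_emb {n N : ℕ} {J : Fin n → ι} {L : Fin N → ι} (h : L ∉ av (List.ofFn J) N) :
    ∃ p : Fin n ↪o Fin N, ∀ i, L (p i) = J i := by
  rw [mem_av, not_not, List.sublist_iff_exists_fin_orderEmbedding_get_eq] at h
  obtain ⟨f, hf⟩ := h
  have h1 : (List.ofFn J).length = n := List.length_ofFn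
  have h2 : (List.ofFn L).length = N := List.length_ofFn
  refine ⟨((Fin.castOrderIso h1.symm).toOrderEmbedding.trans f).trans
    (Fin.castOrderIso h2).toOrderEmbedding, fun i => ?_⟩
  have h3 := hf (Fin.cast h1.symm i)
  rw [List.get_ofFn, List.get_ofFn] at h3
  exact h3.symm

end count

end Pool.Agent.Helper14G
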