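import Pool.Agent.Helper14G.Tri

/-!
# Exponential growth
-/

open CategoryTheory AlgebraicGeometry

universe u v

namespace Pool.Agent.Helper14G

open Module
open Pool.Agent.H914 Pool.Agent.H914.VarClass Pool.Agent.H914.VarClass.Obj
  Pool.Agent.H914.WeilCohomology
open Pool.Agent.Y133.Half

/-- An elementary estimate. -/
lemma expo_aux {κ ε : ℝ} {j N : ℕ} (hj : 1 ≤ j) (hκ : 0 < κ) (hε : ε = κ / (2 * j)) (l : ℕ) :
    (ε ^ N / (N.factorial : ℝ) * Real.exp (-κ - 2 * ε)) * Real.exp (ε * l) *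
      ((l : ℝ) + 2) ^ N ≤ Real.exp (κ * ((l / j : ℕ) : ℝ)) := by
  have hj0 : (0 : ℝ) < j := by exact_mod_cast hj
  have hε0 : 0 < ε := by rw [hε]; positivity
  have h1 : (ε * ((l : ℝ) + 2)) ^ N / (N.factorial : ℝ) ≤ Real.exp (ε * ((l : ℝ) + 2)) :=
    Real.pow_div_factorial_le_exp _ (by positivity) N
  have h2 : (l : ℝ) / j - 1 ≤ ((l / j : ℕ) : ℝ) := by
    have h3 : l < (l / j + 1) * j := by
      have h4 := Nat.div_add_mod l j
      have h5 := Nat.mod_lt l (show 0 < j by omega)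
      calc l = j * (l / j) + l % j := h4.symm
        _ < j * (l / j) + j := by omega
        _ = _ := by ring
    have h6 : (l : ℝ) < (((l / j : ℕ) : ℝ) + 1) * j := by exact_mod_cast h3
    have h7 : (l : ℝ) / j < ((l / j : ℕ) : ℝ) + 1 := by rw [div_lt_iff₀ hj0]; exact h6
    linarith
  have h3 : κ * ((l : ℝ) / j - 1) ≤ κ * ((l / j : ℕ) : ℝ) := mul_le_mul_of_nonneg_left h2 hκ.le
  have h4 : κ * ((l : ℝ) / j - 1) = 2 * ε * l - κ := by
    rw [hε]
    field_simp
  calc (ε ^ N / (N.factorial : ℝ) * Real.exp (-κ - 2 * ε)) * Real.exp (ε * l) *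
      ((l : ℝ) + 2) ^ N = ((ε * ((l : ℝ) + 2)) ^ N / (N.factorial : ℝ)) *
        (Real.exp (-κ - 2 * ε) * Real.exp (ε * l)) := by rw [mul_pow]; ring
    _ ≤ Real.exp (ε * ((l : ℝ) + 2)) * (Real.exp (-κ - 2 * ε) * Real.exp (ε * l)) :=
        mul_le_mul_of_nonneg_right h1 (by positivity)
    _ = Real.exp (2 * ε * l - κ) := by
        rw [← Real.exp_add, ← Real.exp_add]
        congr 1
        ring
    _ ≤ Real.exp (κ * ((l / j : ℕ) : ℝ)) := by
        apply Real.exp_le_exp.2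
        rw [← h4]
        exact h3

/-- **Exponential growth.** The constant depends only on the total Betti number `b` of `X` and on
the number `q + 1` of factors of the power of `X` with a numerically trivial operator which is not
nilpotent. -/
theorem expo (b q : ℕ) : ∃ c : ℝ, 0 < c ∧ ∀ {k : Type u} [Field k] {𝒱 : VarClass k}
    {ops : CycleOps 𝒱} {W : WeilCohomology.{u, v} ops} (S : Sys W) (X : 𝒱.Obj),
    finrank W.K (W.H X) = b → (∃ x ∈ S.NOp (pw X q) (pw X q), ¬ IsNilpotent x) →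
    ∀ n : ℕ, c * Real.exp (c * n) * S.a (pw X n) ≤ finrank W.K (S.C (pw X n)) := by
  set B := b ^ (2 * (q + 1)) with hB
  set κ : ℝ := Real.log ((B : ℝ) / ((B : ℝ) - 1)) with hκ
  rcases Nat.lt_or_ge B 2 with hB2 | hB2
  · refine ⟨1, one_pos, fun {k} _ {𝒱} {ops} {W} S X hX hN n => ?_⟩
    rcases Sy.al_pos_or S X with h0 | ⟨h1, hpos⟩
    · rw [h0 n, Nat.cast_zero, mul_zero]
      exact Nat.cast_nonneg _
    · exfalso
      obtain ⟨x, hx, hn⟩ := hN
      have h2 := Sy.al_drop S hx hn 0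
      rw [hX, ← hB] at h2
      have h3 := hpos (0 + (q + 1))
      have h4 := hpos 0
      interval_cases B
      · omega
      · omega
  have hB1 : (2 : ℝ) ≤ B := by exact_mod_cast hB2
  have hκ0 : 0 < κ := by
    apply Real.log_pos
    rw [one_lt_div (by linarith)]
    linarith
  set j := q + 1 with hj
  have hj0 : (0 : ℝ) < j := by
    have : 0 < j := by omega
    exact_mod_cast this
  set ε : ℝ := κ / (2 * j) with hε
  have hε0 : 0 < ε := by positivity
  set C₁ : ℝ := ε ^ (b ^ 2) / ((b ^ 2).factorial : ℝ) * Real.exp (-κ - 2 * ε) with hC₁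
  have hC₁0 : 0 < C₁ := by positivity
  have hb0 : (0 : ℝ) ≤ b := Nat.cast_nonneg _
  set c : ℝ := min (ε / 2) (min (C₁ * Real.exp (-ε) / ((b : ℝ) + 1)) 1) with hc
  have hc0 : 0 < c := lt_min (by positivity) (lt_min (by positivity) one_pos)
  have hc1 : c ≤ ε / 2 := min_le_left _ _
  have hc2 : c ≤ C₁ * Real.exp (-ε) / ((b : ℝ) + 1) := (min_le_right _ _).trans (min_le_left _ _)
  have hc3 : c ≤ 1 := (min_le_right _ _).trans (min_le_right _ _)
  refine ⟨c, hc0, fun {k} _ {𝒱} {ops} {W} S X hX hN n => ?_⟩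
  rcases Sy.al_pos_or S X with h0 | ⟨h1, hpos⟩
  · rw [h0 n, Nat.cast_zero, mul_zero]
    exact Nat.cast_nonneg _
  have ha0 : (0 : ℝ) ≤ S.a (pw X n) := Nat.cast_nonneg _
  rcases Nat.eq_zero_or_pos n with rfl | hn
  · have h2 : (S.a (pw X 0) : ℝ) ≤ finrank W.K (S.C (pw X 0)) := by
      exact_mod_cast Sy.a_le_C S S (fun _ => le_rfl) (pw X 0)
    rw [Nat.cast_zero, mul_zero, Real.exp_zero, mul_one]
    calc c * (S.a (pw X 0) : ℝ) ≤ 1 * S.a (pw X 0) := mul_le_mul_of_nonneg_right hc3 ha0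
      _ ≤ _ := by rw [one_mul]; exact h2
  obtain ⟨x, hx, hxn⟩ := hN
  obtain ⟨l, hnl⟩ : ∃ l, n = 2 * l + 1 ∨ n = 2 * l + 2 := ⟨(n - 1) / 2, by omega⟩
  -- the level `l`
  have hlev : (C₁ * Real.exp (ε * l)) * S.al X l ≤
      finrank W.K (S.C ((pw X l).prod (pw X l))) := by
    have h2 := Sy.al_decay S hx hxn (l / j) (l % j)
    have h3 : l % j + l / j * (q + 1) = l := by
      rw [← hj, mul_comm]
      exact Nat.mod_add_div l j
    rw [h3, hX, ← hB] at h2
    have h4 := S.growth X l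
    rw [hX] at h4
    have h5 : B ^ (l / j) * S.al X l ≤ (B - 1) ^ (l / j) *
        (finrank W.K (S.C ((pw X l).prod (pw X l))) * (l + 2) ^ (b ^ 2)) :=
      h2.trans (Nat.mul_le_mul_left _ h4)
    have h6 : (B : ℝ) ^ (l / j) * S.al X l ≤ ((B : ℝ) - 1) ^ (l / j) *
        (finrank W.K (S.C ((pw X l).prod (pw X l))) * ((l : ℝ) + 2) ^ (b ^ 2)) := by
      have h7 : (((B - 1 : ℕ) : ℕ) : ℝ) = (B : ℝ) - 1 := by
        rw [Nat.cast_sub (by omega), Nat.cast_one]
      rw [← h7]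
      exact_mod_cast h5
    have hB10 : (0 : ℝ) < (B : ℝ) - 1 := by linarith
    have h7 : Real.exp (κ * ((l / j : ℕ) : ℝ)) = ((B : ℝ) / ((B : ℝ) - 1)) ^ (l / j) := by
      rw [hκ, mul_comm, ← Real.log_pow, Real.exp_log (by positivity)]
    have h8 : Real.exp (κ * ((l / j : ℕ) : ℝ)) * S.al X l ≤
        finrank W.K (S.C ((pw X l).prod (pw X l))) * ((l : ℝ) + 2) ^ (b ^ 2) := by
      rw [h7, div_pow, div_mul_eq_mul_div, div_le_iff₀ (by positivity)]
      linarith [h6]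
    have h9 := expo_aux (N := b ^ 2) (show 1 ≤ j by omega) hκ0 hε l
    rw [← hC₁] at h9
    have h10 : (0 : ℝ) < ((l : ℝ) + 2) ^ (b ^ 2) := by positivity
    have h11 : (C₁ * Real.exp (ε * l) * S.al X l) * ((l : ℝ) + 2) ^ (b ^ 2) ≤
        finrank W.K (S.C ((pw X l).prod (pw X l))) * ((l : ℝ) + 2) ^ (b ^ 2) := by
      calc (C₁ * Real.exp (ε * l) * S.al X l) * ((l : ℝ) + 2) ^ (b ^ 2) =
          (C₁ * Real.exp (ε * l) * ((l : ℝ) + 2) ^ (b ^ 2)) * S.al X l := by ring
        _ ≤ Real.exp (κ * ((l / j : ℕ) : ℝ)) * S.al X l :=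
            mul_le_mul_of_nonneg_right h9 (Nat.cast_nonneg _)
        _ ≤ _ := h8
    exact le_of_mul_le_mul_right h11 h10
  obtain ⟨h2, h3⟩ := Sy.transfer S S X h1 (by positivity) hlev
  rw [hX] at h3
  have h4 : (C₁ * Real.exp (ε * l)) * S.a (pw X n) ≤
      ((b : ℝ) + 1) * finrank W.K (S.C (pw X n)) := by
    have h5 : (0 : ℝ) ≤ finrank W.K (S.C (pw X n)) := Nat.cast_nonneg _
    rcases hnl with rfl | rfl
    · refine h2.trans ?_
      nlinarith
    · refine h3.trans ?_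
      nlinarith
  have hln : (n : ℝ) ≤ 2 * l + 2 := by exact_mod_cast (show n ≤ 2 * l + 2 by omega)
  have h5 : Real.exp (c * n) ≤ Real.exp ε * Real.exp (ε * l) := by
    rw [← Real.exp_add]
    apply Real.exp_le_exp.2
    have hn0 : (0 : ℝ) ≤ n := Nat.cast_nonneg _
    calc c * n ≤ ε / 2 * (2 * l + 2) := mul_le_mul hc1 hln hn0 (by positivity)
      _ = ε + ε * l := by ring
  have hb1 : (0 : ℝ) < (b : ℝ) + 1 := by positivity
  have h6 : c * Real.exp (c * n) ≤ C₁ * Real.exp (ε * l) / ((b : ℝ) + 1) := by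
    calc c * Real.exp (c * n) ≤ C₁ * Real.exp (-ε) / ((b : ℝ) + 1) *
          (Real.exp ε * Real.exp (ε * l)) := mul_le_mul hc2 h5 (Real.exp_pos _).le (by positivity)
      _ = C₁ * Real.exp (ε * l) / ((b : ℝ) + 1) * (Real.exp (-ε) * Real.exp ε) := by ring
      _ = _ := by rw [← Real.exp_add, neg_add_cancel, Real.exp_zero, mul_one]
  calc c * Real.exp (c * n) * S.a (pw X n) ≤
        C₁ * Real.exp (ε * l) / ((b : ℝ) + 1) * S.a (pw X n) :=
        mul_le_mul_of_nonneg_right h6 ha0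
    _ = (C₁ * Real.exp (ε * l) * S.a (pw X n)) / ((b : ℝ) + 1) := by ring
    _ ≤ _ := by
        rw [div_le_iff₀ hb1]
        linarith [h4]

namespace Sy

/-- **The gap.** The growth is polynomial if and only if all numerically trivial operators on the
powers are nilpotent. -/
theorem nil_iff {k : Type u} [Field k] {𝒱 : VarClass k} {ops : CycleOps 𝒱}
    {W : WeilCohomology.{u, v} ops} (S : Sys W) (X : 𝒱.Obj) :
    (∀ l, ∀ x ∈ S.NOp (pw X l) (pw X l), IsNilpotent x) ↔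
      ∀ n, finrank W.K (S.C (pw X n)) ≤ finrank W.K (W.H X) *
        (n + 2) ^ (finrank W.K (W.H X) ^ 2) * S.a (pw X n) := by
  refine ⟨fun h n => poly_of_nil S X h n, fun h => ?_⟩
  by_contra hno
  push Not at hno
  obtain ⟨l, x, hx, hxn⟩ := hno
  set b := finrank W.K (W.H X) with hb
  obtain ⟨c, hc0, hc⟩ := expo.{u, v} b l
  have h1 := hc S X hb.symm ⟨x, hx, hxn⟩
  have hx0 : x ≠ 0 := fun h => hxn ⟨1, by rw [h, pow_one]⟩
  have h1l : (1 : W.H (pw X l)) ≠ 0 := by
    intro h0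
    apply hx0
    apply LinearMap.ext
    intro y
    have : y = 0 := by rw [← one_mul y, h0, zero_mul]
    rw [this, map_zero, LinearMap.zero_apply]
  -- some rank is positive
  have hpos : ∀ n, 0 < S.a (pw X n) := by
    rcases Sy.al_pos_or S X with h0 | ⟨h1X, hp⟩
    · exfalso
      have h2 := h l
      rw [h0 l, mul_zero] at h2
      have h3 : S.C (pw X l) = ⊥ := Submodule.finrank_eq_zero.1 (Nat.le_zero.1 h2)
      have h4 : (1 : W.H (pw X l)) ∈ S.C (pw X l) := S.one _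
      rw [h3] at h4
      exact h1l ((Submodule.mem_bot _).1 h4)
    · intro n
      have h2 := h n
      rw [Nat.pos_iff_ne_zero]
      intro h0
      rw [h0, mul_zero] at h2
      have h3 : S.C (pw X n) = ⊥ := Submodule.finrank_eq_zero.1 (Nat.le_zero.1 h2)
      have h4 : (1 : W.H (pw X n)) ∈ S.C (pw X n) := S.one _
      rw [h3] at h4
      have h5 : (1 : W.H (pw X n)) = 0 := (Submodule.mem_bot _).1 h4
      have h6 : finrank W.K (W.H (pw X n)) = 0 := by
        rw [finrank_zero_iff_forall_zero]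
        intro y
        rw [← one_mul y, h5, zero_mul]
      rw [finrank_pw] at h6
      have h7 : finrank W.K (W.H X) = 0 := by
        by_contra h8
        exact pow_ne_zero _ h8 h6
      have h8 := finrank_zero_iff_forall_zero.1 h7 1
      exact h1X h8
  -- compare exponential and polynomial growth
  set N := b ^ 2 + 1 with hN
  have h2 : ∀ n : ℕ, c * Real.exp (c * n) ≤ b * ((n : ℝ) + 2) ^ (b ^ 2) := by
    intro n
    have h3 : (finrank W.K (S.C (pw X n)) : ℝ) ≤ b * ((n : ℝ) + 2) ^ (b ^ 2) * S.a (pw X n) := by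
      exact_mod_cast h n
    have h4 := (h1 n).trans h3
    have h5 : (0 : ℝ) < S.a (pw X n) := by exact_mod_cast hpos n
    exact le_of_mul_le_mul_right h4 h5
  -- a contradiction for large `n`
  obtain ⟨n, hn⟩ := exists_nat_gt
    (max 2 ((b * (2 : ℝ) ^ (b ^ 2) * (N.factorial : ℝ)) / (c * c ^ N)))
  have hn2 : (2 : ℝ) < n := (le_max_left _ _).trans_lt hn
  have hn3 : (b * (2 : ℝ) ^ (b ^ 2) * (N.factorial : ℝ)) / (c * c ^ N) < n :=
    (le_max_right _ _).trans_lt hn
  have hn0 : (0 : ℝ) < n := by linarith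
  have h3 : (c * n) ^ N / (N.factorial : ℝ) ≤ Real.exp (c * n) :=
    Real.pow_div_factorial_le_exp _ (by positivity) N
  have h4 : c * ((c * n) ^ N / (N.factorial : ℝ)) ≤ b * (2 * (n : ℝ)) ^ (b ^ 2) := by
    refine (mul_le_mul_of_nonneg_left h3 hc0.le).trans ((h2 n).trans ?_)
    apply mul_le_mul_of_nonneg_left _ (Nat.cast_nonneg _)
    exact pow_le_pow_left₀ (by positivity) (by linarith) _
  rw [div_lt_iff₀ (by positivity)] at hn3
  have hf : (0 : ℝ) < (N.factorial : ℝ) := by positivity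
  have h5 : c * (c * n) ^ N ≤ b * (2 * (n : ℝ)) ^ (b ^ 2) * (N.factorial : ℝ) := by
    have h6 := mul_le_mul_of_nonneg_right h4 hf.le
    calc c * (c * n) ^ N = c * ((c * n) ^ N / (N.factorial : ℝ)) * (N.factorial : ℝ) := by
          field_simp
      _ ≤ _ := h6
  have h6 : c * (c * n) ^ N = (n * (c * c ^ N)) * (n : ℝ) ^ (b ^ 2) := by
    rw [mul_pow, hN, pow_succ (n : ℝ)]
    ring
  have h7 : b * (2 * (n : ℝ)) ^ (b ^ 2) * (N.factorial : ℝ) =
      (b * (2 : ℝ) ^ (b ^ 2) * (N.factorial : ℝ)) * (n : ℝ) ^ (b ^ 2) := by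
    rw [mul_pow]
    ring
  rw [h6, h7] at h5
  have h8 : 0 < (n : ℝ) ^ (b ^ 2) := by positivity
  have h9 := le_of_mul_le_mul_right h5 h8
  linarith

end Sy

end Pool.Agent.Helper14G
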