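import Pool.Agent.Helper14G.Prim

/-!
# The injectivity of the map from classes to operators
-/

open CategoryTheory AlgebraicGeometry

universe u v

namespace Pool.Agent.Helper14G

open Module
open Pool.Agent.H914 Pool.Agent.H914.VarClass Pool.Agent.H914.VarClass.Obj
  Pool.Agent.H914.WeilCohomology
open Pool.Agent.Y133.Half

variable {k : Type u} [Field k] {𝒱 : VarClass k} {ops : CycleOps 𝒱}
  {W : WeilCohomology.{u, v} ops} {P Q P' Q' Z X Y : 𝒱.Obj}

/-- A class on the product which induces the zero operator vanishes. -/
lemma corr_inj' {c : W.H (X.prod Y)} (h : W.corr c = 0) : c = 0 := by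
  apply W.nondeg
  intro d
  refine W.kunneth_induction (p := fun d => W.tr (X.prod Y) (c * d) = 0) ?_ ?_ d
  · intro a b ha hb
    rw [mul_add, map_add, ha, hb, add_zero]
  · intro i j a _ b _
    rw [← mul_assoc, ← W.tr_push]
    have h1 := congrArg (fun F => F a) h
    rw [corr_apply, LinearMap.zero_apply] at h1
    rw [h1, zero_mul, map_zero]

end Pool.Agent.Helper14G
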