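import Pool.Agent.Helper14G.Quo
import Pool.Agent.Helper14G.Expo
import Pool.Agent.Helper14G.Seq

/-!
# The gap between polynomial and exponential growth
-/

open CategoryTheory AlgebraicGeometry

universe u v

namespace Pool.Agent.Helper14G

open Module
open Pool.Agent.H914 Pool.Agent.H914.VarClass Pool.Agent.H914.VarClass.Obj
  Pool.Agent.H914.WeilCohomology
open Pool.Agent.Y133.Half

/-- The ratios of a log-convex sequence which grows at most like a geometric sequence times a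
polynomial are bounded by the ratio of the geometric sequence. -/
lemma ratio_le {α : ℕ → ℕ} (hpos : ∀ l, 0 < α l) (hconv : ∀ l, α (l + 1) ^ 2 ≤ α (l + 2) * α l)
    {c m : ℕ} (h : ∀ t, α (m + t) ≤ ((m + t + 2) ^ (m + 1) * c ^ (m + t + 1)) ^ 2) (l : ℕ) :
    α (l + 1) ≤ c ^ 2 * α l := by
  by_contra hno
  push Not at hno
  have hl : (0 : ℝ) < α l := by exact_mod_cast hpos l
  set ρ : ℝ := (α (l + 1) : ℝ) / α l with hρ
  have hρc : (c : ℝ) ^ 2 < ρ := by
    rw [hρ, lt_div_iff₀ hl]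
    exact_mod_cast hno
  have hρ0 : 0 < ρ := lt_of_le_of_lt (by positivity) hρc
  have hmono : ∀ n ≥ l, ρ * α n ≤ α (n + 1) := fun n hn =>
    ratio_mono hpos hconv (by rw [hρ, div_mul_cancel₀ _ hl.ne']) hn
  obtain ⟨l₀, hl₀⟩ := exp_lt (c := (c : ℝ) ^ 2) (B := ρ) (by positivity) hρc (2 * (m + 1))
    (C := (c : ℝ) ^ 2) (ε := (α l : ℝ) / (2 * ρ ^ l)) (by positivity)
  obtain ⟨n, hn1, hn2, hn3⟩ : ∃ n, l₀ ≤ n ∧ m ≤ n ∧ l ≤ n :=
    ⟨l₀ + m + l, by omega, by omega, by omega⟩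
  obtain ⟨t, rfl⟩ := Nat.exists_eq_add_of_le hn2
  obtain ⟨j, hj⟩ := Nat.exists_eq_add_of_le hn3
  have h1 := ratio_pow hρ0.le hmono j l le_rfl
  rw [← hj] at h1
  have h2 : (α (m + t) : ℝ) ≤ (((((m + t : ℕ) : ℝ) + 2) ^ (m + 1) * (c : ℝ) ^ (m + t + 1)) ^ 2) := by
    exact_mod_cast h t
  have h3 := hl₀ (m + t) hn1
  have h4 : ((((m + t : ℕ) : ℝ) + 2) ^ (m + 1) * (c : ℝ) ^ (m + t + 1)) ^ 2 =
      (c : ℝ) ^ 2 * ((c : ℝ) ^ 2) ^ (m + t) * (((m + t : ℕ) : ℝ) + 2) ^ (2 * (m + 1)) := by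
    ring
  rw [h4] at h2
  have h5 : ρ ^ j * α l ≤ (α l : ℝ) / (2 * ρ ^ l) * ρ ^ (m + t) := h1.trans (h2.trans h3)
  rw [hj, pow_add] at h5
  have h6 : (α l : ℝ) / (2 * ρ ^ l) * (ρ ^ l * ρ ^ j) = ρ ^ j * α l / 2 := by
    field_simp
  rw [h6] at h5
  have h7 : 0 < ρ ^ j * α l := by positivity
  linarith

/-- An elementary estimate. -/
lemma level_aux {b : ℕ} (hb : 2 ≤ b) : (b - 1) ^ (2 * b ^ 4) * (b ^ 4 + 2) ^ (b ^ 2) <
    b ^ (2 * b ^ 4) := by
  have hb0 : (2 : ℝ) ≤ b := by exact_mod_cast hb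
  have h1 : ((b : ℝ) - 1) ≤ b * Real.exp (-(1 / b)) := by
    have h2 := Real.add_one_le_exp (-(1 / (b : ℝ)))
    have h3 : (b : ℝ) * (-(1 / b) + 1) = b - 1 := by field_simp; ring
    rw [← h3]
    exact mul_le_mul_of_nonneg_left h2 (by linarith)
  have h2 : ((b : ℝ) ^ 4 + 2) < Real.exp (2 * b) := by
    have h3 := Real.sum_le_exp_of_nonneg (x := 2 * (b : ℝ)) (by linarith) 6
    simp only [Finset.sum_range_succ, Finset.sum_range_zero] at h3
    norm_num [Nat.factorial] at h3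
    have h4 : (2 : ℝ) * (b : ℝ) ^ 4 ≤ (b : ℝ) ^ 5 := by
      have : (b : ℝ) ^ 5 = b * (b : ℝ) ^ 4 := by ring
      rw [this]
      exact mul_le_mul_of_nonneg_right hb0 (by positivity)
    have h5 : (0 : ℝ) ≤ (b : ℝ) ^ 3 := by positivity
    have h6 : (0 : ℝ) ≤ (b : ℝ) ^ 4 := by positivity
    nlinarith [h3, h4, h5, h6]
  have h3 : ((b : ℝ) - 1) ^ (2 * b ^ 2) * ((b : ℝ) ^ 4 + 2) < (b : ℝ) ^ (2 * b ^ 2) := by
    have h4 : ((b : ℝ) - 1) ^ (2 * b ^ 2) ≤ (b : ℝ) ^ (2 * b ^ 2) * Real.exp (-(2 * b)) := by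
      calc ((b : ℝ) - 1) ^ (2 * b ^ 2) ≤ (b * Real.exp (-(1 / b))) ^ (2 * b ^ 2) :=
            pow_le_pow_left₀ (by linarith) h1 _
        _ = (b : ℝ) ^ (2 * b ^ 2) * Real.exp (-(2 * b)) := by
            rw [mul_pow, ← Real.exp_nat_mul]
            congr 2
            push_cast
            field_simp
    calc ((b : ℝ) - 1) ^ (2 * b ^ 2) * ((b : ℝ) ^ 4 + 2) ≤
          ((b : ℝ) ^ (2 * b ^ 2) * Real.exp (-(2 * b))) * ((b : ℝ) ^ 4 + 2) :=
          mul_le_mul_of_nonneg_right h4 (by positivity)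
      _ < ((b : ℝ) ^ (2 * b ^ 2) * Real.exp (-(2 * b))) * Real.exp (2 * b) :=
          mul_lt_mul_of_pos_left h2 (by positivity)
      _ = (b : ℝ) ^ (2 * b ^ 2) := by
          rw [mul_assoc, ← Real.exp_add, neg_add_cancel, Real.exp_zero, mul_one]
  have h4 : (((b : ℝ) - 1) ^ (2 * b ^ 2) * ((b : ℝ) ^ 4 + 2)) ^ (b ^ 2) <
      ((b : ℝ) ^ (2 * b ^ 2)) ^ (b ^ 2) :=
    pow_lt_pow_left₀ h3 (mul_nonneg (pow_nonneg (by linarith) _) (by positivity)) (by positivity)
  have h5 : ((b : ℝ) - 1) ^ (2 * b ^ 4) * ((b : ℝ) ^ 4 + 2) ^ (b ^ 2) < (b : ℝ) ^ (2 * b ^ 4) := by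
    have e1 : 2 * b ^ 4 = 2 * b ^ 2 * b ^ 2 := by ring
    rw [e1, pow_mul, pow_mul (b : ℝ), ← mul_pow]
    exact h4
  have h6 : (((b - 1 : ℕ) : ℕ) : ℝ) = (b : ℝ) - 1 := by
    rw [Nat.cast_sub (by omega), Nat.cast_one]
  rw [← h6] at h5
  exact_mod_cast h5

variable {k : Type u} [Field k] {𝒱 : VarClass k} {ops : CycleOps 𝒱}
  {W : WeilCohomology.{u, v} ops} {P Q P' Q' Z X Y : 𝒱.Obj}

namespace Sy

variable (S : Sys W)

lemma nop_apply {u : W.H X →ₗ[W.K] W.H Y} (hu : u ∈ S.NOp X Y) {x : W.H X} (hx : x ∈ S.C X) :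
    u x ∈ S.Num Y := by
  obtain ⟨c, hc, rfl⟩ := Sys.mem_NOp.1 hu
  rw [corr_apply]
  exact Sys.Num.push _ (Sys.Num.mul hc (S.map _ hx))

/-- Numerically trivial operators do not contribute to the rank. -/
lemma a_le_rank {u : Module.End W.K (W.H Z)} (hu : u ∈ S.NOp Z Z) :
    S.a Z ≤ finrank W.K (LinearMap.range (1 - u)) := by
  have h1 : S.F Z 1 = S.F Z (1 - u) := by
    apply LinearMap.ext
    intro c
    apply LinearMap.ext
    intro d
    rw [Sys.F_apply, Sys.F_apply, LinearMap.sub_apply, sub_mul, map_sub,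
      (nop_apply S hu c.2).2 d d.2, sub_zero]
  rw [Sys.a, h1]
  exact S.rk_F_le _

/-- The rank on `P × P` is at most the square of the rank of the complement of a numerically
trivial idempotent. -/
lemma a_prod_le {f : Module.End W.K (W.H P)} (hf : f ∈ S.NOp P P) (hff : f * f = f) :
    S.a (P.prod P) ≤ finrank W.K (LinearMap.range (1 - f)) ^ 2 := by
  obtain ⟨h1, -⟩ := Sys.finrank_compl (g := f) hff
  have h2 : (1 : Module.End W.K (W.H (P.prod P))) - extOp W (1 - f) (1 - f) ∈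
      S.NOp (P.prod P) (P.prod P) := by
    have e1 : (1 : Module.End W.K (W.H (P.prod P))) - extOp W (1 - f) (1 - f) =
        extOp W f 1 + extOp W (1 - f) 1 * extOp W 1 f := by
      rw [extOp_mul, mul_one, one_mul, ← extOp_one (W := W) (Y := P) (Z := P)]
      have e2 : extOp W (1 : Module.End W.K (W.H P)) (1 : Module.End W.K (W.H P)) =
          extOp W f 1 + extOp W (1 - f) 1 := by
        rw [← extOp_add_left, add_sub_cancel]
      have e3 : extOp W (1 - f) (1 : Module.End W.K (W.H P)) =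
          extOp W (1 - f) f + extOp W (1 - f) (1 - f) := by
        rw [← extOp_add_right, add_sub_cancel]
      rw [e2, e3]
      abel
    rw [e1]
    have hop : extOp W (1 - f) (1 : Module.End W.K (W.H P)) ∈ S.Op (P.prod P) (P.prod P) :=
      Sys.Op.ext (Submodule.sub_mem _ Sys.Op.id (Sys.NOp.op hf)) Sys.Op.id
    exact Submodule.add_mem _ (Sys.NOp.ext_left hf) (Sys.NOp.comp_left hop (Sys.NOp.ext_right hf))
  have h3 := a_le_rank S h2
  rw [sub_sub_cancel, finrank_extOp h1 h1, ← sq] at h3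
  exact h3

/-- **The ratios of the ranks**, if some combination of permutations is numerically trivial. -/
theorem al_ratio {X : 𝒱.Obj} (hpos : ∀ l, 0 < S.al X l) (hb : 2 ≤ finrank W.K (W.H X)) {m : ℕ}
    {a : Module.End W.K (W.H (pw X m))} (ha : a ∈ repAlg (rho W X m))
    (haN : a ∈ S.NOp (pw X m) (pw X m)) (ha0 : a ≠ 0) (l : ℕ) :
    S.al X (l + 1) ≤ (finrank W.K (W.H X) - 1) ^ 2 * S.al X l := by
  refine ratio_le hpos (S.al_convex X) (m := m) (fun t => ?_) l
  obtain ⟨f, hf, hff, hr⟩ := exists_idem_small S X hb ha haN ha0 t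
  exact (a_prod_le S hf hff).trans (Nat.pow_le_pow_left hr 2)

/-- If no combination of permutations is numerically trivial, the rank is large. -/
theorem span_le_a' (X : 𝒱.Obj) (l : ℕ)
    (h : ∀ x ∈ repAlg (rho W X l), x ∈ S.NOp (pw X l) (pw X l) → x = 0) :
    finrank W.K (W.H X) ^ (2 * (l + 1)) ≤
      S.al X l * (l + 2) ^ (finrank W.K (W.H X) ^ 2) := by
  classical
  set P := pw X l with hP
  let A : Submodule W.K (Module.End W.K (W.H P)) := Subalgebra.toSubmodule (repAlg (rho W X l))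
  have hAop : A ≤ S.Op P P := fun g hg => S.span_rho_le X l (repAlg_le _ hg)
  have hNop : S.NOp P P ≤ S.Op P P := fun x hx => Sys.NOp.op hx
  have hdis : A ⊓ S.NOp P P = ⊥ := by
    rw [eq_bot_iff]
    rintro a ⟨ha, haN⟩
    exact (Submodule.mem_bot _).2 (h a ha haN)
  have h1 : finrank W.K A + finrank W.K (S.NOp P P) ≤ finrank W.K (S.Op P P) := by
    have h2 := Submodule.finrank_sup_add_finrank_inf_eq A (S.NOp P P)
    rw [hdis, finrank_bot, add_zero] at h2
    rw [← h2]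
    exact Submodule.finrank_mono (sup_le hAop hNop)
  have hinj : Function.Injective (corrL W P P) := by
    rw [← LinearMap.ker_eq_bot, LinearMap.ker_eq_bot']
    intro c hc
    exact corr_inj' hc
  have h2 : finrank W.K (S.Op P P) = finrank W.K (S.C (P.prod P)) :=
    (Submodule.equivMapOfInjective _ hinj _).finrank_eq.symm
  have h3 : finrank W.K (S.NOp P P) = finrank W.K (S.Num (P.prod P)) :=
    (Submodule.equivMapOfInjective _ hinj _).finrank_eq.symm
  have h4 := S.a_add_num (P.prod P)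
  have h5 : finrank W.K A ≤ S.al X l := by
    have : S.al X l = S.a (P.prod P) := rfl
    omega
  obtain ⟨e, he⟩ := exists_hbasis W X
  have h6 := span_perm (wb e l) (rho W X l) (tau_wb e he l)
  rw [finrank_pw, ← pow_mul, Fintype.card_fin, mul_comm (l + 1) 2] at h6
  refine h6.trans (Nat.mul_le_mul_right _ ?_)
  refine le_trans (Submodule.finrank_mono ?_) h5
  rw [Submodule.span_le]
  rintro _ ⟨σ, rfl⟩
  exact rep_mem _ σ

/-- A numerically trivial operator which is not nilpotent gives a numerically trivial combination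
of permutations on some power. -/
theorem exists_comb {X : 𝒱.Obj} (hpos : ∀ l, 0 < S.al X l) {q : ℕ}
    {x : Module.End W.K (W.H (pw X q))} (hx : x ∈ S.NOp (pw X q) (pw X q))
    (hn : ¬ IsNilpotent x) :
    ∃ m, ∃ a ∈ repAlg (rho W X m), a ∈ S.NOp (pw X m) (pw X m) ∧ a ≠ 0 := by
  by_contra hno
  push Not at hno
  set b := finrank W.K (W.H X) with hb
  obtain ⟨c, hc0, hc⟩ := expo.{u, v} b q
  have h1 := hc S X hb.symm ⟨x, hx, hn⟩
  have hB : (1 : ℝ) < Real.exp (2 * c) := Real.one_lt_exp_iff.2 (by linarith)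
  obtain ⟨l₀, hl₀⟩ := exp_lt (c := 1) (B := Real.exp (2 * c)) zero_le_one hB (b ^ 2) (C := 1)
    (ε := c * Real.exp c / 2) (by positivity)
  have h2 := hl₀ l₀ le_rfl
  have h3 := h1 (2 * l₀ + 1)
  have h4 := span_le_a' S X l₀ (fun y hy hyN => hno l₀ y hy hyN)
  rw [← hb] at h4
  have e1 : 2 * l₀ + 1 = l₀ + l₀ + 1 := by ring
  have h5 : S.a (pw X (2 * l₀ + 1)) = S.al X l₀ :=
    (S.a_iso (pwAdd X l₀ l₀ ≪≫ eqToIso (congrArg (pw X) e1.symm))).symm
  have h6 := finrank_C_le' S (pw X (2 * l₀ + 1))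
  rw [finrank_pw, ← hb] at h6
  have hpos' : (0 : ℝ) < S.al X l₀ := by exact_mod_cast hpos l₀
  have h7 : c * Real.exp (c * ((2 * l₀ + 1 : ℕ) : ℝ)) * S.al X l₀ ≤
      ((l₀ : ℝ) + 2) ^ (b ^ 2) * S.al X l₀ := by
    rw [h5] at h3
    refine h3.trans ?_
    have h8 : (finrank W.K (S.C (pw X (2 * l₀ + 1))) : ℝ) ≤ (b : ℝ) ^ (2 * l₀ + 1 + 1) := by
      exact_mod_cast h6
    have h9 : (b : ℝ) ^ (2 * (l₀ + 1)) ≤ S.al X l₀ * ((l₀ : ℝ) + 2) ^ (b ^ 2) := by
      exact_mod_cast h4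
    refine h8.trans ?_
    rw [show 2 * l₀ + 1 + 1 = 2 * (l₀ + 1) by ring]
    exact h9.trans (le_of_eq (mul_comm _ _))
  have h8 := le_of_mul_le_mul_right h7 hpos'
  have h9 : Real.exp (c * ((2 * l₀ + 1 : ℕ) : ℝ)) = Real.exp c * Real.exp (2 * c) ^ l₀ := by
    rw [← Real.exp_nat_mul, ← Real.exp_add]
    congr 1
    push_cast
    ring
  rw [h9] at h8
  rw [one_pow, one_mul, one_mul] at h2
  have h10 : 0 < c * Real.exp c * Real.exp (2 * c) ^ l₀ := by positivity
  nlinarith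

/-- **The level of the first numerically trivial operator which is not nilpotent, and the rate of
the exponential growth.** -/
theorem gap_aux {X : 𝒱.Obj} (hpos : ∀ l, 0 < S.al X l) {q : ℕ}
    {x : Module.End W.K (W.H (pw X q))} (hx : x ∈ S.NOp (pw X q) (pw X q))
    (hn : ¬ IsNilpotent x) :
    2 ≤ finrank W.K (W.H X) ∧
    ∀ l, S.al X l ≤ (finrank W.K (W.H X) - 1) ^ (2 * l) * finrank W.K (W.H X) ^ 2 := by
  set b := finrank W.K (W.H X) with hb
  have hb2 : 2 ≤ b := by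
    by_contra hlt
    have h2 := al_drop S hx hn 0
    rw [← hb] at h2
    have h3 := hpos (0 + (q + 1))
    have h4 : b ^ (2 * (q + 1)) * S.al X 0 ≤ 1 * S.al X 0 := by
      apply Nat.mul_le_mul_right
      exact pow_le_one₀ (Nat.zero_le _) (by omega)
    omega
  refine ⟨hb2, fun l => ?_⟩
  obtain ⟨m, a, ha, haN, ha0⟩ := exists_comb S hpos hx hn
  have h1 := al_ratio S hpos (by rw [← hb]; exact hb2) ha haN ha0
  rw [← hb] at h1
  induction l with
  | zero =>
    rw [mul_zero, pow_zero, one_mul]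
    exact al_zero_le S X
  | succ l ih =>
    refine (h1 l).trans ?_
    calc (b - 1) ^ 2 * S.al X l ≤ (b - 1) ^ 2 * ((b - 1) ^ (2 * l) * b ^ 2) :=
          Nat.mul_le_mul_left _ ih
      _ = _ := by ring

/-- **The gap.** Either all numerically trivial operators on the powers are nilpotent, and then the
growth is polynomial, or the growth is exponential, and then there is a numerically trivial operator
which is not nilpotent on the power with `b ^ 4 + 1` factors. -/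
theorem gap (X : 𝒱.Obj) :
    ((∀ l, ∀ x ∈ S.NOp (pw X l) (pw X l), IsNilpotent x) ∧
      ∀ n, finrank W.K (S.C (pw X n)) ≤ finrank W.K (W.H X) *
        (n + 2) ^ (finrank W.K (W.H X) ^ 2) * S.a (pw X n)) ∨
    ((∃ x ∈ S.NOp (pw X (finrank W.K (W.H X) ^ 4)) (pw X (finrank W.K (W.H X) ^ 4)),
        ¬ IsNilpotent x) ∧
      ∀ n, finrank W.K (W.H X) ^ n * S.a (pw X n) ≤ 4 * finrank W.K (W.H X) *
        (n + 2) ^ (finrank W.K (W.H X) ^ 2) * (finrank W.K (W.H X) - 1) ^ n *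
          finrank W.K (S.C (pw X n))) := by
  by_cases h : ∀ l, ∀ x ∈ S.NOp (pw X l) (pw X l), IsNilpotent x
  · exact Or.inl ⟨h, fun n => poly_of_nil S X h n⟩
  right
  push Not at h
  obtain ⟨q, x, hx, hxn⟩ := h
  set b := finrank W.K (W.H X) with hb
  have hx0 : x ≠ 0 := fun h => hxn ⟨1, by rw [h, pow_one]⟩
  -- the cohomology of `X` is not zero
  have hbpos : 0 < b := by
    rw [Nat.pos_iff_ne_zero]
    intro h0
    apply hx0
    have h1 : finrank W.K (W.H (pw X q)) = 0 := by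
      rw [finrank_pw, ← hb, h0, zero_pow (by omega)]
    apply LinearMap.ext
    intro y
    rw [finrank_zero_iff_forall_zero.1 h1 y, map_zero, LinearMap.zero_apply]
  constructor
  · -- the level
    by_contra hno
    push Not at hno
    have h1 := span_le_a S X (b ^ 4) hno
    rw [← hb] at h1
    rcases al_pos_or S X with h0 | ⟨h1X, hpos⟩
    · have e1 : 2 * b ^ 4 + 1 = b ^ 4 + b ^ 4 + 1 := by ring
      have h5 : S.a (pw X (2 * b ^ 4 + 1)) = S.al X (b ^ 4) :=
        (S.a_iso (pwAdd X (b ^ 4) (b ^ 4) ≪≫ eqToIso (congrArg (pw X) e1.symm))).symm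
      rw [← h5, h0, zero_mul] at h1
      have h2 : 0 < b ^ (2 * (b ^ 4 + 1)) := pow_pos hbpos _
      omega
    · obtain ⟨hb2, h2⟩ := gap_aux S hpos hx hxn
      rw [← hb] at h2 hb2
      have h3 : b ^ (2 * (b ^ 4 + 1)) ≤
          (b - 1) ^ (2 * b ^ 4) * b ^ 2 * (b ^ 4 + 2) ^ (b ^ 2) :=
        h1.trans (Nat.mul_le_mul_right _ (h2 _))
      have h4 : b ^ 2 * b ^ (2 * b ^ 4) ≤
          b ^ 2 * ((b - 1) ^ (2 * b ^ 4) * (b ^ 4 + 2) ^ (b ^ 2)) := by
        calc b ^ 2 * b ^ (2 * b ^ 4) = b ^ (2 * (b ^ 4 + 1)) := by ring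
          _ ≤ _ := h3
          _ = _ := by ring
      have h5 := Nat.le_of_mul_le_mul_left h4 (by positivity)
      exact absurd (level_aux hb2) (not_lt.2 h5)
  · -- the growth
    intro n
    rcases al_pos_or S X with h0 | ⟨h1X, hpos⟩
    · rw [h0 n, mul_zero]
      exact Nat.zero_le _
    obtain ⟨hb2, h2⟩ := gap_aux S hpos hx hxn
    rw [← hb] at h2 hb2
    have hS : S.a (pw X n) ≤ finrank W.K (S.C (pw X n)) := a_le_C S S (fun _ => le_rfl) _
    rcases Nat.eq_zero_or_pos n with rfl | hn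
    · rw [pow_zero, one_mul, pow_zero, mul_one]
      refine hS.trans (Nat.le_mul_of_pos_left _ ?_)
      positivity
    obtain ⟨l, hl⟩ : ∃ l, n = 2 * l + 1 ∨ n = 2 * l + 2 := ⟨(n - 1) / 2, by omega⟩
    have hb0 : (0 : ℝ) < b := by exact_mod_cast hbpos
    have hc0 : (0 : ℝ) < (b : ℝ) - 1 := by
      have : (2 : ℝ) ≤ b := by exact_mod_cast hb2
      linarith
    have hc : (((b - 1 : ℕ) : ℕ) : ℝ) = (b : ℝ) - 1 := by
      rw [Nat.cast_sub (by omega), Nat.cast_one]
    set F : ℝ := (b : ℝ) ^ (2 * l) / (((b : ℝ) - 1) ^ (2 * l) * ((l : ℝ) + 2) ^ (b ^ 2)) with hF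
    have hF0 : 0 ≤ F := by positivity
    have hlev : F * S.al X l ≤ finrank W.K (S.C ((pw X l).prod (pw X l))) := by
      have h4 := S.growth X l
      rw [← hb] at h4
      have h5 : (b : ℝ) ^ (2 * (l + 1)) ≤
          finrank W.K (S.C ((pw X l).prod (pw X l))) * ((l : ℝ) + 2) ^ (b ^ 2) := by
        exact_mod_cast h4
      have h6 : (S.al X l : ℝ) ≤ ((b : ℝ) - 1) ^ (2 * l) * (b : ℝ) ^ 2 := by
        rw [← hc]
        exact_mod_cast h2 l
      rw [hF, div_mul_eq_mul_div, div_le_iff₀ (by positivity)]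
      calc (b : ℝ) ^ (2 * l) * S.al X l ≤
            (b : ℝ) ^ (2 * l) * (((b : ℝ) - 1) ^ (2 * l) * (b : ℝ) ^ 2) :=
            mul_le_mul_of_nonneg_left h6 (by positivity)
        _ = ((b : ℝ) - 1) ^ (2 * l) * (b : ℝ) ^ (2 * (l + 1)) := by ring
        _ ≤ ((b : ℝ) - 1) ^ (2 * l) *
            (finrank W.K (S.C ((pw X l).prod (pw X l))) * ((l : ℝ) + 2) ^ (b ^ 2)) :=
            mul_le_mul_of_nonneg_left h5 (by positivity)
        _ = _ := by ring
    obtain ⟨h3, h4⟩ := transfer S S X h1X hF0 hlev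
    rw [← hb] at h4
    have hln : ((l : ℝ) + 2) ^ (b ^ 2) ≤ ((n : ℝ) + 2) ^ (b ^ 2) := by
      apply pow_le_pow_left₀ (by positivity)
      have : (l : ℝ) ≤ n := by exact_mod_cast (show l ≤ n by omega)
      linarith
    have hb1 : (b : ℝ) ≤ 2 * ((b : ℝ) - 1) := by
      have : (2 : ℝ) ≤ b := by exact_mod_cast hb2
      linarith
    have hCn : (0 : ℝ) ≤ finrank W.K (S.C (pw X n)) := Nat.cast_nonneg _
    have key : (b : ℝ) ^ n * S.a (pw X n) ≤
        4 * b * ((n : ℝ) + 2) ^ (b ^ 2) * ((b : ℝ) - 1) ^ n * finrank W.K (S.C (pw X n)) := by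
      have hD : (0 : ℝ) < ((b : ℝ) - 1) ^ (2 * l) * ((l : ℝ) + 2) ^ (b ^ 2) := by positivity
      rcases hl with rfl | rfl
      · rw [hF, div_mul_eq_mul_div, div_le_iff₀ hD] at h3
        calc (b : ℝ) ^ (2 * l + 1) * S.a (pw X (2 * l + 1)) =
              b * ((b : ℝ) ^ (2 * l) * S.a (pw X (2 * l + 1))) := by ring
          _ ≤ b * (finrank W.K (S.C (pw X (2 * l + 1))) *
              (((b : ℝ) - 1) ^ (2 * l) * ((l : ℝ) + 2) ^ (b ^ 2))) :=
              mul_le_mul_of_nonneg_left h3 hb0.le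
          _ ≤ (2 * ((b : ℝ) - 1)) * (finrank W.K (S.C (pw X (2 * l + 1))) *
              (((b : ℝ) - 1) ^ (2 * l) * (((2 * l + 1 : ℕ) : ℝ) + 2) ^ (b ^ 2))) := by
              apply mul_le_mul hb1 _ (by positivity) (by positivity)
              apply mul_le_mul_of_nonneg_left _ hCn
              exact mul_le_mul_of_nonneg_left hln (by positivity)
          _ = 2 * ((((2 * l + 1 : ℕ) : ℝ) + 2) ^ (b ^ 2) * ((b : ℝ) - 1) ^ (2 * l + 1) *
              finrank W.K (S.C (pw X (2 * l + 1)))) := by ring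
          _ ≤ (4 * b) * ((((2 * l + 1 : ℕ) : ℝ) + 2) ^ (b ^ 2) * ((b : ℝ) - 1) ^ (2 * l + 1) *
              finrank W.K (S.C (pw X (2 * l + 1)))) := by
              apply mul_le_mul_of_nonneg_right _ (by positivity)
              have : (2 : ℝ) ≤ b := by exact_mod_cast hb2
              linarith
          _ = _ := by ring
      · rw [hF, div_mul_eq_mul_div, div_le_iff₀ hD] at h4
        calc (b : ℝ) ^ (2 * l + 2) * S.a (pw X (2 * l + 2)) =
              (b * b) * ((b : ℝ) ^ (2 * l) * S.a (pw X (2 * l + 2))) := by ring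
          _ ≤ (b * b) * (b * finrank W.K (S.C (pw X (2 * l + 2))) *
              (((b : ℝ) - 1) ^ (2 * l) * ((l : ℝ) + 2) ^ (b ^ 2))) :=
              mul_le_mul_of_nonneg_left h4 (by positivity)
          _ ≤ ((2 * ((b : ℝ) - 1)) * (2 * ((b : ℝ) - 1))) *
              (b * finrank W.K (S.C (pw X (2 * l + 2))) *
              (((b : ℝ) - 1) ^ (2 * l) * (((2 * l + 2 : ℕ) : ℝ) + 2) ^ (b ^ 2))) := by
              apply mul_le_mul (mul_le_mul hb1 hb1 hb0.le (by linarith)) _ (by positivity)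
                (by positivity)
              apply mul_le_mul_of_nonneg_left _ (by positivity)
              exact mul_le_mul_of_nonneg_left hln (by positivity)
          _ = _ := by ring
    rw [← hc] at key
    exact_mod_cast key

end Sy

end Pool.Agent.Helper14G
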