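import Mathlib

/-!
# A random walk on the half-line, and nilpotent operators of order two
-/

set_option linter.unusedSectionVars false

namespace Pool.Agent.Helper14G

open Module

/-- The comparison with a solution of the heat equation. -/
lemma walk {q : ℕ → ℕ → ℝ} {θ : ℝ} (hθ0 : 0 < θ) (hθ : 2 * θ ≤ 1) (h0 : ∀ n, q n 0 ≤ 0)
    (h1 : ∀ n s, q n s ≤ 1)
    (hr : ∀ n s, q (n + 1) (s + 1) ≤ (1 - 2 * θ) * q n (s + 1) + θ * (q n s + q n (s + 2)))
    {N L : ℕ} (hL : 1 ≤ L) (hN : (L : ℝ) ^ 2 ≤ 2 * θ * N) {s : ℕ} (hs : s ≤ L) :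
    q N s ≤ 2 * s / L := by
  have hL0 : (0 : ℝ) < L := by exact_mod_cast hL
  have hN0 : (0 : ℝ) < 2 * θ * N := lt_of_lt_of_le (by positivity) hN
  set γ : ℝ := 1 / (2 * θ * N) with hγ
  have hγ0 : 0 < γ := by positivity
  set α : ℝ := γ * L + 1 / L with hα
  have hγN : 2 * θ * γ * N = 1 := by
    have : 2 * θ * γ * N = (2 * θ * N) * γ := by ring
    rw [this, hγ, mul_one_div_cancel hN0.ne']
  have key : ∀ n ≤ N, ∀ s ≤ L, q n s ≤ α * s - γ * s ^ 2 + (1 - 2 * θ * γ * n) := by
    intro n
    induction n with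
    | zero =>
      intro _ s hs
      have hs' : (s : ℝ) ≤ L := by exact_mod_cast hs
      have hs0 : (0 : ℝ) ≤ s := Nat.cast_nonneg _
      have h2 : γ * (s : ℝ) ^ 2 ≤ α * s := by
        have h3 : γ * s ≤ α := by
          rw [hα]
          have : γ * (s : ℝ) ≤ γ * L := mul_le_mul_of_nonneg_left hs' hγ0.le
          have : (0 : ℝ) ≤ 1 / L := by positivity
          linarith
        nlinarith [mul_le_mul_of_nonneg_right h3 hs0]
      have h4 := h1 0 s
      push_cast
      linarith
    | succ n ih =>
      intro hn s hs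
      have hn1 : ((n : ℝ) + 1) ≤ N := by exact_mod_cast hn
      have hb : 2 * θ * γ * ((n : ℝ) + 1) ≤ 1 := by
        calc 2 * θ * γ * ((n : ℝ) + 1) ≤ 2 * θ * γ * N :=
              mul_le_mul_of_nonneg_left hn1 (by positivity)
          _ = 1 := hγN
      rcases s with _ | s
      · have := h0 (n + 1)
        push_cast
        nlinarith
      · rcases Nat.lt_or_ge (s + 1) L with h | h
        · have e1 := ih (by omega) (s + 1) (by omega)
          have e2 := ih (by omega) s (by omega)
          have e3 := ih (by omega) (s + 2) (by omega)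
          have e4 := hr n s
          push_cast at e1 e2 e3 ⊢
          have e5 := mul_le_mul_of_nonneg_left e1 (show (0 : ℝ) ≤ 1 - 2 * θ by linarith)
          have e6 := mul_le_mul_of_nonneg_left (add_le_add e2 e3) hθ0.le
          refine e4.trans ((add_le_add e5 e6).trans (le_of_eq ?_))
          ring
        · have h5 : s + 1 = L := le_antisymm hs h
          have h6 := h1 (n + 1) (s + 1)
          have h7 : ((s + 1 : ℕ) : ℝ) = L := by rw [h5]
          rw [h7]
          have h8 : α * L - γ * (L : ℝ) ^ 2 = 1 := by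
            rw [hα]
            field_simp
            ring
          push_cast
          linarith
  have h2 := key N le_rfl s hs
  rw [hγN, sub_self, add_zero] at h2
  have h3 : γ * L ≤ 1 / L := by
    rw [hγ, one_div_mul_eq_div, div_le_div_iff₀ hN0 hL0]
    nlinarith
  have hs0 : (0 : ℝ) ≤ s := Nat.cast_nonneg _
  calc q N s ≤ α * s - γ * s ^ 2 := h2
    _ ≤ α * s := by nlinarith [sq_nonneg (s : ℝ)]
    _ ≤ (2 / L) * s := by
        refine mul_le_mul_of_nonneg_right ?_ hs0
        rw [hα]
        have : (2 : ℝ) / L = 1 / L + 1 / L := by ring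
        linarith
    _ = 2 * s / L := by ring

section Jordan

variable {K V : Type*} [Field K] [AddCommGroup V] [Module K V] [FiniteDimensional K V]

/-- A basis adapted to an operator of square zero. -/
theorem exists_jordan (n : Module.End K V) (hn : n * n = 0) (hn0 : n ≠ 0) :
    ∃ (r t : ℕ) (e : Basis ((Fin r ⊕ Fin r) ⊕ Fin t) K V), 1 ≤ r ∧
      (∀ i, n (e (Sum.inl (Sum.inl i))) = e (Sum.inl (Sum.inr i))) ∧
      (∀ i, n (e (Sum.inl (Sum.inr i))) = 0) ∧ (∀ j, n (e (Sum.inr j)) = 0) := by
  obtain ⟨C, hC⟩ := Submodule.exists_isCompl (LinearMap.ker n)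
  have hle : LinearMap.range n ≤ LinearMap.ker n := by
    rintro _ ⟨x, rfl⟩
    exact congrArg (fun f : Module.End K V => f x) hn
  obtain ⟨G', hG'⟩ := Submodule.exists_isCompl ((LinearMap.range n).submoduleOf (LinearMap.ker n))
  set G := G'.map (LinearMap.ker n).subtype with hG
  have hGk : G ≤ LinearMap.ker n := Submodule.map_subtype_le _ _
  have hsup : ∀ x ∈ LinearMap.ker n, ∃ y ∈ LinearMap.range n, ∃ g ∈ G, x = y + g := by
    intro x hx
    have h1 : (⟨x, hx⟩ : LinearMap.ker n) ∈
        ((LinearMap.range n).submoduleOf (LinearMap.ker n)) ⊔ G' := by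
      rw [hG'.sup_eq_top]; trivial
    obtain ⟨y, hy, g, hg, h2⟩ := Submodule.mem_sup.1 h1
    exact ⟨y, hy, g, ⟨g, hg, rfl⟩, (congrArg Subtype.val h2).symm⟩
  set r := finrank K C with hr
  set t := finrank K G with ht
  let bC := Module.finBasis K C
  let bG := Module.finBasis K G
  let v : (Fin r ⊕ Fin r) ⊕ Fin t → V :=
    Sum.elim (Sum.elim (fun i => (bC i : V)) (fun i => n (bC i))) (fun j => (bG j : V))
  have hCs : C ≤ Submodule.span K (Set.range v) := by
    intro x hx
    have h1 := bC.sum_repr ⟨x, hx⟩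
    have h2 : x = ∑ i, bC.repr ⟨x, hx⟩ i • (bC i : V) := by
      have := congrArg Subtype.val h1
      rw [Submodule.coe_sum] at this
      exact this.symm
    rw [h2]
    refine Submodule.sum_mem _ fun i _ => Submodule.smul_mem _ _
      (Submodule.subset_span ⟨Sum.inl (Sum.inl i), rfl⟩)
  have hCn : ∀ x ∈ C, n x ∈ Submodule.span K (Set.range v) := by
    intro x hx
    have h1 := bC.sum_repr ⟨x, hx⟩
    have h2 : x = ∑ i, bC.repr ⟨x, hx⟩ i • (bC i : V) := by
      have := congrArg Subtype.val h1
      rw [Submodule.coe_sum] at this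
      exact this.symm
    rw [h2, map_sum]
    refine Submodule.sum_mem _ fun i _ => ?_
    rw [map_smul]
    exact Submodule.smul_mem _ _ (Submodule.subset_span ⟨Sum.inl (Sum.inr i), rfl⟩)
  have hGs : G ≤ Submodule.span K (Set.range v) := by
    intro x hx
    have h1 := bG.sum_repr ⟨x, hx⟩
    have h2 : x = ∑ i, bG.repr ⟨x, hx⟩ i • (bG i : V) := by
      have := congrArg Subtype.val h1
      rw [Submodule.coe_sum] at this
      exact this.symm
    rw [h2]
    refine Submodule.sum_mem _ fun i _ => Submodule.smul_mem _ _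
      (Submodule.subset_span ⟨Sum.inr i, rfl⟩)
  have hdec : ∀ x : V, ∃ k ∈ LinearMap.ker n, ∃ c ∈ C, x = k + c := by
    intro x
    have h1 : x ∈ LinearMap.ker n ⊔ C := by rw [hC.sup_eq_top]; trivial
    obtain ⟨y, hy, g, hg, h2⟩ := Submodule.mem_sup.1 h1
    exact ⟨y, hy, g, hg, h2.symm⟩
  have hRs : LinearMap.range n ≤ Submodule.span K (Set.range v) := by
    rintro _ ⟨x, rfl⟩
    obtain ⟨k, hk, c, hc, rfl⟩ := hdec x
    rw [map_add, LinearMap.mem_ker.1 hk, zero_add]
    exact hCn c hc
  have htop : ⊤ ≤ Submodule.span K (Set.range v) := by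
    intro x _
    obtain ⟨k, hk, c, hc, rfl⟩ := hdec x
    obtain ⟨y, hy, g, hg, rfl⟩ := hsup k hk
    exact Submodule.add_mem _ (Submodule.add_mem _ (hRs hy) (hGs hg)) (hCs hc)
  -- the dimensions
  have e1 : finrank K (LinearMap.ker n) + finrank K C = finrank K V :=
    Submodule.finrank_add_eq_of_isCompl hC
  have e2 : finrank K (LinearMap.range n) + finrank K (LinearMap.ker n) = finrank K V :=
    LinearMap.finrank_range_add_finrank_ker n
  have e3 : finrank K ((LinearMap.range n).submoduleOf (LinearMap.ker n)) + finrank K G' =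
      finrank K (LinearMap.ker n) := Submodule.finrank_add_eq_of_isCompl hG'
  have e4 : finrank K ((LinearMap.range n).submoduleOf (LinearMap.ker n)) =
      finrank K (LinearMap.range n) := (Submodule.submoduleOfEquivOfLe hle).finrank_eq
  have e5 : finrank K G = finrank K G' :=
    (Submodule.equivMapOfInjective _ (Submodule.subtype_injective _) G').finrank_eq.symm
  have hcard : Fintype.card ((Fin r ⊕ Fin r) ⊕ Fin t) = finrank K V := by
    rw [Fintype.card_sum, Fintype.card_sum, Fintype.card_fin, Fintype.card_fin]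
    omega
  let e := basisOfTopLeSpanOfCardEqFinrank v htop hcard
  have he : ∀ i, e i = v i := fun i => by
    simp [e]
  refine ⟨r, t, e, ?_, fun i => ?_, fun i => ?_, fun j => ?_⟩
  · by_contra h
    have h0 : finrank K (LinearMap.range n) = 0 := by omega
    rw [Submodule.finrank_eq_zero, LinearMap.range_eq_bot] at h0
    exact hn0 h0
  · rw [he, he]; rfl
  · rw [he]
    exact congrArg (fun f : Module.End K V => f (bC i)) hn
  · rw [he]
    exact LinearMap.mem_ker.1 (hGk (bG j).2)

end Jordan

end Pool.Agent.Helper14G
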