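import Pool.Agent.Helper14G.Zt
import Pool.Agent.Helper14G.Walk

/-!
# The ranks of the powers of the sum of the pull-backs of a class of square zero
-/

open CategoryTheory AlgebraicGeometry

universe u v

namespace Pool.Agent.Helper14G

open Module
open Pool.Agent.H914 Pool.Agent.H914.VarClass Pool.Agent.H914.VarClass.Obj
  Pool.Agent.H914.WeilCohomology
open Pool.Agent.Y133.Half
open scoped TensorProduct

variable {k : Type u} [Field k] {𝒱 : VarClass k} {ops : CycleOps 𝒱}
  {W : WeilCohomology.{u, v} ops} {P Q P' Q' Z X Y : 𝒱.Obj}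

/-- The coordinate of a class on a product with respect to a functional. -/
noncomputable def cf (φ : W.H Q →ₗ[W.K] W.K) : W.H (P.prod Q) →ₗ[W.K] W.H P :=
  (TensorProduct.rid W.K (W.H P)).toLinearMap ∘ₗ (LinearMap.lTensor (W.H P) φ) ∘ₗ
    (kappa W P Q).symm.toLinearMap

lemma cf_xp (φ : W.H Q →ₗ[W.K] W.K) (p : W.H P) (q : W.H Q) : cf φ (xp W p q) = φ q • p := by
  have h1 : (kappa W P Q).symm (xp W p q) = p ⊗ₜ q := by
    rw [LinearEquiv.symm_apply_eq]
    exact (kappa_tmul _ _).symm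
  change (TensorProduct.rid W.K (W.H P)) ((LinearMap.lTensor (W.H P) φ)
    ((kappa W P Q).symm (xp W p q))) = _
  rw [h1, LinearMap.lTensor_tmul, TensorProduct.rid_tmul]

lemma cf_sum {ι : Type*} [Fintype ι] (e : Basis ι W.K (W.H Q)) (x : W.H (P.prod Q)) :
    ∑ j, xp W (cf (e.coord j) x) (e j) = x := by
  have h1 : (∑ j, { toFun := fun x => xp W (cf (e.coord j) x) (e j)
                    map_add' := fun x y => by rw [map_add, xp_add_left]
                    map_smul' := fun c x => by rw [map_smul, xp_smul_left]; rfl } :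
      W.H (P.prod Q) →ₗ[W.K] W.H (P.prod Q)) = LinearMap.id := by
    apply xp_ext
    intro i j p _ q _
    rw [LinearMap.sum_apply, LinearMap.id_apply]
    have h2 : xp W p q = xp W p (∑ j, e.repr q j • e j) := by rw [e.sum_repr]
    conv_rhs => rw [h2, xp, map_sum, Finset.mul_sum]
    refine Finset.sum_congr rfl fun j _ => ?_
    change xp W (cf (e.coord j) (xp W p q)) (e j) = _
    rw [cf_xp, xp_smul_left, map_smul, mul_smul_comm]
    rfl
  have h2 := congrArg (fun f => f x) h1
  simp only [LinearMap.sum_apply] at h2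
  exact h2

variable {z : W.H Y}

/-- The coordinate of a class on a power with respect to a functional. -/
noncomputable def cp (N : ℕ) (φ : W.H Y →ₗ[W.K] W.K) :
    W.H (pw Y (N + 1)) →ₗ[W.K] W.H (pw Y N) := cf (P := pw Y N) φ

lemma cp_zero (N : ℕ) (x : W.H (pw Y (N + 1))) : cp N (0 : W.H Y →ₗ[W.K] W.K) x = 0 := by
  have h : cp N (0 : W.H Y →ₗ[W.K] W.K) = 0 := by
    change cf (P := pw Y N) (0 : W.H Y →ₗ[W.K] W.K) = 0
    rw [cf, LinearMap.lTensor_zero, LinearMap.zero_comp, LinearMap.comp_zero]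
  rw [h, LinearMap.zero_apply]

lemma cp_inj {ι : Type*} [Fintype ι] (e : Basis ι W.K (W.H Y)) {N : ℕ} {x : W.H (pw Y (N + 1))}
    (h : ∀ j, cp N (e.coord j) x = 0) : x = 0 := by
  have h5 : ∑ j, xp W (cf (P := pw Y N) (e.coord j) (x : W.H ((pw Y N).prod Y))) (e j) = x :=
    cf_sum (P := pw Y N) e x
  refine h5.symm.trans (Finset.sum_eq_zero fun j _ => ?_)
  have h6 : cf (P := pw Y N) (e.coord j) (x : W.H ((pw Y N).prod Y)) = 0 := h j
  rw [h6, xp, map_zero, zero_mul]

lemma xp_mul0 {p : W.H P} {i : ℕ} (hp : p ∈ PH W P i) {y : W.H Q} (hy : y ∈ PH W Q 0)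
    (x : W.H P) (q : W.H Q) : xp W x y * xp W p q = xp W (x * p) (y * q) := by
  have e1 := xp_mul x p y q hy hp
  rw [zero_mul, pow_zero, one_smul] at e1
  exact e1

lemma cp_mul (hz : z ∈ PH W Y 0) (hz2 : z * z = 0) (N s : ℕ) (φ : W.H Y →ₗ[W.K] W.K)
    (x : W.H (pw Y (N + 1))) :
    cp N φ (zt z (N + 1) ^ (s + 1) * x) =
      zt z N ^ (s + 1) * cp N φ x +
        (s + 1) • (zt z N ^ s * cp N (φ ∘ₗ LinearMap.mulLeft W.K z) x) := by
  let A : W.H ((pw Y N).prod Y) →ₗ[W.K] W.H (pw Y N) :=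
    cp N φ ∘ₗ LinearMap.mulLeft W.K (zt z (N + 1) ^ (s + 1) : W.H (pw Y (N + 1)))
  let B : W.H ((pw Y N).prod Y) →ₗ[W.K] W.H (pw Y N) :=
    LinearMap.mulLeft W.K (zt z N ^ (s + 1)) ∘ₗ cf (P := pw Y N) φ +
      (s + 1) • (LinearMap.mulLeft W.K (zt z N ^ s) ∘ₗ
        cf (P := pw Y N) (φ ∘ₗ LinearMap.mulLeft W.K z))
  have h : A = B := by
    apply xp_ext
    intro i j p hp q hq
    have e0 : (1 : W.H Y) ∈ PH W Y 0 := PH.of (W.one_mem Y)
    let c : W.H ((pw Y N).prod Y) := xp W (zt z N ^ (s + 1)) 1 + (s + 1) • xp W (zt z N ^ s) z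
    have hc : (zt z (N + 1) ^ (s + 1) : W.H (pw Y (N + 1))) = c := zt_pow_succ hz hz2 N s
    have h1 : c * xp W p q =
        xp W (zt z N ^ (s + 1) * p) q + (s + 1) • xp W (zt z N ^ s * p) (z * q) := by
      change (xp W (zt z N ^ (s + 1)) 1 + (s + 1) • xp W (zt z N ^ s) z) * xp W p q = _
      rw [add_mul, smul_mul_assoc, xp_mul0 hp e0, xp_mul0 hp hz, one_mul]
    have h2' : ∀ (c' : W.H (pw Y (N + 1))), c' = c → ∀ y : W.H (pw Y (N + 1)),
        cp N φ (c' * y) = cf (P := pw Y N) φ (c * (show W.H ((pw Y N).prod Y) from y)) := by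
      intro c' h y
      rw [h]
      rfl
    have h2 : A (xp W p q) = cf (P := pw Y N) φ (c * xp W p q) := h2' _ hc _
    have h3 : B (xp W p q) = zt z N ^ (s + 1) * cf φ (xp W p q) +
          (s + 1) • (zt z N ^ s * cf (φ ∘ₗ LinearMap.mulLeft W.K z) (xp W p q)) := rfl
    rw [h2, h1, h3, map_add, map_nsmul, cf_xp, cf_xp, cf_xp, cf_xp, mul_smul_comm, mul_smul_comm]
    rfl
  exact congrArg (fun f => f x) h

/-- The kernel of the multiplication by a power. -/
noncomputable def kr (z : W.H Y) (N s : ℕ) : Submodule W.K (W.H (pw Y N)) :=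
  LinearMap.ker (LinearMap.mulLeft W.K (zt z N ^ s))

lemma mem_kr {N s : ℕ} {x : W.H (pw Y N)} : x ∈ kr z N s ↔ zt z N ^ s * x = 0 := Iff.rfl

theorem kr_succ (hz : z ∈ PH W Y 0) (hz2 : z * z = 0) {r t : ℕ}
    (e : Basis ((Fin r ⊕ Fin r) ⊕ Fin t) W.K (W.H Y))
    (h1 : ∀ i, z * (e (Sum.inl (Sum.inl i))) = e (Sum.inl (Sum.inr i)))
    (h2 : ∀ i, z * (e (Sum.inl (Sum.inr i))) = 0) (h3 : ∀ j, z * (e (Sum.inr j)) = 0)
    (N s : ℕ) : finrank W.K (kr z (N + 1) (s + 1)) ≤
      r * (finrank W.K (kr z N s) + finrank W.K (kr z N (s + 2))) +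
        t * finrank W.K (kr z N (s + 1)) := by
  classical
  -- the coordinates
  have f1 : ∀ i, (e.coord (Sum.inl (Sum.inl i))) ∘ₗ LinearMap.mulLeft W.K z = 0 := by
    intro i
    apply e.ext
    rintro ((j | j) | j)
    · rw [LinearMap.comp_apply, LinearMap.mulLeft_apply, h1, LinearMap.zero_apply,
        Basis.coord_apply, Basis.repr_self, Finsupp.single_eq_of_ne (by simp)]
    · rw [LinearMap.comp_apply, LinearMap.mulLeft_apply, h2, map_zero, LinearMap.zero_apply]
    · rw [LinearMap.comp_apply, LinearMap.mulLeft_apply, h3, map_zero, LinearMap.zero_apply]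
  have f3 : ∀ i, (e.coord (Sum.inr i)) ∘ₗ LinearMap.mulLeft W.K z = 0 := by
    intro i
    apply e.ext
    rintro ((j | j) | j)
    · rw [LinearMap.comp_apply, LinearMap.mulLeft_apply, h1, LinearMap.zero_apply,
        Basis.coord_apply, Basis.repr_self, Finsupp.single_eq_of_ne (by simp)]
    · rw [LinearMap.comp_apply, LinearMap.mulLeft_apply, h2, map_zero, LinearMap.zero_apply]
    · rw [LinearMap.comp_apply, LinearMap.mulLeft_apply, h3, map_zero, LinearMap.zero_apply]
  have f2 : ∀ i, (e.coord (Sum.inl (Sum.inr i))) ∘ₗ LinearMap.mulLeft W.K z =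
      e.coord (Sum.inl (Sum.inl i)) := by
    intro i
    apply e.ext
    rintro ((j | j) | j)
    · rw [LinearMap.comp_apply, LinearMap.mulLeft_apply, h1,
        Basis.coord_apply, Basis.repr_self, Basis.coord_apply, Basis.repr_self]
      by_cases hij : j = i
      · rw [hij, Finsupp.single_eq_same, Finsupp.single_eq_same]
      · rw [Finsupp.single_eq_of_ne (by simpa using Ne.symm hij),
          Finsupp.single_eq_of_ne (by simpa using Ne.symm hij)]
    · rw [LinearMap.comp_apply, LinearMap.mulLeft_apply, h2, map_zero,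
        Basis.coord_apply, Basis.repr_self, Finsupp.single_eq_of_ne (by simp)]
    · rw [LinearMap.comp_apply, LinearMap.mulLeft_apply, h3, map_zero,
        Basis.coord_apply, Basis.repr_self, Finsupp.single_eq_of_ne (by simp)]
  set c1 : W.K := ((s + 1 : ℕ) : W.K) with hc1
  have hc10 : c1 ≠ 0 := by
    rw [hc1]
    exact_mod_cast Nat.succ_ne_zero s
  have g1 : ∀ x ∈ kr z (N + 1) (s + 1), ∀ i,
      zt z N ^ (s + 1) * cp N (e.coord (Sum.inl (Sum.inl i))) x = 0 := by
    intro x hx i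
    have := cp_mul hz hz2 N s (e.coord (Sum.inl (Sum.inl i))) x
    rw [mem_kr.1 hx, f1, map_zero] at this
    rw [cp_zero, mul_zero, smul_zero, add_zero] at this
    exact this.symm
  have g3 : ∀ x ∈ kr z (N + 1) (s + 1), ∀ i,
      zt z N ^ (s + 1) * cp N (e.coord (Sum.inr i)) x = 0 := by
    intro x hx i
    have := cp_mul hz hz2 N s (e.coord (Sum.inr i)) x
    rw [mem_kr.1 hx, f3, map_zero] at this
    rw [cp_zero, mul_zero, smul_zero, add_zero] at this
    exact this.symm
  have g2 : ∀ x ∈ kr z (N + 1) (s + 1), ∀ i,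
      zt z N ^ (s + 1) * cp N (e.coord (Sum.inl (Sum.inr i))) x +
        c1 • (zt z N ^ s * cp N (e.coord (Sum.inl (Sum.inl i))) x) = 0 := by
    intro x hx i
    have := cp_mul hz hz2 N s (e.coord (Sum.inl (Sum.inr i))) x
    rw [mem_kr.1 hx, f2, map_zero] at this
    rw [hc1, Nat.cast_smul_eq_nsmul]
    exact this.symm
  let Λ : kr z (N + 1) (s + 1) →ₗ[W.K]
      ((Fin r → kr z N s) × (Fin r → kr z N (s + 2))) × (Fin t → kr z N (s + 1)) :=
    { toFun := fun x =>
        ((fun i => ⟨cp N (e.coord (Sum.inl (Sum.inl i))) x +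
            c1⁻¹ • (zt z N * cp N (e.coord (Sum.inl (Sum.inr i))) x), by
            rw [mem_kr, mul_add, mul_smul_comm, ← mul_assoc, ← pow_succ]
            have h4 := congrArg (fun y => c1⁻¹ • y) (g2 x x.2 i)
            simp only [smul_add, smul_zero, smul_smul, inv_mul_cancel₀ hc10, one_smul] at h4
            rw [add_comm]
            exact h4⟩,
          fun i => ⟨cp N (e.coord (Sum.inl (Sum.inr i))) x, by
            rw [mem_kr]
            have h4 := congrArg (fun y => zt z N * y) (g2 x x.2 i)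
            simp only [mul_add, mul_zero, mul_smul_comm, ← mul_assoc, ← pow_succ'] at h4
            rw [g1 x x.2 i, smul_zero, add_zero] at h4
            exact h4⟩),
          fun i => ⟨cp N (e.coord (Sum.inr i)) x, g3 x x.2 i⟩)
      map_add' := fun x y => by
        refine Prod.ext (Prod.ext ?_ ?_) ?_
        · funext i
          apply Subtype.ext
          simp only [Submodule.coe_add, map_add, mul_add, smul_add, Prod.fst_add, Pi.add_apply]
          abel
        · funext i
          apply Subtype.ext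
          simp only [Submodule.coe_add, map_add, Prod.fst_add, Prod.snd_add, Pi.add_apply]
        · funext i
          apply Subtype.ext
          simp only [Submodule.coe_add, map_add, Prod.snd_add, Pi.add_apply]
      map_smul' := fun c x => by
        refine Prod.ext (Prod.ext ?_ ?_) ?_
        · funext i
          apply Subtype.ext
          simp only [Submodule.coe_smul, map_smul, mul_smul_comm, Prod.smul_fst, Pi.smul_apply,
            RingHom.id_apply, smul_add, smul_comm c c1⁻¹]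
        · funext i
          apply Subtype.ext
          simp only [Submodule.coe_smul, map_smul, Prod.smul_fst, Prod.smul_snd, Pi.smul_apply,
            RingHom.id_apply]
        · funext i
          apply Subtype.ext
          simp only [Submodule.coe_smul, map_smul, Prod.smul_snd, Pi.smul_apply,
            RingHom.id_apply] }
  have hΛ : Function.Injective Λ := by
    rw [← LinearMap.ker_eq_bot, LinearMap.ker_eq_bot']
    intro x hx
    have k1 : ∀ i, cp N (e.coord (Sum.inl (Sum.inr i))) (x : W.H (pw Y (N + 1))) = 0 :=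
      fun i => congrArg (fun y => ((y.1.2 i : kr z N (s + 2)) : W.H (pw Y N))) hx
    have k2 : ∀ i, cp N (e.coord (Sum.inl (Sum.inl i))) (x : W.H (pw Y (N + 1))) = 0 := by
      intro i
      have h4 : cp N (e.coord (Sum.inl (Sum.inl i))) (x : W.H (pw Y (N + 1))) +
            c1⁻¹ • (zt z N * cp N (e.coord (Sum.inl (Sum.inr i)))
              (x : W.H (pw Y (N + 1)))) = 0 :=
        congrArg (fun y => ((y.1.1 i : kr z N s) : W.H (pw Y N))) hx
      rw [k1, mul_zero, smul_zero, add_zero] at h4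
      exact h4
    have k3 : ∀ i, cp N (e.coord (Sum.inr i)) (x : W.H (pw Y (N + 1))) = 0 :=
      fun i => congrArg (fun y => ((y.2 i : kr z N (s + 1)) : W.H (pw Y N))) hx
    apply Subtype.ext
    rw [Submodule.coe_zero]
    apply cp_inj e
    rintro ((i | i) | i)
    · exact k2 i
    · exact k1 i
    · exact k3 i
  have h4 := LinearMap.finrank_le_finrank_of_injective hΛ
  rw [Module.finrank_prod, Module.finrank_prod, Module.finrank_pi_fintype,
    Module.finrank_pi_fintype, Module.finrank_pi_fintype] at h4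
  simp only [Finset.sum_const, Finset.card_univ, Fintype.card_fin, smul_eq_mul] at h4
  rw [mul_add]
  exact h4

lemma mulLeft_jordan (hz2 : z * z = 0) (hz0 : z ≠ 0) :
    ∃ (r t : ℕ) (e : Basis ((Fin r ⊕ Fin r) ⊕ Fin t) W.K (W.H Y)), 1 ≤ r ∧
      (∀ i, z * (e (Sum.inl (Sum.inl i))) = e (Sum.inl (Sum.inr i))) ∧
      (∀ i, z * (e (Sum.inl (Sum.inr i))) = 0) ∧ (∀ j, z * (e (Sum.inr j)) = 0) := by
  refine exists_jordan (LinearMap.mulLeft W.K z) ?_ ?_
  · apply LinearMap.ext
    intro x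
    change z * (z * x) = 0
    rw [← mul_assoc, hz2, zero_mul]
  · intro h
    have h1 := congrArg (fun f : Module.End W.K (W.H Y) => f 1) h
    have h2 : z * 1 = 0 := h1
    rw [mul_one] at h2
    exact hz0 h2

/-- **The kernels of the powers are small.** -/
theorem kr_le (hz : z ∈ PH W Y 0) (hz2 : z * z = 0) (hz0 : z ≠ 0) {N L s : ℕ} (hL : 1 ≤ L)
    (hN : finrank W.K (W.H Y) * L ^ 2 ≤ 2 * N) (hs : s ≤ L) :
    (finrank W.K (kr z N s) : ℝ) ≤ 2 * s / L * (finrank W.K (W.H Y) : ℝ) ^ (N + 1) := by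
  obtain ⟨r, t, e, hr, h1, h2, h3⟩ := mulLeft_jordan hz2 hz0
  set u := finrank W.K (W.H Y) with hu
  have hcard : r + r + t = u := by
    rw [hu, Module.finrank_eq_card_basis e]
    simp
  have hu1 : 1 ≤ u := by omega
  have hu0 : (0 : ℝ) < u := by exact_mod_cast hu1
  have hr1 : (1 : ℝ) ≤ r := by exact_mod_cast hr
  let q : ℕ → ℕ → ℝ := fun n s => (finrank W.K (kr z n s) : ℝ) / (u : ℝ) ^ (n + 1)
  have hθ0 : (0 : ℝ) < r / u := div_pos (by linarith) hu0
  have hθ : 2 * ((r : ℝ) / u) ≤ 1 := by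
    rw [← mul_div_assoc, div_le_one hu0]
    have : 2 * r ≤ u := by omega
    exact_mod_cast this
  have hq0 : ∀ n, q n 0 ≤ 0 := by
    intro n
    have h4 : kr z n 0 = ⊥ := by
      rw [eq_bot_iff]
      intro x hx
      rw [mem_kr, pow_zero, one_mul] at hx
      exact (Submodule.mem_bot _).2 hx
    change (finrank W.K (kr z n 0) : ℝ) / (u : ℝ) ^ (n + 1) ≤ 0
    rw [h4, finrank_bot, Nat.cast_zero, zero_div]
  have hq1 : ∀ n s, q n s ≤ 1 := by
    intro n s
    change (finrank W.K (kr z n s) : ℝ) / (u : ℝ) ^ (n + 1) ≤ 1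
    rw [div_le_one (by positivity)]
    have h4 := Submodule.finrank_le (kr z n s)
    rw [finrank_pw, ← hu] at h4
    exact_mod_cast h4
  have hqr : ∀ n s, q (n + 1) (s + 1) ≤ (1 - 2 * ((r : ℝ) / u)) * q n (s + 1) +
      (r / u) * (q n s + q n (s + 2)) := by
    intro n s
    have h4 := kr_succ hz hz2 e h1 h2 h3 n s
    have h5 : (finrank W.K (kr z (n + 1) (s + 1)) : ℝ) ≤
      r * (finrank W.K (kr z n s) + finrank W.K (kr z n (s + 2))) +
        t * finrank W.K (kr z n (s + 1)) := by exact_mod_cast h4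
    have h6 : (1 - 2 * ((r : ℝ) / u)) = t / u := by
      rw [eq_div_iff hu0.ne', sub_mul, one_mul, mul_assoc, div_mul_cancel₀ _ hu0.ne']
      have : (r : ℝ) + r + t = u := by exact_mod_cast hcard
      linarith
    rw [h6]
    change (finrank W.K (kr z (n + 1) (s + 1)) : ℝ) / (u : ℝ) ^ (n + 1 + 1) ≤
      t / u * ((finrank W.K (kr z n (s + 1)) : ℝ) / (u : ℝ) ^ (n + 1)) + r / u *
        ((finrank W.K (kr z n s) : ℝ) / (u : ℝ) ^ (n + 1) +
          (finrank W.K (kr z n (s + 2)) : ℝ) / (u : ℝ) ^ (n + 1))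
    rw [div_le_iff₀ (by positivity)]
    refine h5.trans (le_of_eq ?_)
    rw [pow_succ (u : ℝ) (n + 1)]
    field_simp
    ring
  have hN' : (L : ℝ) ^ 2 ≤ 2 * ((r : ℝ) / u) * N := by
    have h4 : (u : ℝ) * (L : ℝ) ^ 2 ≤ 2 * N := by exact_mod_cast hN
    have h5 : 2 * ((r : ℝ) / u) * N = (r * (2 * N)) / u := by ring
    rw [h5, le_div_iff₀ hu0]
    have h6 : (2 * (N : ℝ)) ≤ r * (2 * N) := le_mul_of_one_le_left (by positivity) hr1
    linarith
  have h7 := walk (q := q) hθ0 hθ hq0 hq1 hqr hL hN' hs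
  have h8 : (finrank W.K (kr z N s) : ℝ) / (u : ℝ) ^ (N + 1) ≤ 2 * s / L := h7
  rw [div_le_iff₀ (by positivity)] at h8
  exact h8

/-- **The ranks of the powers are large.** -/
theorem rank_zt_pow (hz : z ∈ PH W Y 0) (hz2 : z * z = 0) (hz0 : z ≠ 0) {N s : ℕ} (hs : 1 ≤ s)
    (hN : finrank W.K (W.H Y) * (4 * s) ^ 2 ≤ 2 * N) :
    (finrank W.K (W.H Y) : ℝ) ^ (N + 1) ≤
      2 * finrank W.K (LinearMap.range (LinearMap.mulLeft W.K (zt z N ^ s))) := by
  have h1 := kr_le hz hz2 hz0 (show 1 ≤ 4 * s by omega) hN (show s ≤ 4 * s by omega)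
  have h2 := LinearMap.finrank_range_add_finrank_ker (LinearMap.mulLeft W.K (zt z N ^ s))
  have h3 : finrank W.K (W.H (pw Y N)) = finrank W.K (W.H Y) ^ (N + 1) := finrank_pw _ _
  rw [h3] at h2
  have h4 : (finrank W.K (LinearMap.range (LinearMap.mulLeft W.K (zt z N ^ s))) : ℝ) +
      finrank W.K (kr z N s) = (finrank W.K (W.H Y) : ℝ) ^ (N + 1) := by exact_mod_cast h2
  have hs0 : (0 : ℝ) < s := by exact_mod_cast hs
  have h5 : 2 * (s : ℝ) / ((4 * s : ℕ) : ℝ) = 1 / 2 := by
    push_cast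
    field_simp
    norm_num
  rw [h5] at h1
  linarith

end Pool.Agent.Helper14G
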