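import Pool.Agent.Helper14G.Step

/-!
# Idempotents and numerically trivial operators
-/

open CategoryTheory AlgebraicGeometry

universe u v

namespace Pool.Agent.Helper14G

open Module
open Pool.Agent.H914 Pool.Agent.H914.VarClass Pool.Agent.H914.VarClass.Obj
  Pool.Agent.H914.WeilCohomology
open Pool.Agent.Y133.Half

variable {k : Type u} [Field k] {𝒱 : VarClass k} {ops : CycleOps 𝒱}
  {W : WeilCohomology.{u, v} ops} {P Q Z X Y : 𝒱.Obj}

/-- The rank of an operator. -/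
noncomputable abbrev rg (g : Module.End W.K (W.H P)) : ℕ := finrank W.K (LinearMap.range g)

/-- The difference of two idempotents, one below the other. -/
lemma sub_idem {g e : Module.End W.K (W.H P)} (hg : g ∘ₗ g = g) (he : e ∘ₗ e = e)
    (heg : e ∘ₗ g = g) (hge : g ∘ₗ e = g) :
    (e - g) ∘ₗ (e - g) = e - g ∧ rg (e - g) + rg g = rg e := by
  have h0 : g * g = g := hg
  have h1 : e * e = e := he
  have h2 : e * g = g := heg
  have h3 : g * e = g := hge
  have hG' : (e - g) ∘ₗ (e - g) = e - g := by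
    change (e - g) * (e - g) = e - g
    rw [mul_sub, sub_mul, sub_mul, h0, h1, h2, h3]
    simp
  refine ⟨hG', ?_⟩
  have e1 := Pool.Agent.Y133.Half.trace_idem hG'
  have e2 := Pool.Agent.Y133.Half.trace_idem (K := W.K) (f := g) hg
  have e4 := Pool.Agent.Y133.Half.trace_idem (K := W.K) (f := e) he
  rw [map_sub, e2, e4] at e1
  have e3 : ((rg (e - g) + rg g : ℕ) : W.K) = ((rg e : ℕ) : W.K) := by
    rw [Nat.cast_add]
    have : (rg (e - g) : W.K) = (rg e : W.K) - (rg g : W.K) := e1.symm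
    rw [this]
    ring
  exact_mod_cast e3

namespace Sy

variable (S : Sys W)

/-- The rank of the part below an idempotent. -/
lemma r_sub {g e : Module.End W.K (W.H P)} (hgm : g ∈ S.Op P P) (hem : e ∈ S.Op P P)
    (hg : g ∘ₗ g = g) (he : e ∘ₗ e = e) (heg : e ∘ₗ g = g) (hge : g ∘ₗ e = g) (Y : 𝒱.Obj) :
    S.r P e (Y.prod Y) + rg g * S.a (Y.prod Y) ≤
      S.r P g (Y.prod Y) + rg e * S.a (Y.prod Y) := by
  obtain ⟨h1, h2⟩ := sub_idem hg he heg hge
  have h3 := S.r_add_le (Z := Y.prod Y) g (e - g)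
  rw [add_sub_cancel] at h3
  have h4 : S.r P (e - g) (Y.prod Y) ≤ rg (e - g) * S.a (Y.prod Y) :=
    S.r_le_rank (Submodule.sub_mem _ hem hgm) h1 Y
  rw [← h2, add_mul]
  omega

/-- **Chains of stable subspaces**, seen by an idempotent. -/
theorem key_chain {T : Sys W} (hST : ∀ X, S.C X ≤ T.C X) (P Z : 𝒱.Obj)
    (M : ℕ → Submodule W.K (W.H P)) (hM : ∀ n, ∀ a ∈ S.Op P P, ∀ m ∈ M n, a m ∈ M n) (l : ℕ)
    (hle : ∀ n < l, M n ≤ M (n + 1)) {e : Module.End W.K (W.H P)} (he : e ∈ S.Op P P)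
    (hee : e ∘ₗ e = e) (hlt : ∀ n < l, ∃ m ∈ M (n + 1), e m ∉ M n) (hT : M l ≤ T.C P) :
    ∃ g : ℕ → Module.End W.K (W.H P),
      (∀ n < l, g n ∈ S.Op P P ∧ g n ∘ₗ g n = g n ∧ g n ≠ 0 ∧ e ∘ₗ g n = g n ∧
        g n ∘ₗ e = g n) ∧
      ∑ n ∈ Finset.range l, S.r P (g n) Z ≤ finrank W.K (T.C Z) := by
  let X : Fin 2 → 𝒱.Obj := ![P, Z]
  obtain ⟨g, hg, hs⟩ := Ct.chain (S.cat X) 0 M hM l hle (e := e) he hee hlt 1
  refine ⟨g, hg, ?_⟩
  have h1 : ∑ n ∈ Finset.range l, S.r P (g n) Z = ∑ n ∈ Finset.range l,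
      rk (A := (S.cat X).S 0 1) (B := (S.cat X).S 1 0) ((S.cat X).B 0 1 (g n) LinearMap.id) := by
    refine Finset.sum_congr rfl fun n hn => ?_
    exact (S.rk_BO_r (P := P) (Z := Z) (g := g n)
      (Sys.Op.ev (S := S) (hg n (Finset.mem_range.1 hn)).1)).symm
  rw [h1]
  have h3 : (S.cat X).gen 0 1 (M l) ≤ (T.C Z : Submodule W.K (W.H Z)) := by
    refine Submodule.span_le.2 ?_
    rintro _ ⟨v, hv, m, hm, rfl⟩
    exact Sys.Op.apply (S := S) (X := P) (Y := Z) hST (T := T) hv (hT hm)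
  refine hs.trans ?_
  exact Submodule.finrank_mono (R := W.K) (M := W.H Z) h3

/-- A non-nilpotent numerically trivial operator below `e` yields an idempotent below `e`. -/
lemma exists_idem {e x : Module.End W.K (W.H P)} (hx : x ∈ S.NOp P P) (hex : e ∘ₗ x = x)
    (hxe : x ∘ₗ e = x) (hn : ¬ IsNilpotent x) (Z : 𝒱.Obj) :
    ∃ g ∈ S.Op P P, g ∘ₗ g = g ∧ g ≠ 0 ∧ e ∘ₗ g = g ∧ g ∘ₗ e = g ∧ S.r P g Z = 0 := by
  let X : Fin 2 → 𝒱.Obj := ![P, Z]
  obtain ⟨g, hg, hgg, h0, heg, hge, hB⟩ := Ct.exists_idem (S.cat X) (i := 0) (e := e) (x := x)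
    (Sys.NOp.op hx) hex hxe (fun y hy => Sys.NOp.trace hx hy) hn
  refine ⟨g, hg, hgg, h0, heg, hge, ?_⟩
  have h2 := S.rk_BO_r (P := P) (Z := Z) (g := g) (Sys.Op.ev (S := S) hg)
  have h1 : S.BO P Z g LinearMap.id = 0 := hB 1
  rw [h1, rk] at h2
  refine Eq.trans h2.symm ?_
  simp

/-- If the defect of `e` is less than the rank for the unit, the numerically trivial operators
below `e` are nilpotent. -/
lemma nilpotent {e x : Module.End W.K (W.H P)} (he : e ∈ S.Op P P) (hee : e ∘ₗ e = e)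
    {Y : 𝒱.Obj} (hD : rg e * S.a (Y.prod Y) < S.r P e (Y.prod Y) + S.a (Y.prod Y))
    (hx : x ∈ S.NOp P P) (hex : e ∘ₗ x = x) (hxe : x ∘ₗ e = x) : IsNilpotent x := by
  by_contra hn
  obtain ⟨g, hg, hgg, h0, heg, hge, hr⟩ := exists_idem S hx hex hxe hn (Y.prod Y)
  have h1 := r_sub S hg he hgg hee heg hge Y
  have h2 : 1 ≤ rg g := Sys.finrank_range_pos h0
  have h3 : S.a (Y.prod Y) ≤ rg g * S.a (Y.prod Y) := Nat.le_mul_of_pos_left _ h2
  rw [hr] at h1
  omega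

/-- Multiplication by a class as an operator. -/
lemma mulLeft_op {c : W.H P} (hc : c ∈ S.C P) :
    LinearMap.mulLeft W.K c ∈ S.Op P P := by
  have h : W.corr (W.push (diag P) c) = LinearMap.mulLeft W.K c := by
    apply LinearMap.ext
    intro a
    rw [W.corr_diag]
    rfl
  rw [← h]
  exact Sys.Op.corr (S.push _ hc)

lemma mulLeft_nop {c : W.H P} (hc : c ∈ S.Num P) :
    LinearMap.mulLeft W.K c ∈ S.NOp P P := by
  have h : W.corr (W.push (diag P) c) = LinearMap.mulLeft W.K c := by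
    apply LinearMap.ext
    intro a
    rw [W.corr_diag]
    rfl
  rw [← h]
  exact Sys.NOp.corr (Sys.Num.push _ hc)

lemma pow_mem {c : W.H P} (hc : c ∈ S.C P) (m : ℕ) : c ^ m ∈ S.C P := by
  induction m with
  | zero => rw [pow_zero]; exact S.one P
  | succ m ih => rw [pow_succ]; exact S.mul ih hc

end Sy

end Pool.Agent.Helper14G
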