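import Pool.Agent.Y133.Half.Gr0
import Pool.Agent.Y133.Half.Main2

/-!
# Idempotents in the algebra spanned by the permutations
-/

set_option linter.unusedSectionVars false

namespace Pool.Agent.Helper14G

open Module Pool.Agent.Y133.Half

variable {K M : Type*} [Field K] [CharZero K] [AddCommGroup M] [Module K M]
  [FiniteDimensional K M] {N : ℕ} (ρ : Equiv.Perm (Fin N) →* Module.End K M)

variable {ρ}

lemma exists_reg {a : Module.End K M} (ha : a ∈ repAlg ρ) :
    ∃ x ∈ repAlg ρ, (x * a) * (x * a) = x * a ∧ a * (x * a) = a := by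
  obtain ⟨f, hf, hI⟩ := IsSemisimpleRing.ideal_eq_span_idempotent
    (Ideal.span {(⟨a, ha⟩ : repAlg ρ)})
  have h1 : f ∈ Ideal.span {(⟨a, ha⟩ : repAlg ρ)} := by
    rw [hI]; exact Ideal.mem_span_singleton_self f
  have h2 : (⟨a, ha⟩ : repAlg ρ) ∈ Ideal.span {f} := by
    rw [← hI]; exact Ideal.mem_span_singleton_self _
  obtain ⟨x, hx⟩ := Ideal.mem_span_singleton'.1 h1
  obtain ⟨y, hy⟩ := Ideal.mem_span_singleton'.1 h2
  have hff : f * f = f := hf
  have h3 : (x : Module.End K M) * a = f := congrArg Subtype.val hx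
  have h4 : (f : Module.End K M) * f = f := congrArg Subtype.val hff
  have h5 : (y : Module.End K M) * f = a := congrArg Subtype.val hy
  refine ⟨x, x.2, ?_, ?_⟩
  · rw [h3, h4]
  · rw [h3]
    conv_lhs => rw [← h5]
    rw [mul_assoc, h4, h5]

omit [CharZero K] in
lemma range_pos {g : Module.End K M} (hg : g ≠ 0) : 0 < finrank K (LinearMap.range g) := by
  rw [Nat.pos_iff_ne_zero]
  intro h
  apply hg
  rw [← LinearMap.range_eq_bot]
  exact Submodule.finrank_eq_zero.1 h

end Pool.Agent.Helper14G
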