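import Pool.Agent.Helper14G.Avoid
import Pool.Agent.Helper14G.Prim
import Pool.Agent.Helper14G.Lower

/-!
# The quotient by an ideal of the algebras spanned by the permutations

A nonzero operator in the algebra spanned by the permutations of the factors of a power generates
a tensor ideal whose quotient grows at most like `(b - 1) ^ N`: by taking the leading words, the
quotient is spanned by the words which do not contain a given word as a scattered subword.
-/

open CategoryTheory AlgebraicGeometry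

universe u v

namespace Pool.Agent.Helper14G

open Module
open Pool.Agent.H914 Pool.Agent.H914.VarClass Pool.Agent.H914.VarClass.Obj
  Pool.Agent.H914.WeilCohomology
open Pool.Agent.Y133.Half

/-- The quotient is spanned by the words which avoid the leading word. -/
theorem quot_le {K M ι : Type*} [Field K] [AddCommGroup M] [Module K M] [FiniteDimensional K M]
    [Fintype ι] [LinearOrder ι] {N n : ℕ} (e : Basis (Fin N → ι) K M) (J : Fin n → ι)
    (U : Submodule K M)
    (h : ∀ (L : Fin N → ι) (p : Fin n ↪o Fin N), (∀ i, L (p i) = J i) →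
      e L ∈ U ⊔ Submodule.span K (e '' {L' | toLex L' < toLex L})) :
    finrank K M ≤ finrank K U + (av (List.ofFn J) N).card := by
  classical
  set V : Submodule K M := Submodule.span K (e '' (av (List.ofFn J) N : Set (Fin N → ι))) with hV
  have key : ∀ x : Lex (Fin N → ι), e (ofLex x) ∈ U ⊔ V := by
    intro x
    induction x using WellFoundedLT.induction with
    | _ x ih =>
      by_cases hx : ofLex x ∈ av (List.ofFn J) N
      · exact Submodule.mem_sup_right (Submodule.subset_span ⟨_, hx, rfl⟩)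
      · obtain ⟨p, hp⟩ := exists_emb hx
        have h1 := h (ofLex x) p hp
        refine (sup_le le_sup_left ?_ : U ⊔ Submodule.span K _ ≤ U ⊔ V) h1
        rw [Submodule.span_le]
        rintro _ ⟨L', hL', rfl⟩
        exact ih (toLex L') hL'
  have htop : (⊤ : Submodule K M) ≤ U ⊔ V := by
    rw [← e.span_eq, Submodule.span_le]
    rintro _ ⟨L, rfl⟩
    exact key (toLex L)
  have h1 : finrank K V ≤ (av (List.ofFn J) N).card := by
    rw [hV, ← Finset.coe_image]
    exact (finrank_span_finset_le_card _).trans Finset.card_image_le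
  calc finrank K M = finrank K (⊤ : Submodule K M) := (_root_.finrank_top K M).symm
    _ ≤ finrank K (U ⊔ V : Submodule K M) := Submodule.finrank_mono htop
    _ ≤ finrank K U + finrank K V := Submodule.finrank_add_le_finrank_add_finrank _ _
    _ ≤ _ := Nat.add_le_add_left h1 _

/-- Replace the first letters of the word `w` by `J`. -/
def rep {ι : Type*} {m N : ℕ} (J : Fin (m + 1) → ι) (w : Fin N → ι) : Fin N → ι :=
  fun i => if h : i.val < m + 1 then J ⟨i, h⟩ else w i

lemma rep_castSucc {ι : Type*} {m N : ℕ} (J : Fin (m + 1) → ι) (w : Fin (N + 1) → ι) :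
    (fun i : Fin N => rep J w i.castSucc) = rep J fun i => w i.castSucc := by
  funext i
  rfl

/-- A permutation with prescribed values on the first letters. -/
lemma exists_perm_ext {m N : ℕ} (hN : m + 1 ≤ N) (p : Fin (m + 1) ↪o Fin N) :
    ∃ σ : Equiv.Perm (Fin N), ∀ i : Fin (m + 1), σ (Fin.castLE hN i) = p i := by
  classical
  have h1 : Function.Injective (Fin.castLE hN) := Fin.castLE_injective hN
  let E : {x // x ∈ Set.range (Fin.castLE hN)} ≃ {x // x ∈ Set.range p} :=
    (Equiv.ofInjective _ h1).symm.trans (Equiv.ofInjective _ p.injective)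
  refine ⟨E.extendSubtype, fun i => ?_⟩
  rw [Equiv.extendSubtype_apply_of_mem E _ ⟨i, rfl⟩]
  have h2 : (Equiv.ofInjective _ h1).symm ⟨Fin.castLE hN i, ⟨i, rfl⟩⟩ = i := by
    rw [Equiv.symm_apply_eq]
    rfl
  change ((Equiv.ofInjective _ p.injective) ((Equiv.ofInjective _ h1).symm _) : Fin N) = p i
  rw [h2]
  rfl

/-- Replacing a scattered subword by a smaller one makes a word smaller. -/
lemma lex_lt {ι : Type*} [LinearOrder ι] {m N : ℕ} (hN : m + 1 ≤ N) (p : Fin (m + 1) ↪o Fin N)
    {σ : Equiv.Perm (Fin N)} (hσ : ∀ i : Fin (m + 1), σ (Fin.castLE hN i) = p i)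
    {L : Fin N → ι} {J J' : Fin (m + 1) → ι} (hL : ∀ i, L (p i) = J i)
    (h : toLex J' < toLex J) : toLex (rep J' (L ∘ σ) ∘ σ.symm) < toLex L := by
  obtain ⟨i, hi, hi'⟩ := h
  refine ⟨p i, ?_, ?_⟩
  · intro x hx
    change rep J' (L ∘ σ) (σ.symm x) = L x
    unfold rep
    split_ifs with h1
    · have h2 : x = p ⟨σ.symm x, h1⟩ := by
        rw [← hσ ⟨σ.symm x, h1⟩]
        change x = σ (σ.symm x)
        rw [Equiv.apply_symm_apply]
      have h3 : (⟨σ.symm x, h1⟩ : Fin (m + 1)) < i := by
        rw [← p.lt_iff_lt, ← h2]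
        exact hx
      have h4 := hi _ h3
      change J' _ = J _ at h4
      rw [h4, ← hL, ← h2]
    · rw [Function.comp_apply, Equiv.apply_symm_apply]
  · change rep J' (L ∘ σ) (σ.symm (p i)) < L (p i)
    have h2 : σ.symm (p i) = Fin.castLE hN i := by rw [← hσ i, Equiv.symm_apply_apply]
    rw [h2, hL]
    unfold rep
    rw [dif_pos (show (Fin.castLE hN i).val < m + 1 from i.2)]
    exact hi'

/-- Replacing a scattered subword by itself. -/
lemma rep_self {ι : Type*} {m N : ℕ} (hN : m + 1 ≤ N) (p : Fin (m + 1) ↪o Fin N)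
    {σ : Equiv.Perm (Fin N)} (hσ : ∀ i : Fin (m + 1), σ (Fin.castLE hN i) = p i)
    {L : Fin N → ι} {J : Fin (m + 1) → ι} (hL : ∀ i, L (p i) = J i) :
    rep J (L ∘ σ) ∘ σ.symm = L := by
  funext x
  rw [Function.comp_apply]
  unfold rep
  split_ifs with h1
  · have h2 : x = p ⟨σ.symm x, h1⟩ := by
      rw [← hσ ⟨σ.symm x, h1⟩]
      change x = σ (σ.symm x)
      rw [Equiv.apply_symm_apply]
    rw [← hL, ← h2]
  · rw [Function.comp_apply, Equiv.apply_symm_apply]

variable {k : Type u} [Field k] {𝒱 : VarClass k} {ops : CycleOps 𝒱}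
  {W : WeilCohomology.{u, v} ops} {P Q P' Q' Z X Y : 𝒱.Obj}

/-- The operator `a ⊗ 1` on the cohomology of `X ^ (n + 2)`. -/
noncomputable def exT (n : ℕ) :
    Module.End W.K (W.H (pw X n)) →ₗ[W.K] Module.End W.K (W.H (pw X (n + 1))) where
  toFun a := extOp W (Y := pw X n) (Z := X) a 1
  map_add' a b := extOp_add_left a b 1
  map_smul' c a := extOp_smul_left c a 1

/-- The operator `a ⊗ 1 ⊗ ⋯ ⊗ 1` on the cohomology of `X ^ (m + t + 1)`. -/
noncomputable def ex1 {m : ℕ} (a : Module.End W.K (W.H (pw X m))) :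
    ∀ t, Module.End W.K (W.H (pw X (m + t)))
  | 0 => a
  | t + 1 => exT (m + t) (ex1 a t)

lemma ex1_wb {ι : Type} [Fintype ι] [DecidableEq ι] (e : Basis ι W.K (W.H X)) {m : ℕ}
    (a : Module.End W.K (W.H (pw X m))) (I : Fin (m + 1) → ι) (t : ℕ) (w : Fin (m + t + 1) → ι) :
    ex1 a t (wb e (m + t) (rep I w)) =
      ∑ J, (wb e m).repr (a (wb e m I)) J • wb e (m + t) (rep J w) := by
  induction t with
  | zero =>
    have h1 : ∀ J : Fin (m + 1) → ι, rep J w = J := by
      intro J
      funext i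
      unfold rep
      rw [dif_pos (show i.val < m + 1 from i.2)]
    rw [h1]
    refine ((wb e m).sum_repr _).symm.trans ?_
    refine Finset.sum_congr rfl fun J _ => ?_
    rw [h1]
    rfl
  | succ t ih =>
    have h1 : ∀ J : Fin (m + 1) → ι, wb e (m + (t + 1)) (rep J w) =
        xp W (wb e (m + t) (rep J fun i => w i.castSucc)) (e (w (Fin.last _))) := by
      intro J
      have h2 := wb_succ e (m + t) (rep J w)
      rw [rep_castSucc] at h2
      have h3 : rep J w (Fin.last (m + t + 1)) = w (Fin.last _) :=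
        dif_neg (show ¬ m + t + 1 < m + 1 by omega)
      rw [h3] at h2
      exact h2
    rw [h1 I]
    have h2 : ex1 a (t + 1) (xp W (wb e (m + t) (rep I fun i => w i.castSucc))
        (e (w (Fin.last _)))) = xp W (ex1 a t (wb e (m + t) (rep I fun i => w i.castSucc)))
          (e (w (Fin.last _))) := extOp_xp _ _ _ _
    rw [h2, ih]
    have h3 : ∀ y : W.H X, ∀ s : Finset (Fin (m + 1) → ι), ∀ f : (Fin (m + 1) → ι) →
        W.H (pw X (m + t)), xp W (∑ J ∈ s, f J) y = ∑ J ∈ s, xp W (f J) y := by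
      intro y s f
      rw [xp_def, map_sum, Finset.sum_mul]
      rfl
    rw [h3]
    refine Finset.sum_congr rfl fun J _ => ?_
    rw [xp_smul_left]
    exact congrArg (fun z => (wb e m).repr (a (wb e m I)) J • z) (h1 J).symm

lemma ex1_num {S : Sys W} {m : ℕ} {a : Module.End W.K (W.H (pw X m))}
    (ha : a ∈ S.NOp (pw X m) (pw X m)) (t : ℕ) :
    ex1 a t ∈ S.NOp (pw X (m + t)) (pw X (m + t)) := by
  induction t with
  | zero => exact ha
  | succ t ih => exact Sys.NOp.ext_left ih

/-- A permutation of the factors extended by the identity. -/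
lemma exists_perm_succ {n : ℕ} (σ : Equiv.Perm (Fin (n + 1))) : ∃ σ' : Equiv.Perm (Fin (n + 2)),
    (∀ i, σ' (Fin.castSucc i) = Fin.castSucc (σ i)) ∧ σ' (Fin.last _) = Fin.last _ := by
  refine ⟨(finSuccEquivLast.trans σ.optionCongr).trans finSuccEquivLast.symm, fun i => ?_, ?_⟩
  · simp [finSuccEquivLast_castSucc]
  · simp [finSuccEquivLast_last]

lemma rho_ext {n : ℕ} {σ : Equiv.Perm (Fin (n + 1))} {σ' : Equiv.Perm (Fin (n + 2))}
    (h1 : ∀ i, σ' (Fin.castSucc i) = Fin.castSucc (σ i)) (h2 : σ' (Fin.last _) = Fin.last _) :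
    rho W X (n + 1) σ' = exT n (rho W X n σ) := by
  refine xp_ext (X := pw X n) (Y := X) (V := W.H (pw X (n + 1))) ?_
  intro i j x _ y _
  refine Eq.trans ?_ (extOp_xp (rho W X n σ) 1 x y).symm
  have e1 : tau X (n + 1) σ' ≫ pfst X n = pfst X n ≫ tau X n σ := by
    apply hom_ext_prj
    intro i
    rw [Category.assoc, Category.assoc, ← prj_castSucc, tau_prj, tau_prj, h1, prj_castSucc]
  have e2 : tau X (n + 1) σ' ≫ psnd X n = psnd X n := by
    rw [← prj_last, tau_prj, h2]
  have h3 : rho W X (n + 1) σ' (xp W x y) = W.map (tau X (n + 1) σ' ≫ pfst X n) x *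
      W.map (tau X (n + 1) σ' ≫ psnd X n) y := map_xp _ _ _
  refine h3.trans ?_
  rw [e1, e2, W.map_comp]
  rfl

lemma ex1_mem {m : ℕ} {a : Module.End W.K (W.H (pw X m))} (ha : a ∈ repAlg (rho W X m)) (t : ℕ) :
    ex1 a t ∈ repAlg (rho W X (m + t)) := by
  induction t with
  | zero => exact ha
  | succ t ih =>
    have h1 := repAlg_le _ ih
    have h2 : (Submodule.span W.K (Set.range (rho W X (m + t)))).map (exT (m + t)) ≤
        Subalgebra.toSubmodule (repAlg (rho W X (m + t + 1))) := by
      rw [Submodule.map_span_le]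
      rintro _ ⟨σ, rfl⟩
      obtain ⟨σ', h3, h4⟩ := exists_perm_succ σ
      rw [← rho_ext h3 h4]
      exact rep_mem _ _
    exact h2 ⟨_, h1, rfl⟩

/-- The numerically trivial part of the algebra of the permutations is generated by an
idempotent. -/
theorem exists_num_idem (S : Sys W) (X : 𝒱.Obj) (N : ℕ) :
    ∃ f ∈ repAlg (rho W X N), f ∈ S.NOp (pw X N) (pw X N) ∧ f * f = f ∧
      ∀ y ∈ repAlg (rho W X N), y ∈ S.NOp (pw X N) (pw X N) → f * y = y := by
  have hOp : ∀ a ∈ repAlg (rho W X N), a ∈ S.Op (pw X N) (pw X N) := fun a ha =>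
    S.span_rho_le X N (repAlg_le _ ha)
  let I : Ideal (repAlg (rho W X N)) :=
    { carrier := {y | (y : Module.End W.K (W.H (pw X N))) ∈ S.NOp (pw X N) (pw X N)}
      zero_mem' := (S.NOp (pw X N) (pw X N)).zero_mem
      add_mem' := fun ha hb => (S.NOp (pw X N) (pw X N)).add_mem ha hb
      smul_mem' := fun a y hy => Sys.NOp.comp_left (hOp _ a.2) hy }
  obtain ⟨f, hf, hI⟩ := IsSemisimpleRing.ideal_eq_span_idempotent (R := repAlg (rho W X N)) I
  have hfI : f ∈ I := by rw [hI]; exact Ideal.mem_span_singleton_self f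
  have hff : f * f = f := hf
  have hff' : (f : Module.End W.K (W.H (pw X N))) * f = f := congrArg Subtype.val hff
  have hright : ∀ y ∈ I, y * f = y := by
    intro y hy
    rw [hI] at hy
    obtain ⟨z, rfl⟩ := Ideal.mem_span_singleton'.1 hy
    rw [mul_assoc, hff]
  have hright' : ∀ y ∈ repAlg (rho W X N), y ∈ S.NOp (pw X N) (pw X N) →
      y * (f : Module.End W.K (W.H (pw X N))) = y := fun y hy hy' =>
    congrArg Subtype.val (hright ⟨y, hy⟩ hy')
  have hgA := f.2
  have hgN : (f : Module.End W.K (W.H (pw X N))) ∈ S.NOp (pw X N) (pw X N) := hfI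
  generalize (f : Module.End W.K (W.H (pw X N))) = g at hff' hright' hgA hgN
  refine ⟨g, hgA, hgN, hff', fun y hy hyN => ?_⟩
  -- the element `(1 - f) y` vanishes
  have h1 : y - g * y ∈ S.NOp (pw X N) (pw X N) :=
    Submodule.sub_mem _ hyN (Sys.NOp.comp_left (hOp _ hgA) hyN)
  have h2 : y - g * y ∈ repAlg (rho W X N) :=
    Subalgebra.sub_mem _ hy (Subalgebra.mul_mem _ hgA hy)
  obtain ⟨x, hx, -, h4⟩ := exists_reg (ρ := rho W X N) h2
  have h5 := hright' ((y - g * y) * x) (Subalgebra.mul_mem _ h2 hx)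
    (Sys.NOp.comp_right h1 (hOp _ hx))
  have h6 : (y - g * y) * x * (y - g * y) = 0 := by
    rw [mul_sub ((y - g * y) * x), ← mul_assoc ((y - g * y) * x) g y, h5, sub_self]
  rw [mul_assoc, h4, sub_eq_zero] at h6
  exact h6.symm

/-- **The quotient by a numerically trivial combination of permutations is small.** -/
theorem exists_idem_small (S : Sys W) (X : 𝒱.Obj) (hb : 2 ≤ finrank W.K (W.H X)) {m : ℕ}
    {a : Module.End W.K (W.H (pw X m))} (ha : a ∈ repAlg (rho W X m))
    (haN : a ∈ S.NOp (pw X m) (pw X m)) (ha0 : a ≠ 0) (t : ℕ) :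
    ∃ f ∈ S.NOp (pw X (m + t)) (pw X (m + t)), f * f = f ∧
      finrank W.K (LinearMap.range (1 - f)) ≤
        (m + t + 2) ^ (m + 1) * (finrank W.K (W.H X) - 1) ^ (m + t + 1) := by
  classical
  obtain ⟨e, he⟩ := exists_hbasis W X
  -- a word which is not killed, and the leading word of its image
  obtain ⟨I, hI⟩ : ∃ I, a (wb e m I) ≠ 0 := by
    by_contra h
    push Not at h
    exact ha0 ((wb e m).ext fun i => by rw [h i, LinearMap.zero_apply])
  set c := (wb e m).repr (a (wb e m I)) with hc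
  have hc0 : c ≠ 0 := by
    intro h
    exact hI ((wb e m).repr.map_eq_zero_iff.1 h)
  obtain ⟨J₀, hJ₀, hmax⟩ := c.support.exists_max_image (fun J => toLex J)
    (Finsupp.support_nonempty_iff.2 hc0)
  have hcJ₀ : c J₀ ≠ 0 := Finsupp.mem_support_iff.1 hJ₀
  obtain ⟨f, hfA, hfN, hff, hf⟩ := exists_num_idem S X (m + t)
  refine ⟨f, hfN, hff, ?_⟩
  have key := quot_le (wb e (m + t)) J₀ (LinearMap.range f) (by
    intro L p hp
    have hN : m + 1 ≤ m + t + 1 := by omega
    obtain ⟨σ, hσ⟩ := exists_perm_ext hN p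
    set w : (Fin (m + 1) → Fin (finrank W.K (W.H X))) → Fin (m + t + 1) →
      Fin (finrank W.K (W.H X)) := fun J => rep J (L ∘ σ) ∘ σ.symm with hw
    have hwσ : ∀ J, w J ∘ σ = rep J (L ∘ σ) := by
      intro J
      funext i
      simp [hw]
    choose s hs0 hs using fun J => tau_wb e he (m + t) σ (w J)
    set v := rho W X (m + t) σ (ex1 a t (wb e (m + t) (rep I (L ∘ σ)))) with hv
    have hvU : v ∈ LinearMap.range f := by
      have h1 : rho W X (m + t) σ * ex1 a t ∈ S.NOp (pw X (m + t)) (pw X (m + t)) :=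
        Sys.NOp.comp_left (Sys.Op.map _) (ex1_num haN t)
      have h2 := hf _ (Subalgebra.mul_mem _ (rep_mem _ σ) (ex1_mem ha t)) h1
      refine ⟨v, ?_⟩
      exact congrArg (fun g : Module.End W.K (W.H (pw X (m + t))) =>
        g (wb e (m + t) (rep I (L ∘ σ)))) h2
    have hsum : v = ∑ J, (c J * s J) • wb e (m + t) (w J) := by
      rw [hv, ex1_wb, map_sum]
      refine Finset.sum_congr rfl fun J _ => ?_
      rw [map_smul, ← hwσ J]
      have h1 : rho W X (m + t) σ (wb e (m + t) (w J ∘ σ)) = s J • wb e (m + t) (w J) := hs J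
      rw [h1, smul_smul]
    have hwJ₀ : w J₀ = L := rep_self hN p hσ hp
    rw [← Finset.add_sum_erase _ _ (Finset.mem_univ J₀), hwJ₀] at hsum
    have h1 : wb e (m + t) L = (c J₀ * s J₀)⁻¹ • (v -
        ∑ J ∈ Finset.univ.erase J₀, (c J * s J) • wb e (m + t) (w J)) := by
      rw [hsum, add_sub_cancel_right, smul_smul, inv_mul_cancel₀ (mul_ne_zero hcJ₀ (hs0 J₀)),
        one_smul]
    rw [h1]
    refine Submodule.smul_mem _ _ (Submodule.sub_mem _ (Submodule.mem_sup_left hvU)
      (Submodule.mem_sup_right (Submodule.sum_mem _ fun J hJ => ?_)))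
    by_cases hcJ : c J = 0
    · rw [hcJ, zero_mul, zero_smul]
      exact Submodule.zero_mem _
    · refine Submodule.smul_mem _ _ (Submodule.subset_span ⟨_, ?_, rfl⟩)
      have h2 : toLex J ≤ toLex J₀ := hmax J (Finsupp.mem_support_iff.2 hcJ)
      have h3 : toLex J ≠ toLex J₀ := fun h => (Finset.mem_erase.1 hJ).1 (toLex.injective h)
      exact lex_lt hN p hσ hp (lt_of_le_of_ne h2 h3))
  obtain ⟨-, h2⟩ := Sys.finrank_compl (g := f) hff
  have h3 := card_av (ι := Fin (finrank W.K (W.H X))) (by rw [Fintype.card_fin]; exact hb)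
    (List.ofFn J₀) (m + t + 1)
  rw [List.length_ofFn, Fintype.card_fin, show m + t + 1 + 1 = m + t + 2 by ring] at h3
  omega

end Pool.Agent.Helper14G
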