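import Pool.Agent.Helper14G.Df

/-!
# The rank of the intersection form on the square
-/

open CategoryTheory AlgebraicGeometry

universe u v

namespace Pool.Agent.Helper14G

open Module
open Pool.Agent.H914 Pool.Agent.H914.VarClass Pool.Agent.H914.VarClass.Obj
  Pool.Agent.H914.WeilCohomology
open Pool.Agent.Y133.Half

variable {k : Type u} [Field k] {𝒱 : VarClass k} {ops : CycleOps 𝒱}
  {W : WeilCohomology.{u, v} ops} {P Q Z X Y : 𝒱.Obj}

namespace Sy

variable (S : Sys W)

lemma al_zero_le (X : 𝒱.Obj) : S.al X 0 ≤ finrank W.K (W.H X) ^ 2 := by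
  have h1 : S.al X 0 = rk (S.F (X.prod X) 1) := rfl
  rw [h1]
  refine (S.rk_F_le _).trans ?_
  rw [Sys.rank_one, Pool.Agent.Y133.Half.finrank_prod, sq]

end Sy

end Pool.Agent.Helper14G
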