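import Pool.Agent.Helper14G.Rate

/-!
# From even powers to all powers
-/

open CategoryTheory AlgebraicGeometry

universe u v

namespace Pool.Agent.Helper14G

open Module
open Pool.Agent.H914 Pool.Agent.H914.VarClass Pool.Agent.H914.VarClass.Obj
  Pool.Agent.H914.WeilCohomology
open Pool.Agent.Y133.Half

/-- A bound for the logarithm. -/
lemma log_bound {l : ℕ} (hl : 1 ≤ l) : Real.log ((l : ℝ) + 2) ≤ 12 * (l : ℝ) ^ (1 / 4 : ℝ) := by
  have hl0 : (1 : ℝ) ≤ l := by exact_mod_cast hl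
  have h1 := Real.log_le_rpow_div (x := (l : ℝ) + 2) (by linarith) (ε := 1 / 4) (by norm_num)
  have h2 : ((l : ℝ) + 2) ^ (1 / 4 : ℝ) ≤ (3 * (l : ℝ)) ^ (1 / 4 : ℝ) :=
    Real.rpow_le_rpow (by linarith) (by linarith) (by norm_num)
  have h3 : (3 * (l : ℝ)) ^ (1 / 4 : ℝ) = (3 : ℝ) ^ (1 / 4 : ℝ) * (l : ℝ) ^ (1 / 4 : ℝ) :=
    Real.mul_rpow (by norm_num) (by linarith)
  have h4 : (3 : ℝ) ^ (1 / 4 : ℝ) ≤ 3 := by
    calc (3 : ℝ) ^ (1 / 4 : ℝ) ≤ (3 : ℝ) ^ (1 : ℝ) :=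
          Real.rpow_le_rpow_of_exponent_le (by norm_num) (by norm_num)
      _ = 3 := Real.rpow_one 3
  have h5 : 0 ≤ (l : ℝ) ^ (1 / 4 : ℝ) := by positivity
  calc Real.log ((l : ℝ) + 2) ≤ ((l : ℝ) + 2) ^ (1 / 4 : ℝ) / (1 / 4) := h1
    _ = 4 * ((l : ℝ) + 2) ^ (1 / 4 : ℝ) := by ring
    _ ≤ 4 * (3 * (l : ℝ) ^ (1 / 4 : ℝ)) := by
        apply mul_le_mul_of_nonneg_left _ (by norm_num)
        rw [h3] at h2
        exact h2.trans (mul_le_mul_of_nonneg_right h4 h5)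
    _ = _ := by ring

variable {k : Type u} [Field k] {𝒱 : VarClass k} {ops : CycleOps 𝒱}
  {W : WeilCohomology.{u, v} ops} {P Q P' Q' Z X Y : 𝒱.Obj}

namespace Sy

variable (S T : Sys W)

lemma a_le_C (hST : ∀ X, S.C X ≤ T.C X) (Z : 𝒱.Obj) : S.a Z ≤ finrank W.K (T.C Z) := by
  have h1 := S.a_add_num Z
  have h2 : finrank W.K (S.C Z) ≤ finrank W.K (T.C Z) := Submodule.finrank_mono (hST Z)
  omega

/-- From even powers to all powers. -/
lemma transfer (X : 𝒱.Obj) (h1 : (1 : W.H X) ≠ 0) {F : ℝ} (hF : 0 ≤ F)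
    {l : ℕ} (h : F * S.al X l ≤ finrank W.K (T.C ((pw X l).prod (pw X l)))) :
    F * S.a (pw X (2 * l + 1)) ≤ finrank W.K (T.C (pw X (2 * l + 1))) ∧
      F * S.a (pw X (2 * l + 2)) ≤
        finrank W.K (W.H X) * finrank W.K (T.C (pw X (2 * l + 2))) := by
  have e1 : 2 * l + 1 = l + l + 1 := by ring
  let φ : (pw X l).prod (pw X l) ≅ pw X (2 * l + 1) :=
    pwAdd X l l ≪≫ eqToIso (congrArg (pw X) e1.symm)
  have h2 : S.a (pw X (2 * l + 1)) = S.al X l := (S.a_iso φ).symm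
  have h3 : finrank W.K (T.C (pw X (2 * l + 1))) =
      finrank W.K (T.C ((pw X l).prod (pw X l))) := (T.finrank_C_iso φ).symm
  have h4 : S.a (pw X (2 * l + 2)) ≤ finrank W.K (W.H X) * S.al X l := by
    have h5 : S.a (pw X (2 * l + 2)) = S.a (X.prod ((pw X l).prod (pw X l))) := by
      have h6 : S.a (pw X (2 * l + 2)) = S.a ((pw X (2 * l + 1)).prod X) := rfl
      rw [h6]
      exact S.a_iso (prodComm _ _ ≪≫ prodCongr (Iso.refl X) φ.symm)
    rw [h5]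
    exact S.a_le _ _
  have h7 : finrank W.K (T.C (pw X (2 * l + 1))) ≤ finrank W.K (T.C (pw X (2 * l + 2))) := by
    apply T.finrank_C_le (pfst X (2 * l + 1))
    intro x y hxy
    have hxy' : W.map (fst (pw X (2 * l + 1)) X) x = W.map (fst (pw X (2 * l + 1)) X) y := hxy
    have h8 : xp W (x - y) (1 : W.H X) = 0 := by
      rw [xp, map_sub, hxy', sub_self, zero_mul]
    exact sub_eq_zero.1 (xp_eq_zero_right h1 h8)
  constructor
  · rw [h2, h3]; exact h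
  · have h8 : (S.a (pw X (2 * l + 2)) : ℝ) ≤ finrank W.K (W.H X) * S.al X l := by
      exact_mod_cast h4
    have h9 : (finrank W.K (T.C ((pw X l).prod (pw X l))) : ℝ) ≤
        finrank W.K (T.C (pw X (2 * l + 2))) := by
      rw [← h3]; exact_mod_cast h7
    calc F * S.a (pw X (2 * l + 2)) ≤ F * (finrank W.K (W.H X) * S.al X l) :=
          mul_le_mul_of_nonneg_left h8 hF
      _ = finrank W.K (W.H X) * (F * S.al X l) := by ring
      _ ≤ finrank W.K (W.H X) * finrank W.K (T.C (pw X (2 * l + 2))) :=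
          mul_le_mul_of_nonneg_left (h.trans h9) (Nat.cast_nonneg _)

/-- The positivity of the ranks, or everything is zero. -/
lemma al_pos_or (X : 𝒱.Obj) : (∀ n, S.a (pw X n) = 0) ∨ ((1 : W.H X) ≠ 0 ∧ ∀ l, 0 < S.al X l) := by
  by_cases hZ : ∀ l ∈ S.C X, W.tr X l = 0
  · exact Or.inl (S.a_eq_zero_of hZ)
  right
  push Not at hZ
  obtain ⟨l', hl', hl'0⟩ := hZ
  obtain ⟨l, hl, hl1⟩ : ∃ l ∈ S.C X, W.tr X l = 1 :=
    ⟨(W.tr X l')⁻¹ • l', Submodule.smul_mem _ _ hl', by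
      rw [map_smul, smul_eq_mul, inv_mul_cancel₀ hl'0]⟩
  refine ⟨one_ne_zero_of (ne_zero_of_tr hl1), fun n => ?_⟩
  obtain ⟨m, hm, hm1⟩ := S.exists_lam hl hl1 n
  refine S.a_pos (Sys.xp_mem_C S hm hm) ?_
  rw [tr_xp, hm1, mul_one]

end Sy


end Pool.Agent.Helper14G
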