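import Pool.Agent.Helper14G.Trf
import Pool.Agent.Helper14G.Prim

/-!
# Nilpotence and exponential growth
-/

open CategoryTheory AlgebraicGeometry

universe u v

namespace Pool.Agent.Helper14G

open Module
open Pool.Agent.H914 Pool.Agent.H914.VarClass Pool.Agent.H914.VarClass.Obj
  Pool.Agent.H914.WeilCohomology
open Pool.Agent.Y133.Half

variable {k : Type u} [Field k] {𝒱 : VarClass k} {ops : CycleOps 𝒱}
  {W : WeilCohomology.{u, v} ops} {P Q P' Q' Z X Y : 𝒱.Obj}

namespace Sy

variable (S : Sys W)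

/-- If the numerically trivial operators on `P` are nilpotent, the intersection form on `P × P` has
at least the rank given by the span of the permutations. -/
theorem span_le_a (X : 𝒱.Obj) (l : ℕ)
    (h : ∀ x ∈ S.NOp (pw X l) (pw X l), IsNilpotent x) :
    finrank W.K (W.H X) ^ (2 * (l + 1)) ≤
      S.al X l * (l + 2) ^ (finrank W.K (W.H X) ^ 2) := by
  classical
  set P := pw X l with hP
  -- the span of the permutations and the numerically trivial operators are independent
  let A : Submodule W.K (Module.End W.K (W.H P)) := Subalgebra.toSubmodule (repAlg (rho W X l))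
  have hAop : A ≤ S.Op P P := fun g hg => S.span_rho_le X l (repAlg_le _ hg)
  have hNop : S.NOp P P ≤ S.Op P P := fun x hx => Sys.NOp.op hx
  have hdis : A ⊓ S.NOp P P = ⊥ := by
    rw [eq_bot_iff]
    rintro a ⟨ha, haN⟩
    obtain ⟨x, hx, h1, h2⟩ := exists_reg (ρ := rho W X l) ha
    have h3 : x * a ∈ S.NOp P P := Sys.NOp.comp_left (hAop hx) haN
    obtain ⟨n, hn⟩ := h _ h3
    have h4 : IsIdempotentElem (x * a) := h1
    have h5 : x * a = 0 := by
      rcases Nat.eq_zero_or_pos n with rfl | hn0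
      · rw [pow_zero] at hn
        rw [← mul_one (x * a), hn, mul_zero]
      · rw [← hn, h4.pow_eq (by omega)]
    rw [h5, mul_zero] at h2
    exact (Submodule.mem_bot _).2 h2.symm
  have h1 : finrank W.K A + finrank W.K (S.NOp P P) ≤ finrank W.K (S.Op P P) := by
    have h2 := Submodule.finrank_sup_add_finrank_inf_eq A (S.NOp P P)
    rw [hdis, finrank_bot, add_zero] at h2
    rw [← h2]
    exact Submodule.finrank_mono (sup_le hAop hNop)
  have hinj : Function.Injective (corrL W P P) := by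
    rw [← LinearMap.ker_eq_bot, LinearMap.ker_eq_bot']
    intro c hc
    apply W.nondeg
    intro d
    refine W.kunneth_induction (p := fun d => W.tr (P.prod P) (c * d) = 0) ?_ ?_ d
    · intro a b ha hb
      rw [mul_add, map_add, ha, hb, add_zero]
    · intro i j a _ b _
      rw [← mul_assoc, ← W.tr_push]
      have h1 : W.corr c a = 0 := congrArg (fun F => F a) hc
      rw [corr_apply] at h1
      rw [h1, zero_mul, map_zero]
  have h2 : finrank W.K (S.Op P P) = finrank W.K (S.C (P.prod P)) :=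
    (Submodule.equivMapOfInjective _ hinj _).finrank_eq.symm
  have h3 : finrank W.K (S.NOp P P) = finrank W.K (S.Num (P.prod P)) :=
    (Submodule.equivMapOfInjective _ hinj _).finrank_eq.symm
  have h4 := S.a_add_num (P.prod P)
  have h5 : finrank W.K A ≤ S.al X l := by
    have : S.al X l = S.a (P.prod P) := rfl
    omega
  -- the dimension of the span of the permutations
  obtain ⟨e, he⟩ := exists_hbasis W X
  have h6 := span_perm (wb e l) (rho W X l) (tau_wb e he l)
  rw [finrank_pw, ← pow_mul, Fintype.card_fin, mul_comm (l + 1) 2] at h6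
  refine h6.trans (Nat.mul_le_mul_right _ ?_)
  refine le_trans (Submodule.finrank_mono ?_) h5
  rw [Submodule.span_le]
  rintro _ ⟨σ, rfl⟩
  exact rep_mem _ σ

lemma finrank_C_le' (Z : 𝒱.Obj) : finrank W.K (S.C Z) ≤ finrank W.K (W.H Z) :=
  Submodule.finrank_le _

/-- A further factor does not decrease the rank of the intersection form. -/
lemma a_le_prod {l : W.H X} (hl : l ∈ S.C X) (hl1 : W.tr X l = 1) (Z : 𝒱.Obj) :
    S.a Z ≤ S.a (Z.prod X) := by
  -- the form on `Z` is the restriction of the form on `Z × X`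
  let i : S.C Z →ₗ[W.K] S.C (Z.prod X) :=
    { toFun := fun c => ⟨xp W (c : W.H Z) 1, Sys.xp_mem_C S c.2 (S.one X)⟩
      map_add' := fun a b => Subtype.ext (xp_add_left (a : W.H Z) (b : W.H Z) _)
      map_smul' := fun r a => Subtype.ext (xp_smul_left r (a : W.H Z) _) }
  let j : S.C Z →ₗ[W.K] S.C (Z.prod X) :=
    { toFun := fun c => ⟨xp W (c : W.H Z) l, Sys.xp_mem_C S c.2 hl⟩
      map_add' := fun a b => Subtype.ext (xp_add_left (a : W.H Z) (b : W.H Z) _)
      map_smul' := fun r a => Subtype.ext (xp_smul_left r (a : W.H Z) _) }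
  have h1 : S.F Z 1 = (S.F (Z.prod X) 1).compl₁₂ i j := by
    apply LinearMap.ext
    intro c
    apply LinearMap.ext
    intro d
    rw [LinearMap.compl₁₂_apply, Sys.F_apply, Sys.F_apply]
    change W.tr Z ((c : W.H Z) * d) = W.tr (Z.prod X) (xp W (c : W.H Z) 1 * xp W (d : W.H Z) l)
    have e0 : (1 : W.H X) ∈ PH W X 0 := PH.of (W.one_mem X)
    have hd : (d : W.H Z) ∈ PH W Z 0 := S.even d.2
    have h2 := xp_mul (c : W.H Z) (d : W.H Z) (1 : W.H X) l e0 hd
    rw [zero_mul, pow_zero, one_smul, one_mul] at h2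
    rw [h2, tr_xp, hl1, mul_one]
  have h2 : LinearMap.range (S.F Z 1) ≤
      (LinearMap.range (S.F (Z.prod X) 1)).map (LinearMap.lcomp W.K W.K j) := by
    rintro _ ⟨c, rfl⟩
    refine ⟨S.F (Z.prod X) 1 (i c), ⟨i c, rfl⟩, ?_⟩
    rw [h1]
    rfl
  exact (Submodule.finrank_mono h2).trans (Submodule.finrank_map_le _ _)

/-- **Polynomial growth from nilpotence.** -/
theorem poly_of_nil (X : 𝒱.Obj) (h : ∀ l, ∀ x ∈ S.NOp (pw X l) (pw X l), IsNilpotent x) (n : ℕ) :
    finrank W.K (S.C (pw X n)) ≤ finrank W.K (W.H X) *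
      (n + 2) ^ (finrank W.K (W.H X) ^ 2) * S.a (pw X n) := by
  set b := finrank W.K (W.H X) with hb
  rcases Nat.eq_zero_or_pos b with hb0 | hb0
  · have h1 := finrank_C_le' S (pw X n)
    rw [finrank_pw, ← hb, hb0, zero_pow (by omega)] at h1
    omega
  -- there is a class of trace one
  have hex : ∃ l ∈ S.C X, W.tr X l = 1 := by
    by_contra hno
    push Not at hno
    have hZ : ∀ l ∈ S.C X, W.tr X l = 0 := by
      intro l hl
      by_contra h0
      apply hno ((W.tr X l)⁻¹ • l) (Submodule.smul_mem _ _ hl)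
      rw [map_smul, smul_eq_mul, inv_mul_cancel₀ h0]
    have h1 := span_le_a S X 0 (h 0)
    have h2 : S.al X 0 = S.a (pw X 1) := rfl
    rw [h2, S.a_eq_zero_of hZ 1, zero_mul] at h1
    have h3 : 0 < finrank W.K (W.H X) ^ (2 * (0 + 1)) := pow_pos hb0 _
    omega
  obtain ⟨l, hl, hl1⟩ := hex
  have h1X : (1 : W.H X) ≠ 0 := one_ne_zero_of (ne_zero_of_tr hl1)
  have hmono : ∀ m, S.a (pw X m) ≤ S.a (pw X (m + 1)) := fun m => a_le_prod S hl hl1 (pw X m)
  have hpow : ∀ {i m : ℕ}, i ≤ m → (i + 2) ^ (b ^ 2) ≤ (m + 2) ^ (b ^ 2) := fun h =>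
    Nat.pow_le_pow_left (by omega) _
  have hn0 := finrank_C_le' S (pw X n)
  rw [finrank_pw, ← hb] at hn0
  rcases Nat.eq_zero_or_pos n with rfl | hn
  · have h2 : 0 < S.a (pw X 0) := Sys.a_pos S hl hl1
    have h3 : 0 < (0 + 2) ^ (b ^ 2) := by positivity
    rw [zero_add, pow_one] at hn0
    calc finrank W.K (S.C (pw X 0)) ≤ b := hn0
      _ = b * 1 * 1 := by ring
      _ ≤ _ := Nat.mul_le_mul (Nat.mul_le_mul_left _ h3) h2
  obtain ⟨m, hm⟩ : ∃ m, n = 2 * m + 1 ∨ n = 2 * m + 2 := ⟨(n - 1) / 2, by omega⟩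
  have h4 := span_le_a S X m (h m)
  rw [← hb] at h4
  have h5 : S.al X m = S.a (pw X (2 * m + 1)) := by
    have e1 : 2 * m + 1 = m + m + 1 := by ring
    exact S.a_iso (pwAdd X m m ≪≫ eqToIso (congrArg (pw X) e1.symm))
  rcases hm with rfl | rfl
  · calc finrank W.K (S.C (pw X (2 * m + 1))) ≤ b ^ (2 * (m + 1)) := by
          rw [show 2 * (m + 1) = 2 * m + 1 + 1 by ring]; exact hn0
      _ ≤ S.al X m * (m + 2) ^ (b ^ 2) := h4
      _ ≤ S.a (pw X (2 * m + 1)) * (2 * m + 1 + 2) ^ (b ^ 2) := by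
          rw [h5]
          exact Nat.mul_le_mul_left _ (hpow (by omega))
      _ = 1 * (2 * m + 1 + 2) ^ (b ^ 2) * S.a (pw X (2 * m + 1)) := by ring
      _ ≤ _ := Nat.mul_le_mul_right _ (Nat.mul_le_mul_right _ hb0)
  · calc finrank W.K (S.C (pw X (2 * m + 2))) ≤ b ^ (2 * m + 2 + 1) := hn0
      _ = b * b ^ (2 * (m + 1)) := by ring
      _ ≤ b * (S.al X m * (m + 2) ^ (b ^ 2)) := Nat.mul_le_mul_left _ h4
      _ ≤ b * (S.a (pw X (2 * m + 2)) * (2 * m + 2 + 2) ^ (b ^ 2)) := by
          apply Nat.mul_le_mul_left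
          refine Nat.mul_le_mul ?_ (hpow (by omega))
          rw [h5]
          exact hmono _
      _ = _ := by ring

/-- A numerically trivial operator which is not nilpotent makes the ranks of the intersection forms
smaller. -/
lemma al_drop {X : 𝒱.Obj} {q : ℕ} {x : Module.End W.K (W.H (pw X q))}
    (hx : x ∈ S.NOp (pw X q) (pw X q)) (hn : ¬ IsNilpotent x) (l : ℕ) :
    S.al X (l + (q + 1)) + S.al X l ≤ finrank W.K (W.H X) ^ (2 * (q + 1)) * S.al X l := by
  have hx0 : x ≠ 0 := fun h => hn ⟨1, by rw [h, pow_one]⟩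
  have h1q : (1 : W.H (pw X q)) ≠ 0 := by
    intro h0
    apply hx0
    apply LinearMap.ext
    intro y
    have : y = 0 := by rw [← one_mul y, h0, zero_mul]
    rw [this, map_zero, LinearMap.zero_apply]
  set P := (pw X q).prod (pw X q) with hP
  have hE : extOp W x (1 : Module.End W.K (W.H (pw X q))) ∈ S.NOp P P := Sys.NOp.ext_left hx
  have hEn : ¬ IsNilpotent (extOp W x (1 : Module.End W.K (W.H (pw X q)))) := by
    rintro ⟨n, hn'⟩
    apply hn
    refine ⟨n, ?_⟩
    rw [Sys.extOp_pow] at hn'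
    apply LinearMap.ext
    intro y
    have h3 := congrArg (fun f : Module.End W.K (W.H P) => f (xp W y 1)) hn'
    have h4 : extOp W (x ^ n) (1 : Module.End W.K (W.H (pw X q))) (xp W y 1) =
        xp W ((x ^ n) y) 1 := extOp_xp _ _ _ _
    exact xp_eq_zero_right h1q (h4.symm.trans h3)
  obtain ⟨g, hg, hgg, h0, hr⟩ := S.exists_idem hE hEn ((pw X l).prod (pw X l))
  have h2 := S.r_add_le (Z := (pw X l).prod (pw X l)) g (1 - g)
  have e1 : S.a (P.prod ((pw X l).prod (pw X l))) = S.al X (l + (q + 1)) := by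
    rw [S.a_iso (prodCongr (pwAdd X q q) (Iso.refl _))]
    exact S.a_pw X (by ring)
  have e2 : finrank W.K (W.H P) = finrank W.K (W.H X) ^ (2 * (q + 1)) := by
    rw [Pool.Agent.Y133.Half.finrank_prod, finrank_pw, ← pow_add]
    congr 1
    ring
  rw [add_sub_cancel, S.r_one, hr, zero_add, e1] at h2
  obtain ⟨hg', hdim⟩ := Sys.finrank_compl hgg
  have h3 := S.r_le_rank (Submodule.sub_mem _ Sys.Op.id hg) hg' (pw X l)
  have h4 := Sys.finrank_range_pos h0
  have h6 : S.a ((pw X l).prod (pw X l)) = S.al X l := rfl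
  rw [h6] at h3
  have h7 : finrank W.K (LinearMap.range (1 - g)) + 1 ≤ finrank W.K (W.H X) ^ (2 * (q + 1)) := by
    rw [← e2, ← hdim]; omega
  calc S.al X (l + (q + 1)) + S.al X l ≤
      finrank W.K (LinearMap.range (1 - g)) * S.al X l + S.al X l :=
        Nat.add_le_add_right (h2.trans h3) _
    _ = (finrank W.K (LinearMap.range (1 - g)) + 1) * S.al X l := by ring
    _ ≤ _ := Nat.mul_le_mul_right _ h7

lemma al_le_pow (X : 𝒱.Obj) (l : ℕ) : S.al X l ≤ finrank W.K (W.H X) ^ (2 * (l + 1)) := by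
  induction l with
  | zero => exact al_zero_le S X
  | succ l ih =>
    refine (S.al_succ_le X l).trans ?_
    calc finrank W.K (W.H X) ^ 2 * S.al X l ≤
          finrank W.K (W.H X) ^ 2 * finrank W.K (W.H X) ^ (2 * (l + 1)) :=
          Nat.mul_le_mul_left _ ih
      _ = _ := by rw [← pow_add]; congr 1; ring

/-- The ranks decay exponentially, compared with the dimensions. -/
lemma al_decay {X : 𝒱.Obj} {q : ℕ} {x : Module.End W.K (W.H (pw X q))}
    (hx : x ∈ S.NOp (pw X q) (pw X q)) (hn : ¬ IsNilpotent x) (m i : ℕ) :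
    (finrank W.K (W.H X) ^ (2 * (q + 1))) ^ m * S.al X (i + m * (q + 1)) ≤
      (finrank W.K (W.H X) ^ (2 * (q + 1)) - 1) ^ m *
        finrank W.K (W.H X) ^ (2 * (i + m * (q + 1) + 1)) := by
  set b := finrank W.K (W.H X) with hb
  set B := b ^ (2 * (q + 1)) with hB
  have key : ∀ m, S.al X (i + m * (q + 1)) ≤ (B - 1) ^ m * b ^ (2 * (i + 1)) := by
    intro m
    induction m with
    | zero =>
      rw [zero_mul, add_zero, pow_zero, one_mul]
      exact al_le_pow S X i
    | succ m ih =>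
      have h1 := al_drop S hx hn (i + m * (q + 1))
      rw [← hb, ← hB] at h1
      have h2 : i + (m + 1) * (q + 1) = i + m * (q + 1) + (q + 1) := by ring
      rw [h2]
      have h3 : S.al X (i + m * (q + 1) + (q + 1)) ≤ (B - 1) * S.al X (i + m * (q + 1)) := by
        rw [Nat.sub_mul, one_mul]
        omega
      refine h3.trans ?_
      calc (B - 1) * S.al X (i + m * (q + 1)) ≤ (B - 1) * ((B - 1) ^ m * b ^ (2 * (i + 1))) :=
            Nat.mul_le_mul_left _ ih
        _ = _ := by ring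
  calc B ^ m * S.al X (i + m * (q + 1)) ≤ B ^ m * ((B - 1) ^ m * b ^ (2 * (i + 1))) :=
        Nat.mul_le_mul_left _ (key m)
    _ = (B - 1) ^ m * (b ^ (2 * (i + 1)) * B ^ m) := by ring
    _ = _ := by
        rw [hB, ← pow_mul, ← pow_add]
        congr 2
        ring

end Sy

end Pool.Agent.Helper14G
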