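import Pool.Agent.Helper14G.SqLevel
import Pool.Agent.Helper14G.Trf
import Pool.Agent.Helper14G.Tri

/-!
# Square root growth
-/

open CategoryTheory AlgebraicGeometry

universe u v

namespace Pool.Agent.Helper14G

open Module
open Pool.Agent.H914 Pool.Agent.H914.VarClass Pool.Agent.H914.VarClass.Obj
  Pool.Agent.H914.WeilCohomology
open Pool.Agent.Y133.Half

/-- The constant in the square root law. -/
noncomputable def kk (b q : ℕ) : ℝ := 144 * (b : ℝ) ^ (2 * (q + 1)) * ((q : ℝ) + 1) * ((b : ℝ) ^ 2 + 1)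

/-- The rate `√((n + 1) / log (n + 2))`. -/
noncomputable def rt (n : ℕ) : ℝ := √(((n : ℝ) + 1) / Real.log ((n : ℝ) + 2))

lemma rt_nonneg (n : ℕ) : 0 ≤ rt n := Real.sqrt_nonneg _

lemma log_two_le {n : ℕ} : (1 : ℝ) / 2 ≤ Real.log ((n : ℝ) + 2) := by
  have h1 : Real.log 2 ≤ Real.log ((n : ℝ) + 2) :=
    Real.log_le_log (by norm_num) (by linarith [Nat.cast_nonneg (α := ℝ) n])
  have h2 := Real.log_two_gt_d9
  linarith

lemma log_one_le {n : ℕ} (hn : 1 ≤ n) : (1 : ℝ) ≤ Real.log ((n : ℝ) + 2) := by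
  have hn' : (1 : ℝ) ≤ n := by exact_mod_cast hn
  rw [Real.le_log_iff_exp_le (by linarith)]
  have := Real.exp_one_lt_d9
  linarith

variable {k : Type u} [Field k] {𝒱 : VarClass k} {ops : CycleOps 𝒱}
  {W : WeilCohomology.{u, v} ops} {P Q Z X Y : 𝒱.Obj}

namespace Tower

variable (S : Sys W) (τ : Tower X)

lemma al_add_le (l j : ℕ) :
    τ.al S (l + j) ≤ finrank W.K (W.H X) ^ (2 * j) * τ.al S l := by
  induction j with
  | zero => simp
  | succ j ih =>
    refine (τ.al_succ_le S (l + j)).trans ?_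
    calc finrank W.K (W.H X) ^ 2 * τ.al S (l + j) ≤
          finrank W.K (W.H X) ^ 2 * (finrank W.K (W.H X) ^ (2 * j) * τ.al S l) :=
          Nat.mul_le_mul_left _ ih
      _ = _ := by ring

lemma al_le_C (l : ℕ) : τ.al S l ≤ finrank W.K (S.C ((τ.B l).prod (τ.B l))) :=
  Sy.a_le_C S S (fun _ => le_rfl) _

/-- **The square root law along a tower.** -/
theorem law (hpos : ∀ l, 0 < τ.al S l) {A : ℕ}
    (h0 : τ.al S 0 ≤ finrank W.K (W.H X) ^ 2 * A)
    (hgrow : ∀ l, finrank W.K (W.H X) ^ (2 * (l + 1)) * A ≤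
      finrank W.K (S.C ((τ.B l).prod (τ.B l))) * (l + 2) ^ (finrank W.K (W.H X) ^ 2)) {q : ℕ}
    (hN : S.Num (pw X q) ≠ ⊥) (L : ℕ) :
    1 / (4 * √(2 * kk (finrank W.K (W.H X)) q + 2)) * rt L * τ.al S L ≤
      finrank W.K (S.C ((τ.B L).prod (τ.B L))) := by
  set b := finrank W.K (W.H X) with hb
  obtain ⟨z, hz, hz0⟩ := Submodule.exists_mem_ne_zero_of_ne_bot hN
  have hb1 : 1 ≤ b := by
    rw [Nat.one_le_iff_ne_zero]
    intro h
    have h1 := τ.al_succ_le S 0
    rw [← hb, h] at h1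
    have := hpos (0 + 1)
    omega
  have hb1' : (1 : ℝ) ≤ b := by exact_mod_cast hb1
  set K : ℝ := kk b q with hK
  have hu1 : (1 : ℝ) ≤ (b : ℝ) ^ (2 * (q + 1)) := one_le_pow₀ hb1'
  have hK1 : (288 : ℝ) ≤ K := by
    rw [hK, kk]
    have hq : (1 : ℝ) ≤ (q : ℝ) + 1 := by linarith [Nat.cast_nonneg (α := ℝ) q]
    have hb2 : (2 : ℝ) ≤ (b : ℝ) ^ 2 + 1 := by nlinarith
    calc (288 : ℝ) = 144 * 1 * 1 * 2 := by norm_num
      _ ≤ 144 * (b : ℝ) ^ (2 * (q + 1)) * ((q : ℝ) + 1) * ((b : ℝ) ^ 2 + 1) := by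
          gcongr
  have hK0 : 0 < K := by linarith
  set lg : ℝ := Real.log ((L : ℝ) + 2) with hlg
  have hlg0 : (1 : ℝ) / 2 ≤ lg := log_two_le
  have hlgpos : 0 < lg := by linarith
  set c₀ : ℝ := 1 / (4 * √(2 * K + 2)) with hc₀
  have hsq : 0 < √(2 * K + 2) := Real.sqrt_pos.2 (by linarith)
  have hc₀0 : 0 < c₀ := by positivity
  have hal0 : (0 : ℝ) ≤ τ.al S L := Nat.cast_nonneg _
  have halC : (τ.al S L : ℝ) ≤ finrank W.K (S.C ((τ.B L).prod (τ.B L))) := by
    exact_mod_cast τ.al_le_C S L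
  have hL0 : (0 : ℝ) ≤ L := Nat.cast_nonneg _
  set x : ℝ := √((L : ℝ) / (K * lg)) with hx
  rcases lt_or_ge x 1 with hx1 | hx1
  · -- small `L`
    have h1 : (L : ℝ) / (K * lg) < 1 := by
      have h2 := Real.sqrt_lt_sqrt_iff (x := (L : ℝ) / (K * lg)) (y := 1) (by positivity)
      rw [Real.sqrt_one] at h2
      exact h2.1 hx1
    rw [div_lt_one (by positivity)] at h1
    have h2 : ((L : ℝ) + 1) / lg ≤ K + 2 := by
      rw [div_le_iff₀ hlgpos]
      nlinarith
    have h3 : rt L ≤ √(2 * K + 2) := Real.sqrt_le_sqrt (by linarith)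
    have h4 : c₀ * rt L ≤ 1 := by
      calc c₀ * rt L ≤ c₀ * √(2 * K + 2) := mul_le_mul_of_nonneg_left h3 hc₀0.le
        _ = 1 / 4 := by rw [hc₀]; field_simp
        _ ≤ 1 := by norm_num
    calc c₀ * rt L * τ.al S L ≤ 1 * τ.al S L := mul_le_mul_of_nonneg_right h4 hal0
      _ ≤ _ := by rw [one_mul]; exact halC
  -- large `L`
  have hxsq : x ^ 2 = (L : ℝ) / (K * lg) := Real.sq_sqrt (by positivity)
  have hLK : K * lg ≤ L := by
    have h1 : (1 : ℝ) ≤ x ^ 2 := one_le_pow₀ hx1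
    rw [hxsq, le_div_iff₀ (by positivity), one_mul] at h1
    exact h1
  have hL1 : 1 ≤ L := by
    have h1 : (0 : ℝ) < L := lt_of_lt_of_le (by positivity) hLK
    have : 0 < L := by exact_mod_cast h1
    omega
  have hL1' : (1 : ℝ) ≤ L := by exact_mod_cast hL1
  have hlg1 : (1 : ℝ) ≤ lg := log_one_le hL1
  set s : ℕ := ⌊x⌋₊ with hs
  have hs1 : 1 ≤ s := Nat.le_floor (by exact_mod_cast hx1)
  have hs1' : (1 : ℝ) ≤ s := by exact_mod_cast hs1
  have hsx : (s : ℝ) ≤ x := Nat.floor_le (by positivity)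
  have hxs : x < s + 1 := Nat.lt_floor_add_one x
  set u : ℕ := b ^ (2 * (q + 1)) with hu
  have hu' : (u : ℝ) = (b : ℝ) ^ (2 * (q + 1)) := by rw [hu]; push_cast; ring
  have hu1n : (1 : ℝ) ≤ u := by rw [hu']; exact hu1
  set N : ℕ := 8 * u * s ^ 2 with hNdef
  set j : ℕ := (q + 1) * (N + 1) with hj
  -- the size of `j`
  have hjle : (j : ℝ) ≤ (L : ℝ) / (16 * ((b : ℝ) ^ 2 + 1) * lg) := by
    have h1 : (j : ℝ) = ((q : ℝ) + 1) * (8 * u * (s : ℝ) ^ 2 + 1) := by
      rw [hj, hNdef]; push_cast; ring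
    have h2 : (1 : ℝ) ≤ u * (s : ℝ) ^ 2 := by
      calc (1 : ℝ) = 1 * 1 := by norm_num
        _ ≤ u * (s : ℝ) ^ 2 := mul_le_mul hu1n (one_le_pow₀ hs1') zero_le_one (by linarith)
    have h3 : (s : ℝ) ^ 2 ≤ (L : ℝ) / (K * lg) := by
      rw [← hxsq]
      exact pow_le_pow_left₀ (by linarith) hsx 2
    calc (j : ℝ) = ((q : ℝ) + 1) * (8 * u * (s : ℝ) ^ 2 + 1) := h1
      _ ≤ ((q : ℝ) + 1) * (9 * (u * (s : ℝ) ^ 2)) := by
          apply mul_le_mul_of_nonneg_left _ (by positivity)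
          linarith
      _ ≤ ((q : ℝ) + 1) * (9 * (u * ((L : ℝ) / (K * lg)))) := by
          gcongr
      _ = (L : ℝ) / (16 * ((b : ℝ) ^ 2 + 1) * lg) := by
          rw [hK, kk, ← hu']
          field_simp
          norm_num
  have hjL : (j : ℝ) ≤ L / 32 := by
    refine hjle.trans ?_
    apply div_le_div_of_nonneg_left hL0 (by norm_num)
    have hb2 : (2 : ℝ) ≤ (b : ℝ) ^ 2 + 1 := by nlinarith
    calc (32 : ℝ) = 16 * 2 * 1 := by norm_num
      _ ≤ 16 * ((b : ℝ) ^ 2 + 1) * lg := by gcongr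
  have hjL' : 32 * j ≤ L := by
    have h1 : (32 : ℝ) * j ≤ L := by linarith
    exact_mod_cast h1
  obtain ⟨l, hl⟩ : ∃ l, L = l + j := ⟨L - j, by omega⟩
  have hl1 : 1 ≤ l := by omega
  have hlL : L ≤ 2 * l := by omega
  have hlL' : (L : ℝ) ≤ 2 * l := by exact_mod_cast hlL
  have hl1' : (1 : ℝ) ≤ l := by exact_mod_cast hl1
  by_cases hG : finrank W.K (S.C ((τ.B L).prod (τ.B L))) ≤ L * τ.al S L
  · -- the polynomial lower bound for the rank
    have hlow : b ^ (2 * (l + 1)) * A ≤ τ.al S l * (l + 2) ^ (2 * (b ^ 2 + 1)) := by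
      have h1 := hgrow L
      have h2 : b ^ (2 * (L + 1)) * A ≤ L * τ.al S L * (L + 2) ^ (b ^ 2) :=
        h1.trans (Nat.mul_le_mul_right _ hG)
      have h3 : τ.al S L ≤ b ^ (2 * j) * τ.al S l := by
        rw [hl]
        exact τ.al_add_le S l j
      have h4 : b ^ (2 * j) * (b ^ (2 * (l + 1)) * A) ≤
          b ^ (2 * j) * (τ.al S l * (L + 2) ^ (b ^ 2 + 1)) := by
        calc b ^ (2 * j) * (b ^ (2 * (l + 1)) * A) = b ^ (2 * (L + 1)) * A := by
              rw [hl]; ring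
          _ ≤ L * τ.al S L * (L + 2) ^ (b ^ 2) := h2
          _ ≤ (L + 2) * (b ^ (2 * j) * τ.al S l) * (L + 2) ^ (b ^ 2) := by
              apply Nat.mul_le_mul_right
              exact Nat.mul_le_mul (by omega) h3
          _ = _ := by ring
      have h5 := Nat.le_of_mul_le_mul_left h4 (Nat.pow_pos (by omega))
      refine h5.trans (Nat.mul_le_mul_left _ ?_)
      rw [pow_mul (l + 2) 2]
      apply Nat.pow_le_pow_left
      nlinarith
    have hk : ((q : ℝ) + 1) * ((N : ℝ) + 1) * (((2 * (b ^ 2 + 1) : ℕ) : ℝ) *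
        Real.log ((l : ℝ) + 2) / l) ≤ 1 / 4 := by
      have h1 : Real.log ((l : ℝ) + 2) ≤ lg := by
        apply Real.log_le_log (by linarith)
        have : (l : ℝ) ≤ L := by exact_mod_cast (show l ≤ L by omega)
        linarith
      have h2 : ((q : ℝ) + 1) * ((N : ℝ) + 1) = j := by rw [hj]; push_cast; ring
      have h3 : Real.log ((l : ℝ) + 2) / l ≤ lg * (2 / L) := by
        rw [div_eq_mul_one_div]
        apply mul_le_mul h1 _ (by positivity) hlgpos.le
        rw [div_le_div_iff₀ (by linarith) (by linarith)]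
        linarith
      rw [h2]
      have h4 : (((2 * (b ^ 2 + 1) : ℕ) : ℝ) * Real.log ((l : ℝ) + 2) / l) ≤
          2 * ((b : ℝ) ^ 2 + 1) * (lg * (2 / L)) := by
        rw [mul_div_assoc]
        push_cast
        exact mul_le_mul_of_nonneg_left h3 (by positivity)
      calc (j : ℝ) * (((2 * (b ^ 2 + 1) : ℕ) : ℝ) * Real.log ((l : ℝ) + 2) / l) ≤
            (L : ℝ) / (16 * ((b : ℝ) ^ 2 + 1) * lg) * (2 * ((b : ℝ) ^ 2 + 1) * (lg * (2 / L))) := by
            apply mul_le_mul hjle h4 _ (by positivity)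
            have : 0 ≤ Real.log ((l : ℝ) + 2) := Real.log_nonneg (by linarith)
            positivity
        _ = 1 / 4 := by
            field_simp
            norm_num
    have hlev := τ.level S hpos h0 hz hz0 hl1 hlow (s := s) (N := N) hs1 (by
      apply le_of_eq
      rw [hNdef, ← hb, ← hu]
      ring) hk
    rw [← hj, ← hl] at hlev
    have hlev' : ((s : ℝ) + 1) * τ.al S L ≤
        4 * finrank W.K (S.C ((τ.B L).prod (τ.B L))) := by exact_mod_cast hlev
    -- compare the rates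
    have h1 : rt L ≤ √(2 * K) * x := by
      rw [hx, ← Real.sqrt_mul (by positivity)]
      apply Real.sqrt_le_sqrt
      have e1 : 2 * K * ((L : ℝ) / (K * lg)) = 2 * L / lg := by field_simp
      rw [e1]
      apply div_le_div_of_nonneg_right _ hlgpos.le
      linarith
    have h2 : c₀ * √(2 * K) ≤ 1 / 4 := by
      have h3 : √(2 * K) ≤ √(2 * K + 2) := Real.sqrt_le_sqrt (by linarith)
      calc c₀ * √(2 * K) ≤ c₀ * √(2 * K + 2) := mul_le_mul_of_nonneg_left h3 hc₀0.le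
        _ = 1 / 4 := by rw [hc₀]; field_simp
    have hx0 : 0 ≤ x := Real.sqrt_nonneg _
    calc c₀ * rt L * τ.al S L ≤ c₀ * (√(2 * K) * x) * τ.al S L := by
          apply mul_le_mul_of_nonneg_right _ hal0
          exact mul_le_mul_of_nonneg_left h1 hc₀0.le
      _ = (c₀ * √(2 * K)) * x * τ.al S L := by ring
      _ ≤ (1 / 4) * (s + 1) * τ.al S L := by
          apply mul_le_mul_of_nonneg_right _ hal0
          exact mul_le_mul h2 hxs.le hx0 (by norm_num)
      _ = (((s : ℝ) + 1) * τ.al S L) / 4 := by ring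
      _ ≤ _ := by linarith
  · push Not at hG
    have hG' : (L : ℝ) * τ.al S L ≤ finrank W.K (S.C ((τ.B L).prod (τ.B L))) := by
      exact_mod_cast hG.le
    have h1 : rt L ≤ 2 * L := by
      rw [rt, Real.sqrt_le_left (by positivity), div_le_iff₀ hlgpos]
      nlinarith
    have h2 : c₀ ≤ 1 / 4 := by
      rw [hc₀]
      apply one_div_le_one_div_of_le (by norm_num)
      have h3 : (1 : ℝ) ≤ √(2 * K + 2) := by
        rw [Real.one_le_sqrt]
        linarith
      linarith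
    calc c₀ * rt L * τ.al S L ≤ (1 / 4) * (2 * L) * τ.al S L := by
          apply mul_le_mul_of_nonneg_right _ hal0
          exact mul_le_mul h2 h1 (rt_nonneg L) (by norm_num)
      _ ≤ L * τ.al S L := by
          apply mul_le_mul_of_nonneg_right _ hal0
          linarith
      _ ≤ _ := hG'

end Tower

end Pool.Agent.Helper14G
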