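import Pool.Agent.Helper14G.Rate

/-!
# Towers: the products of a fixed variety with the powers of `X`
-/

open CategoryTheory AlgebraicGeometry

universe u v

namespace Pool.Agent.Helper14G

open Module
open Pool.Agent.H914 Pool.Agent.H914.VarClass Pool.Agent.H914.VarClass.Obj
  Pool.Agent.H914.WeilCohomology
open Pool.Agent.Y133.Half

/-- The rate of convergence of the ratios of a log-convex sequence, with a normalisation `A`. -/
lemma seq_rate' {α : ℕ → ℕ} {b A E : ℕ} (hb : 1 ≤ b) (hpos : ∀ l, 0 < α l)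
    (hconv : ∀ l, α (l + 1) ^ 2 ≤ α (l + 2) * α l) (hup : ∀ l, α (l + 1) ≤ b ^ 2 * α l)
    (h0 : α 0 ≤ b ^ 2 * A) {l : ℕ} (hl : 1 ≤ l)
    (hlow : b ^ (2 * (l + 1)) * A ≤ α l * (l + 2) ^ E) (j : ℕ) :
    (b : ℝ) ^ (2 * j) - α (l + j) / α l ≤
      j * (b : ℝ) ^ (2 * j) * (E * Real.log ((l : ℝ) + 2) / l) := by
  have hb0 : (0 : ℝ) < b := by exact_mod_cast hb
  have hA : 0 < A := by
    rw [Nat.pos_iff_ne_zero]
    intro h
    rw [h, mul_zero] at h0
    exact absurd (hpos 0) (by omega)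
  have hA0 : (0 : ℝ) < A := by exact_mod_cast hA
  have hα : ∀ i, (0 : ℝ) < α i := fun i => by exact_mod_cast hpos i
  have hl0 : (0 : ℝ) < l := by exact_mod_cast hl
  set ρ : ℝ := (α (l + 1) : ℝ) / α l with hρ
  have hρ0 : 0 < ρ := div_pos (hα _) (hα _)
  have hρb : ρ ≤ (b : ℝ) ^ 2 := by
    rw [hρ, div_le_iff₀ (hα l)]
    exact_mod_cast hup l
  -- the ratios before `l`
  have h1 : ∀ i ≤ l, (α i : ℝ) ≤ ρ ^ i * α 0 := by
    intro i
    induction i with
    | zero => intro _; simp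
    | succ i ih =>
      intro hi
      have h2 : (α (i + 1) : ℝ) / α i ≤ ρ := by
        have h3 : (α (i + 1) : ℝ) / α i * α i ≤ α (i + 1) := by
          rw [div_mul_cancel₀ _ (hα i).ne']
        have h4 := ratio_mono hpos hconv h3 (show i ≤ l by omega)
        rw [hρ, le_div_iff₀ (hα l)]
        exact h4
      rw [div_le_iff₀ (hα i)] at h2
      calc (α (i + 1) : ℝ) ≤ ρ * α i := h2
        _ ≤ ρ * (ρ ^ i * α 0) := mul_le_mul_of_nonneg_left (ih (by omega)) hρ0.le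
        _ = ρ ^ (i + 1) * α 0 := by ring
  have h2 := h1 l le_rfl
  have h3 : (b : ℝ) ^ (2 * (l + 1)) * A ≤ α l * ((l : ℝ) + 2) ^ E := by exact_mod_cast hlow
  have h4 : (α 0 : ℝ) ≤ (b : ℝ) ^ 2 * A := by exact_mod_cast h0
  have h5 : (((b : ℝ) ^ 2) ^ l) ≤ ρ ^ l * ((l : ℝ) + 2) ^ E := by
    have h6 : ((b : ℝ) ^ 2 * A) * ((b : ℝ) ^ 2) ^ l ≤
        ((b : ℝ) ^ 2 * A) * (ρ ^ l * ((l : ℝ) + 2) ^ E) := by
      calc ((b : ℝ) ^ 2 * A) * ((b : ℝ) ^ 2) ^ l = (b : ℝ) ^ (2 * (l + 1)) * A := by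
            rw [← pow_mul]; ring
        _ ≤ α l * ((l : ℝ) + 2) ^ E := h3
        _ ≤ (ρ ^ l * ((b : ℝ) ^ 2 * A)) * ((l : ℝ) + 2) ^ E := by
            apply mul_le_mul_of_nonneg_right _ (by positivity)
            exact h2.trans (mul_le_mul_of_nonneg_left h4 (by positivity))
        _ = _ := by ring
    exact le_of_mul_le_mul_left h6 (by positivity)
  have hlog : (l : ℝ) * Real.log ((b : ℝ) ^ 2) ≤
      l * Real.log ρ + E * Real.log ((l : ℝ) + 2) := by
    have h6 := Real.log_le_log (by positivity) h5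
    rw [Real.log_mul (by positivity) (by positivity), Real.log_pow _ l,
      Real.log_pow _ l, Real.log_pow _ E] at h6
    exact h6
  set x : ℝ := ρ / (b : ℝ) ^ 2 with hx
  have hx0 : 0 < x := by positivity
  have hx1 : x ≤ 1 := by
    rw [hx, div_le_one (by positivity)]
    exact hρb
  have h6 : 1 - x ≤ E * Real.log ((l : ℝ) + 2) / l := by
    have h7 := Real.log_le_sub_one_of_pos hx0
    have h8 : Real.log x = Real.log ρ - Real.log ((b : ℝ) ^ 2) := by
      rw [hx, Real.log_div hρ0.ne' (by positivity)]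
    rw [h8] at h7
    have h9 := Real.one_sub_inv_le_log_of_pos hx0
    rw [le_div_iff₀ hl0]
    have h10 : 1 - x ≤ - Real.log x := by linarith [h7, h8]
    rw [h8] at h10
    nlinarith
  have h7 : 1 - x ^ j ≤ j * (1 - x) := by
    have := one_add_mul_le_pow (a := x - 1) (by linarith) j
    have h9 : 1 + (x - 1) = x := by ring
    rw [h9] at this
    linarith
  have h8 : ρ ^ j * α l ≤ α (l + j) := by
    refine ratio_pow hρ0.le (l₀ := l) (fun n hn => ?_) j l le_rfl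
    refine ratio_mono hpos hconv ?_ hn
    rw [hρ, div_mul_cancel₀ _ (hα l).ne']
  have h9 : ρ ^ j ≤ (α (l + j) : ℝ) / α l := by rw [le_div_iff₀ (hα l)]; exact h8
  have h10 : ρ ^ j = (b : ℝ) ^ (2 * j) * x ^ j := by
    have h11 : (b : ℝ) ^ 2 * x = ρ := by
      rw [hx, mul_div_cancel₀]
      positivity
    rw [pow_mul, ← mul_pow, h11]
  calc (b : ℝ) ^ (2 * j) - α (l + j) / α l ≤ (b : ℝ) ^ (2 * j) - ρ ^ j := by linarith
    _ = (b : ℝ) ^ (2 * j) * (1 - x ^ j) := by rw [h10]; ring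
    _ ≤ (b : ℝ) ^ (2 * j) * (j * (E * Real.log ((l : ℝ) + 2) / l)) := by
        apply mul_le_mul_of_nonneg_left _ (by positivity)
        exact h7.trans (mul_le_mul_of_nonneg_left h6 (Nat.cast_nonneg _))
    _ = _ := by ring

variable {k : Type u} [Field k] {𝒱 : VarClass k} {ops : CycleOps 𝒱}
  {W : WeilCohomology.{u, v} ops} {P Q Z X Y : 𝒱.Obj}

/-- A tower over `X`: each member is the product of the previous one with `X`. -/
structure Tower (X : 𝒱.Obj) where
  /-- the members -/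
  B : ℕ → 𝒱.Obj
  /-- the isomorphisms -/
  θ : ∀ l, B (l + 1) ≅ (B l).prod X

namespace Tower

variable (τ : Tower X)

/-- The members as products with powers of `X`. -/
noncomputable def iso (l : ℕ) : ∀ i, τ.B (l + (i + 1)) ≅ (τ.B l).prod (pw X i)
  | 0 => τ.θ l
  | i + 1 => τ.θ (l + (i + 1)) ≪≫ prodCongr (iso l i) (Iso.refl X) ≪≫ θ₃ (τ.B l) (pw X i) X

/-- The squares of the members as products with powers of `X`. -/
noncomputable def isoSq (l i : ℕ) : (pw X (i + i + 1)).prod ((τ.B l).prod (τ.B l)) ≅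
    (τ.B (l + (i + 1))).prod (τ.B (l + (i + 1))) :=
  (prodCongr (pwAdd X i i).symm (Iso.refl _)) ≪≫ (θ₂ (pw X i) (τ.B l) (pw X i) (τ.B l)).symm ≪≫
    prodCongr (prodComm _ _) (prodComm _ _) ≪≫ prodCongr (τ.iso l i).symm (τ.iso l i).symm

variable (S : Sys W)

/-- The rank of the intersection form on the square of a member. -/
noncomputable def al (l : ℕ) : ℕ := S.a ((τ.B l).prod (τ.B l))

lemma a_pw {M l j : ℕ} (θ : P ≅ pw X M) (hj : M + 1 = 2 * j) :
    S.a (P.prod ((τ.B l).prod (τ.B l))) = τ.al S (l + j) := by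
  obtain ⟨i, rfl⟩ : ∃ i, j = i + 1 := ⟨j - 1, by omega⟩
  obtain rfl : M = i + i + 1 := by omega
  exact S.a_iso (prodCongr θ (Iso.refl _) ≪≫ τ.isoSq l i)

lemma al_succ_le (l : ℕ) : τ.al S (l + 1) ≤ finrank W.K (W.H X) ^ 2 * τ.al S l := by
  rw [← τ.a_pw S (M := 1) (l := l) (j := 1) (Iso.refl _) rfl, ← finrank_pw (W := W) X 1]
  exact S.a_le _ _

lemma al_convex (l : ℕ) : τ.al S (l + 1) ^ 2 ≤ τ.al S (l + 2) * τ.al S l := by
  have h := S.cs (P := pw X 1) (g := 1) (g' := 1) Sys.Op.id rfl Adj.one (τ.B l)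
  rw [extOp_one, Sys.r_one, Sys.r_one, τ.a_pw S (M := 1) (l := l) (j := 1) (Iso.refl _) rfl,
    τ.a_pw S (M := 3) (l := l) (j := 2) (pwAdd X 1 1) rfl] at h
  exact h

/-- The defect of a power of `X` with respect to a member of the tower. -/
theorem df_one_le (hpos : ∀ l, 0 < τ.al S l) {A E : ℕ}
    (h0 : τ.al S 0 ≤ finrank W.K (W.H X) ^ 2 * A) {M j : ℕ} (θ : P ≅ pw X M)
    (hM : M + 1 = 2 * j) {l : ℕ} (hl : 1 ≤ l)
    (hlow : finrank W.K (W.H X) ^ (2 * (l + 1)) * A ≤ τ.al S l * (l + 2) ^ E) :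
    Sy.df S P 1 (τ.B l) ≤ j * (finrank W.K (W.H X) : ℝ) ^ (2 * j) *
      (E * Real.log ((l : ℝ) + 2) / l) := by
  have hb : 1 ≤ finrank W.K (W.H X) := by
    rw [Nat.one_le_iff_ne_zero]
    intro h
    have h1 := τ.al_succ_le S 0
    rw [h] at h1
    have := hpos (0 + 1)
    omega
  have h1 := seq_rate' hb hpos (τ.al_convex S) (τ.al_succ_le S) h0 hl hlow j
  have h2 : rg (1 : Module.End W.K (W.H P)) = finrank W.K (W.H X) ^ (2 * j) := by
    rw [show rg (1 : Module.End W.K (W.H P)) = finrank W.K (W.H P) from Sys.rank_one P,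
      finrank_iso θ, finrank_pw, hM]
  have h3 : S.r P 1 ((τ.B l).prod (τ.B l)) = τ.al S (l + j) := by
    rw [S.r_one]
    exact τ.a_pw S θ hM
  have h4 : S.a ((τ.B l).prod (τ.B l)) = τ.al S l := rfl
  rw [Sy.df, h2, h3, h4]
  push_cast
  exact h1

end Tower

end Pool.Agent.Helper14G
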