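import Pool.Agent.Helper14G.Ann
import Pool.Agent.Helper14G.Tower
import Pool.Agent.Helper14G.Ker

/-!
# Square root growth along a tower
-/

open CategoryTheory AlgebraicGeometry

universe u v

namespace Pool.Agent.Helper14G

open Module
open Pool.Agent.H914 Pool.Agent.H914.VarClass Pool.Agent.H914.VarClass.Obj
  Pool.Agent.H914.WeilCohomology
open Pool.Agent.Y133.Half

variable {k : Type u} [Field k] {𝒱 : VarClass k} {ops : CycleOps 𝒱}
  {W : WeilCohomology.{u, v} ops} {P Q Z X Y : 𝒱.Obj}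

/-- The powers of a power. -/
lemma pw_pw (X : 𝒱.Obj) (a N : ℕ) :
    ∃ M, M + 1 = (a + 1) * (N + 1) ∧ Nonempty (pw (pw X a) N ≅ pw X M) := by
  induction N with
  | zero => exact ⟨a, by ring, ⟨Iso.refl _⟩⟩
  | succ N ih =>
    obtain ⟨M, hM, ⟨θ⟩⟩ := ih
    exact ⟨M + a + 1, by linarith, ⟨prodCongr θ (Iso.refl _) ≪≫ pwAdd X M a⟩⟩

namespace Tower

variable (S : Sys W) (τ : Tower X)

/-- **The lower bound at a single level of a tower.** -/
theorem level (hpos : ∀ l, 0 < τ.al S l) {A E : ℕ}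
    (h0 : τ.al S 0 ≤ finrank W.K (W.H X) ^ 2 * A) {q : ℕ} {z : W.H (pw X q)}
    (hz : z ∈ S.Num (pw X q)) (hz0 : z ≠ 0) {l : ℕ} (hl : 1 ≤ l)
    (hlow : finrank W.K (W.H X) ^ (2 * (l + 1)) * A ≤ τ.al S l * (l + 2) ^ E)
    {s N : ℕ} (hs : 1 ≤ s)
    (hN : finrank W.K (W.H X) ^ (2 * (q + 1)) * (4 * s) ^ 2 ≤ 2 * N)
    (hk : ((q : ℝ) + 1) * ((N : ℝ) + 1) * (E * Real.log ((l : ℝ) + 2) / l) ≤ 1 / 4) :
    (s + 1) * τ.al S (l + (q + 1) * (N + 1)) ≤ 4 * finrank W.K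
      (S.C ((τ.B (l + (q + 1) * (N + 1))).prod (τ.B (l + (q + 1) * (N + 1))))) := by
  classical
  set b := finrank W.K (W.H X) with hb
  set u := b ^ (2 * (q + 1)) with hu
  set ε : ℝ := E * Real.log ((l : ℝ) + 2) / l with hε
  have hε0 : 0 ≤ ε := by
    have h1 : 0 ≤ Real.log ((l : ℝ) + 2) := Real.log_nonneg (by
      have : (0 : ℝ) ≤ l := Nat.cast_nonneg _
      linarith)
    positivity
  let Y := pw X (q + q + 1)
  have ha : 0 < S.a ((τ.B l).prod (τ.B l)) := hpos l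
  have hfY : finrank W.K (W.H Y) = u := by
    rw [finrank_pw, hu]
    congr 1
    ring
  -- the class on `Y`
  set f : Y ⟶ pw X q := (pwAdd X q q).inv ≫ fst _ _ with hf
  have hz1 : W.map f z ∈ S.Num Y := Sys.Num.map f hz
  have hz10 : W.map f z ≠ 0 := by
    intro h
    rw [hf, W.map_comp] at h
    have h5 : W.map (fst (pw X q) (pw X q)) z = 0 := by
      have h6 := congrArg (W.map (pwAdd X q q).hom) h
      rw [← W.map_comp, Iso.hom_inv_id, W.map_id, map_zero] at h6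
      exact h6
    have h7 : xp W z (1 : W.H (pw X q)) = 0 := by rw [xp, h5, zero_mul]
    exact hz0 (xp_eq_zero_right (one_ne_zero_of hz0) h7)
  have hu1 : 1 ≤ u := by
    rw [← hfY, Nat.one_le_iff_ne_zero]
    intro h0
    exact hz10 (finrank_zero_iff_forall_zero.1 h0 _)
  have hu0 : (1 : ℝ) ≤ u := by exact_mod_cast hu1
  -- the defect of `Y`
  have huN : (u : ℝ) ≤ (N : ℝ) + 1 := by
    have h1 : u * 1 ≤ u * (4 * s) ^ 2 := Nat.mul_le_mul_left _ (Nat.one_le_pow _ _ (by omega))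
    have h2 : 8 * u ≤ N := by
      have h3 : u * 16 ≤ u * (4 * s) ^ 2 := by
        apply Nat.mul_le_mul_left
        calc 16 = (4 * 1) ^ 2 := by norm_num
          _ ≤ (4 * s) ^ 2 := Nat.pow_le_pow_left (by omega) 2
      omega
    have h3 : u ≤ N + 1 := by omega
    exact_mod_cast h3
  have h4 : Sy.df S Y 1 (τ.B l) < 1 := by
    have h1 := τ.df_one_le S hpos h0 (P := Y) (M := q + q + 1) (j := q + 1) (Iso.refl _) (by ring)
      hl hlow
    rw [← hb, ← hε] at h1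
    have h2 : (b : ℝ) ^ (2 * (q + 1)) = u := by rw [hu]; push_cast; ring
    rw [h2] at h1
    have h3 : ((q + 1 : ℕ) : ℝ) * (u : ℝ) * ε ≤ ((q : ℝ) + 1) * ((N : ℝ) + 1) * ε := by
      push_cast
      apply mul_le_mul_of_nonneg_right _ hε0
      exact mul_le_mul_of_nonneg_left huN (by positivity)
    linarith
  obtain ⟨y, hy, hy2, hy0⟩ := exists_sq_zero hz1 hz10 ha h4
  have hyev : y ∈ PH W Y 0 := S.even hy.1
  -- the power of `Y`
  obtain ⟨M, hM, ⟨θ⟩⟩ := pw_pw X (q + q + 1) N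
  have hMj : M + 1 = 2 * ((q + 1) * (N + 1)) := by rw [hM]; ring
  have hfP : finrank W.K (W.H (pw Y N)) = u ^ (N + 1) := by rw [finrank_pw, hfY]
  have hD1 : Sy.df S (pw Y N) 1 (τ.B l) ≤ (u : ℝ) ^ (N + 1) * (1 / 4) := by
    have h5 := τ.df_one_le S hpos h0 (P := pw Y N) (M := M) (j := (q + 1) * (N + 1)) θ hMj hl hlow
    rw [← hb, ← hε] at h5
    have h6 : (b : ℝ) ^ (2 * ((q + 1) * (N + 1))) = (u : ℝ) ^ (N + 1) := by
      rw [hu]
      push_cast
      rw [← pow_mul]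
      ring
    rw [h6] at h5
    calc Sy.df S (pw Y N) 1 (τ.B l) ≤ _ := h5
      _ = (u : ℝ) ^ (N + 1) * (((q : ℝ) + 1) * ((N : ℝ) + 1) * ε) := by push_cast; ring
      _ ≤ _ := mul_le_mul_of_nonneg_left hk (by positivity)
  set ν : Module.End W.K (W.H (pw Y N)) := LinearMap.mulLeft W.K (zt y N) with hν
  have hνN : ν ∈ S.NOp (pw Y N) (pw Y N) := Sy.mulLeft_nop S (zt_num hy N)
  have hνs : ν ^ s = LinearMap.mulLeft W.K (zt y N ^ s) := by
    rw [hν, LinearMap.pow_mulLeft]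
  have hrank : (u : ℝ) ^ (N + 1) ≤ 2 * finrank W.K (LinearMap.range (ν ^ s)) := by
    rw [hνs, ← hfY]
    exact rank_zt_pow hyev hy2 hy0 hs (by rw [hfY]; exact hN)
  have key := Sy.chain_ann S hνN ha s
  have e1 : τ.al S (l + (q + 1) * (N + 1)) ≤ u ^ (N + 1) * S.a ((τ.B l).prod (τ.B l)) := by
    rw [← τ.a_pw S θ hMj, ← hfP]
    exact S.a_le _ _
  have e2 : finrank W.K (S.C ((τ.B (l + (q + 1) * (N + 1))).prod
      (τ.B (l + (q + 1) * (N + 1))))) =
      finrank W.K (S.C ((pw Y N).prod ((τ.B l).prod (τ.B l)))) := by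
    obtain ⟨i, hi⟩ : ∃ i, (q + 1) * (N + 1) = i + 1 :=
      ⟨(q + 1) * (N + 1) - 1, by
        have : 1 ≤ (q + 1) * (N + 1) := Nat.one_le_iff_ne_zero.2 (by positivity)
        omega⟩
    rw [hi] at hMj ⊢
    obtain rfl : M = i + i + 1 := by omega
    exact (S.finrank_C_iso (prodCongr θ (Iso.refl _) ≪≫ τ.isoSq l i)).symm
  rw [e2]
  have h5 : (τ.al S (l + (q + 1) * (N + 1)) : ℝ) ≤
      (u : ℝ) ^ (N + 1) * S.a ((τ.B l).prod (τ.B l)) := by exact_mod_cast e1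
  have ha0 : (0 : ℝ) ≤ S.a ((τ.B l).prod (τ.B l)) := Nat.cast_nonneg _
  have hup : (0 : ℝ) < (u : ℝ) ^ (N + 1) := by positivity
  have h6 : (u : ℝ) ^ (N + 1) * (1 / 4) ≤
      (finrank W.K (LinearMap.range (ν ^ s)) : ℝ) - Sy.df S (pw Y N) 1 (τ.B l) := by linarith
  have h7 : ((s : ℝ) + 1) * τ.al S (l + (q + 1) * (N + 1)) ≤
      4 * finrank W.K (S.C ((pw Y N).prod ((τ.B l).prod (τ.B l)))) := by
    calc ((s : ℝ) + 1) * τ.al S (l + (q + 1) * (N + 1)) ≤
          ((s : ℝ) + 1) * ((u : ℝ) ^ (N + 1) * S.a ((τ.B l).prod (τ.B l))) :=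
          mul_le_mul_of_nonneg_left h5 (by positivity)
      _ = 4 * (((s : ℝ) + 1) * ((u : ℝ) ^ (N + 1) * (1 / 4)) * S.a ((τ.B l).prod (τ.B l))) := by
          ring
      _ ≤ 4 * (((s : ℝ) + 1) * ((finrank W.K (LinearMap.range (ν ^ s)) : ℝ) -
          Sy.df S (pw Y N) 1 (τ.B l)) * S.a ((τ.B l).prod (τ.B l))) := by
          apply mul_le_mul_of_nonneg_left _ (by norm_num)
          apply mul_le_mul_of_nonneg_right _ ha0
          exact mul_le_mul_of_nonneg_left h6 (by positivity)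
      _ ≤ _ := mul_le_mul_of_nonneg_left key (by norm_num)
  exact_mod_cast h7

end Tower

end Pool.Agent.Helper14G
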