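import Pool.Agent.Helper14G.SqLaw

/-!
# The square root law for powers, and uniformly for products with squares
-/

open CategoryTheory AlgebraicGeometry

universe u v

namespace Pool.Agent.Helper14G

open Module
open Pool.Agent.H914 Pool.Agent.H914.VarClass Pool.Agent.H914.VarClass.Obj
  Pool.Agent.H914.WeilCohomology
open Pool.Agent.Y133.Half
open scoped TensorProduct

lemma rt_le {n l : ℕ} (h1 : l ≤ n) (h2 : n + 1 ≤ 4 * (l + 1)) : rt n ≤ 2 * rt l := by
  have hl : (0 : ℝ) ≤ l := Nat.cast_nonneg _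
  have hlog : 0 < Real.log ((l : ℝ) + 2) := lt_of_lt_of_le (by norm_num) log_two_le
  have hlog' : Real.log ((l : ℝ) + 2) ≤ Real.log ((n : ℝ) + 2) := by
    apply Real.log_le_log (by linarith)
    have : (l : ℝ) ≤ n := by exact_mod_cast h1
    linarith
  have h3 : (2 : ℝ) * rt l = √(4 * (((l : ℝ) + 1) / Real.log ((l : ℝ) + 2))) := by
    rw [rt, Real.sqrt_mul (by norm_num)]
    congr 1
    rw [show (4 : ℝ) = 2 ^ 2 by norm_num, Real.sqrt_sq (by norm_num)]
  rw [h3]
  apply Real.sqrt_le_sqrt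
  calc ((n : ℝ) + 1) / Real.log ((n : ℝ) + 2) ≤ ((n : ℝ) + 1) / Real.log ((l : ℝ) + 2) :=
        div_le_div_of_nonneg_left (by positivity) hlog hlog'
    _ ≤ (4 * ((l : ℝ) + 1)) / Real.log ((l : ℝ) + 2) := by
        apply div_le_div_of_nonneg_right _ hlog.le
        exact_mod_cast h2
    _ = _ := by ring

lemma rt_zero_le : rt 0 ≤ 2 := by
  have h1 : (1 : ℝ) / 2 ≤ Real.log (((0 : ℕ) : ℝ) + 2) := log_two_le
  have h2 : 0 < Real.log (((0 : ℕ) : ℝ) + 2) := lt_of_lt_of_le (by norm_num) h1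
  rw [rt, Real.sqrt_le_left (by norm_num), div_le_iff₀ h2]
  calc ((0 : ℕ) : ℝ) + 1 = 2 * (1 / 2) := by norm_num
    _ ≤ 2 ^ 2 * Real.log (((0 : ℕ) : ℝ) + 2) := by
        apply mul_le_mul (by norm_num) h1 (by norm_num) (by norm_num)

variable {k : Type u} [Field k] {𝒱 : VarClass k} {ops : CycleOps 𝒱}
  {W : WeilCohomology.{u, v} ops} {P Q Z X Y : 𝒱.Obj}

namespace Sy

variable (S : Sys W)

/-- The rank vanishes for the products with a variety all of whose traces vanish. -/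
lemma a_eq_zero_prod (h : ∀ l ∈ S.C X, W.tr X l = 0) (f : P ⟶ X) : S.a P = 0 := by
  have h1 : ∀ c ∈ S.C P, W.tr P c = 0 := by
    intro c hc
    have h2 := W.tr_push f c 1
    rw [mul_one, map_one, mul_one] at h2
    rw [← h2]
    exact h _ (S.push _ hc)
  have h3 : S.F P 1 = 0 := by
    apply LinearMap.ext
    intro c
    apply LinearMap.ext
    intro d
    exact h1 _ (S.mul c.2 d.2)
  rw [Sys.a, h3, rk]
  simp

/-- If the rank vanishes, all traces vanish. -/
lemma tr_eq_zero_of_a (h : S.a P = 0) : ∀ l ∈ S.C P, W.tr P l = 0 := by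
  intro l hl
  have h1 : LinearMap.range (S.F P 1) = ⊥ := Submodule.finrank_eq_zero.1 h
  have h2 : S.F P 1 = 0 := LinearMap.range_eq_bot.1 h1
  have h3 : S.F P 1 ⟨l, hl⟩ ⟨1, S.one P⟩ = 0 := by rw [h2]; rfl
  rw [Sys.F_apply] at h3
  have h4 : W.tr P (l * 1) = 0 := h3
  rw [mul_one] at h4
  exact h4

/-- External products of classes. -/
lemma finrank_prod_le (P Q : 𝒱.Obj) :
    finrank W.K (S.C P) * finrank W.K (S.C Q) ≤ finrank W.K (S.C (P.prod Q)) := by
  let φ : (S.C P) ⊗[W.K] (S.C Q) →ₗ[W.K] W.H (P.prod Q) :=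
    (kappa W P Q).toLinearMap ∘ₗ TensorProduct.map (S.C P).subtype (S.C Q).subtype
  have hinj : Function.Injective φ := by
    refine (kappa W P Q).injective.comp ?_
    exact TensorProduct.map_injective_of_flat_flat _ _ (Submodule.subtype_injective _)
      (Submodule.subtype_injective _)
  have hle : LinearMap.range φ ≤ S.C (P.prod Q) := by
    rintro _ ⟨x, rfl⟩
    induction x using TensorProduct.induction_on with
    | zero => rw [map_zero]; exact Submodule.zero_mem _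
    | tmul c d =>
      have h1 : φ (c ⊗ₜ d) = xp W (c : W.H P) (d : W.H Q) := by
        change kappa W P Q (TensorProduct.map (S.C P).subtype (S.C Q).subtype (c ⊗ₜ d)) = _
        rw [TensorProduct.map_tmul, kappa_tmul]
        rfl
      rw [h1]
      exact Sys.xp_mem_C S c.2 d.2
    | add x y hx hy => rw [map_add]; exact Submodule.add_mem _ hx hy
  have h1 := Submodule.finrank_mono hle
  rw [LinearMap.finrank_range_of_inj hinj, Module.finrank_tensorProduct] at h1
  exact h1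

end Sy

/-- The powers of `X`. -/
noncomputable def twX (X : 𝒱.Obj) : Tower X where
  B := pw X
  θ _ := Iso.refl _

/-- The products of `Z` with the powers of `X`. -/
noncomputable def twZ (X Z : 𝒱.Obj) : Tower X where
  B l := Z.prod (pw X l)
  θ l := (θ₃ Z (pw X l) X).symm

/-- From the squares of a tower to a sequence of products with `X`. -/
theorem seq_transfer (S : Sys W) (τ : Tower X) {G : ℕ → 𝒱.Obj}
    (hG : ∀ n, Nonempty (G (n + 1) ≅ (G n).prod X))
    (hsq : ∀ l, Nonempty (G (2 * l + 1) ≅ (τ.B l).prod (τ.B l))) (h1 : (1 : W.H X) ≠ 0)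
    {c : ℝ} (hc0 : 0 < c) (hc1 : c ≤ 1 / 4)
    (h : ∀ l, c * rt l * τ.al S l ≤ finrank W.K (S.C ((τ.B l).prod (τ.B l)))) (n : ℕ) :
    c / (2 * (finrank W.K (W.H X) + 1)) * rt n * S.a (G n) ≤ finrank W.K (S.C (G n)) := by
  set b := finrank W.K (W.H X) with hb
  have hb0 : (0 : ℝ) ≤ b := Nat.cast_nonneg _
  have hb1 : (0 : ℝ) < 2 * ((b : ℝ) + 1) := by positivity
  have hC0 : ∀ m, (0 : ℝ) ≤ finrank W.K (S.C (G m)) := fun m => Nat.cast_nonneg _
  have ha0 : ∀ m, (0 : ℝ) ≤ S.a (G m) := fun m => Nat.cast_nonneg _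
  rcases Nat.eq_zero_or_pos n with rfl | hn
  · have h2 : (S.a (G 0) : ℝ) ≤ finrank W.K (S.C (G 0)) := by
      exact_mod_cast Sy.a_le_C S S (fun _ => le_rfl) (G 0)
    have h3 : c / (2 * ((b : ℝ) + 1)) * rt 0 ≤ 1 := by
      calc c / (2 * ((b : ℝ) + 1)) * rt 0 ≤ (1 / 4) / 1 * 2 := by
            apply mul_le_mul _ rt_zero_le (rt_nonneg 0) (by norm_num)
            apply div_le_div₀ (by norm_num) hc1 (by norm_num)
            linarith
        _ ≤ 1 := by norm_num
    calc c / (2 * ((b : ℝ) + 1)) * rt 0 * S.a (G 0) ≤ 1 * S.a (G 0) :=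
          mul_le_mul_of_nonneg_right h3 (ha0 0)
      _ ≤ _ := by rw [one_mul]; exact h2
  obtain ⟨l, hl⟩ : ∃ l, n = 2 * l + 1 ∨ n = 2 * l + 2 := ⟨(n - 1) / 2, by omega⟩
  obtain ⟨φ⟩ := hsq l
  have e1 : S.a (G (2 * l + 1)) = τ.al S l := S.a_iso φ
  have e2 : finrank W.K (S.C (G (2 * l + 1))) =
      finrank W.K (S.C ((τ.B l).prod (τ.B l))) := S.finrank_C_iso φ
  have hodd : c * rt l * S.a (G (2 * l + 1)) ≤ finrank W.K (S.C (G (2 * l + 1))) := by
    rw [e1, e2]; exact h l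
  have hrt : rt n ≤ 2 * rt l := rt_le (by omega) (by omega)
  rcases hl with rfl | rfl
  · calc c / (2 * ((b : ℝ) + 1)) * rt (2 * l + 1) * S.a (G (2 * l + 1)) ≤
          c / (2 * 1) * (2 * rt l) * S.a (G (2 * l + 1)) := by
          apply mul_le_mul_of_nonneg_right _ (ha0 _)
          apply mul_le_mul _ hrt (rt_nonneg _) (by positivity)
          apply div_le_div_of_nonneg_left hc0.le (by norm_num)
          linarith
      _ = c * rt l * S.a (G (2 * l + 1)) := by ring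
      _ ≤ _ := hodd
  · obtain ⟨ψ⟩ := hG (2 * l + 1)
    have e3 : S.a (G (2 * l + 2)) ≤ b * S.a (G (2 * l + 1)) := by
      rw [show S.a (G (2 * l + 2)) = S.a (X.prod ((τ.B l).prod (τ.B l))) from
        S.a_iso (ψ ≪≫ prodComm _ _ ≪≫ prodCongr (Iso.refl X) φ), e1]
      exact S.a_le _ _
    have e4 : finrank W.K (S.C (G (2 * l + 1))) ≤ finrank W.K (S.C (G (2 * l + 2))) := by
      apply S.finrank_C_le (ψ.hom ≫ fst _ _)
      intro x y hxy
      rw [W.map_comp, W.map_comp] at hxy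
      have h8 : xp W (x - y) (1 : W.H X) = 0 := by
        have h9 := map_inj_of_iso (W := W) ψ hxy
        rw [xp, map_sub, h9, sub_self, zero_mul]
      exact sub_eq_zero.1 (xp_eq_zero_right h1 h8)
    have e3' : (S.a (G (2 * l + 2)) : ℝ) ≤ b * S.a (G (2 * l + 1)) := by exact_mod_cast e3
    have e4' : (finrank W.K (S.C (G (2 * l + 1))) : ℝ) ≤ finrank W.K (S.C (G (2 * l + 2))) := by
      exact_mod_cast e4
    have hrl := rt_nonneg l
    calc c / (2 * ((b : ℝ) + 1)) * rt (2 * l + 2) * S.a (G (2 * l + 2)) ≤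
          c / (2 * ((b : ℝ) + 1)) * (2 * rt l) * (b * S.a (G (2 * l + 1))) := by
          apply mul_le_mul _ e3' (ha0 _) (by positivity)
          exact mul_le_mul_of_nonneg_left hrt (by positivity)
      _ = (b / ((b : ℝ) + 1)) * (c * rt l * S.a (G (2 * l + 1))) := by
          field_simp
      _ ≤ 1 * (c * rt l * S.a (G (2 * l + 1))) := by
          apply mul_le_mul_of_nonneg_right _ (mul_nonneg (by positivity) (ha0 _))
          rw [div_le_one (by positivity)]
          linarith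
      _ ≤ _ := by rw [one_mul]; exact hodd.trans e4'

/-- The constant in the square root law. -/
noncomputable def cc (b q : ℕ) : ℝ := 1 / (4 * √(2 * kk b q + 2)) / (2 * ((b : ℝ) + 1))

lemma kk_nonneg (b q : ℕ) : 0 ≤ kk b q := by rw [kk]; positivity

lemma c0_pos (b q : ℕ) : 0 < 1 / (4 * √(2 * kk b q + 2)) := by
  have h1 := kk_nonneg b q
  have : 0 < √(2 * kk b q + 2) := Real.sqrt_pos.2 (by linarith)
  positivity

lemma c0_le (b q : ℕ) : 1 / (4 * √(2 * kk b q + 2)) ≤ 1 / 4 := by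
  have h1 := kk_nonneg b q
  apply one_div_le_one_div_of_le (by norm_num)
  have h3 : (1 : ℝ) ≤ √(2 * kk b q + 2) := by
    rw [Real.one_le_sqrt]
    linarith
  linarith

lemma cc_pos (b q : ℕ) : 0 < cc b q := by
  have := c0_pos b q
  rw [cc]
  positivity

/-- **The square root law for the powers of `X`.** -/
theorem sq_law (S : Sys W) (X : 𝒱.Obj) {q : ℕ} (hN : S.Num (pw X q) ≠ ⊥) (n : ℕ) :
    cc (finrank W.K (W.H X)) q * rt n * S.a (pw X n) ≤ finrank W.K (S.C (pw X n)) := by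
  rcases Sy.al_pos_or S X with h0 | ⟨h1, hpos⟩
  · rw [h0 n, Nat.cast_zero, mul_zero]
    exact Nat.cast_nonneg _
  refine seq_transfer S (twX X) (G := pw X) (fun n => ⟨Iso.refl _⟩) (fun l => ?_) h1
    (c0_pos _ q) (c0_le _ q) (fun L => ?_) n
  · have e1 : 2 * l + 1 = l + l + 1 := by ring
    exact ⟨eqToIso (congrArg (pw X) e1) ≪≫ (pwAdd X l l).symm⟩
  · refine (twX X).law S hpos (A := 1) ?_ ?_ hN L
    · rw [mul_one]
      exact Sy.al_zero_le S X
    · intro l
      rw [mul_one]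
      exact S.growth X l

/-- **The square root law, uniformly for the products with squares.** -/
theorem sq_law_Z (S : Sys W) (X Z : 𝒱.Obj) {q : ℕ} (hN : S.Num (pw X q) ≠ ⊥) (n : ℕ) :
    cc (finrank W.K (W.H X)) q * rt n * S.a ((Z.prod Z).prod (pw X n)) ≤
      finrank W.K (S.C ((Z.prod Z).prod (pw X n))) := by
  by_cases hX : ∀ l ∈ S.C X, W.tr X l = 0
  · rw [Sy.a_eq_zero_prod S hX (snd _ _ ≫ prj X n 0), Nat.cast_zero, mul_zero]
    exact Nat.cast_nonneg _
  push Not at hX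
  obtain ⟨l', hl', hl'0⟩ := hX
  obtain ⟨l₁, hl, hl1⟩ : ∃ l ∈ S.C X, W.tr X l = 1 :=
    ⟨(W.tr X l')⁻¹ • l', Submodule.smul_mem _ _ hl', by
      rw [map_smul, smul_eq_mul, inv_mul_cancel₀ hl'0]⟩
  have h1 : (1 : W.H X) ≠ 0 := one_ne_zero_of (ne_zero_of_tr hl1)
  by_cases hA : S.a (Z.prod Z) = 0
  · rw [Sy.a_eq_zero_prod S (Sy.tr_eq_zero_of_a S hA) (fst (Z.prod Z) (pw X n)), Nat.cast_zero,
      mul_zero]
    exact Nat.cast_nonneg _
  have hA' : 0 < S.a (Z.prod Z) := Nat.pos_of_ne_zero hA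
  -- positivity
  have hGpos : ∀ n, 0 < S.a ((Z.prod Z).prod (pw X n)) := by
    intro n
    induction n with
    | zero => exact lt_of_lt_of_le hA' (Sy.a_le_prod S hl hl1 (Z.prod Z))
    | succ n ih =>
      refine lt_of_lt_of_le ih ?_
      have h2 : S.a ((Z.prod Z).prod (pw X (n + 1))) = S.a (((Z.prod Z).prod (pw X n)).prod X) :=
        S.a_iso (θ₃ (Z.prod Z) (pw X n) X).symm
      rw [h2]
      exact Sy.a_le_prod S hl hl1 _
  have hiso : ∀ l, Nonempty ((Z.prod Z).prod (pw X (2 * l + 1)) ≅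
      (Z.prod (pw X l)).prod (Z.prod (pw X l))) := by
    intro l
    have e1 : 2 * l + 1 = l + l + 1 := by ring
    exact ⟨prodCongr (Iso.refl _) (eqToIso (congrArg (pw X) e1) ≪≫ (pwAdd X l l).symm) ≪≫
      (θ₂ Z (pw X l) Z (pw X l)).symm⟩
  have hpos : ∀ l, 0 < (twZ X Z).al S l := by
    intro l
    obtain ⟨φ⟩ := hiso l
    have h2 : (twZ X Z).al S l = S.a ((Z.prod Z).prod (pw X (2 * l + 1))) := (S.a_iso φ).symm
    rw [h2]
    exact hGpos _
  refine seq_transfer S (twZ X Z) (G := fun n => (Z.prod Z).prod (pw X n))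
    (fun n => ⟨(θ₃ (Z.prod Z) (pw X n) X).symm⟩) hiso h1
    (c0_pos _ q) (c0_le _ q) (fun L => ?_) n
  refine (twZ X Z).law S hpos (A := S.a (Z.prod Z)) ?_ ?_ hN L
  · have h2 : (twZ X Z).al S 0 = S.a ((X.prod X).prod (Z.prod Z)) :=
      S.a_iso (prodCongr (prodComm Z X) (prodComm Z X) ≪≫ θ₂ X Z X Z)
    rw [h2, sq, ← Pool.Agent.Y133.Half.finrank_prod]
    exact S.a_le _ _
  · intro l
    have h2 : finrank W.K (S.C ((Z.prod (pw X l)).prod (Z.prod (pw X l)))) =
        finrank W.K (S.C ((Z.prod Z).prod ((pw X l).prod (pw X l)))) :=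
      S.finrank_C_iso (θ₂ Z (pw X l) Z (pw X l))
    have h3 := Sy.finrank_prod_le S (Z.prod Z) ((pw X l).prod (pw X l))
    have h4 := S.growth X l
    have h5 : S.a (Z.prod Z) ≤ finrank W.K (S.C (Z.prod Z)) :=
      Sy.a_le_C S S (fun _ => le_rfl) _
    change finrank W.K (W.H X) ^ (2 * (l + 1)) * S.a (Z.prod Z) ≤
      finrank W.K (S.C ((Z.prod (pw X l)).prod (Z.prod (pw X l)))) *
        (l + 2) ^ (finrank W.K (W.H X) ^ 2)
    rw [h2]
    calc finrank W.K (W.H X) ^ (2 * (l + 1)) * S.a (Z.prod Z) ≤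
          (finrank W.K (S.C ((pw X l).prod (pw X l))) * (l + 2) ^ (finrank W.K (W.H X) ^ 2)) *
            finrank W.K (S.C (Z.prod Z)) := Nat.mul_le_mul h4 h5
      _ = (finrank W.K (S.C (Z.prod Z)) * finrank W.K (S.C ((pw X l).prod (pw X l)))) *
          (l + 2) ^ (finrank W.K (W.H X) ^ 2) := by ring
      _ ≤ _ := Nat.mul_le_mul_right _ h3

end Pool.Agent.Helper14G
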