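import Pool.Agent.Y133.Half.Main2

/-!
# Chains of stable subspaces seen by an idempotent
-/

set_option linter.unusedSectionVars false

namespace Pool.Agent.Helper14G

open Module Polynomial Pool.Agent.Y133.Half

namespace Ct

variable {ι K : Type*} [Fintype ι] [DecidableEq ι] [Field K] {V : ι → Type*}
  [∀ i, AddCommGroup (V i)] [∀ i, Module K (V i)] [∀ i, FiniteDimensional K (V i)]
  (C : Cat K V)

/-- One step of a chain, seen by the idempotent `e`. -/
theorem step (i : ι) {M' M : Submodule K (V i)} (hM' : C.Stable M') (hM : C.Stable M)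
    (hle : M' ≤ M) {e : V i →ₗ[K] V i} (he : e ∈ C.S i i) (hee : e ∘ₗ e = e)
    (hlt : ∃ m ∈ M, e m ∉ M') : ∃ g ∈ C.S i i, g ∘ₗ g = g ∧ g ≠ 0 ∧ e ∘ₗ g = g ∧ g ∘ₗ e = g ∧
      ∀ j, finrank K (C.gen i j M') + rk (C.B i j g LinearMap.id) ≤ finrank K (C.gen i j M) := by
  classical
  -- an idempotent of minimal rank which is not zero on `M / M'`
  let Q : ℕ → Prop := fun n => ∃ g ∈ C.S i i, (g ∘ₗ g = g ∧ e ∘ₗ g = g ∧ g ∘ₗ e = g) ∧
    (∃ m ∈ M, g m ∉ M') ∧ finrank K (LinearMap.range g) = n
  have hQ : ∃ n, Q n := by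
    obtain ⟨m, hm, hm'⟩ := hlt
    exact ⟨_, e, he, ⟨hee, hee, hee⟩, ⟨m, hm, hm'⟩, rfl⟩
  obtain ⟨g, hg, ⟨hgg, heg, hge⟩, ⟨m, hm, hgm⟩, hn⟩ := Nat.find_spec hQ
  have hmin : ∀ g' ∈ C.S i i, (g' ∘ₗ g' = g' ∧ e ∘ₗ g' = g' ∧ g' ∘ₗ e = g') →
      finrank K (LinearMap.range g') <
      finrank K (LinearMap.range g) → ∀ m ∈ M, g' m ∈ M' := by
    intro g' hg' hgg' hlt' m hm
    by_contra h
    rw [hn] at hlt'
    exact Nat.find_min hQ hlt' ⟨g', hg', hgg', ⟨m, hm, h⟩, rfl⟩
  refine ⟨g, hg, hgg, ?_, heg, hge, fun j => ?_⟩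
  · rintro rfl
    exact hgm (by simp)
  set z := g m with hz
  have hzM : z ∈ M := hM g hg m hm
  have hgz : g z = z := congrArg (fun f : V i →ₗ[K] V i => f m) hgg
  -- the key property
  have key : ∀ x ∈ C.S i i, x z ∈ M' → LinearMap.trace K (V i) (C.p i ∘ₗ g ∘ₗ x) = 0 := by
    intro x hx hxz
    set y : Module.End K (V i) := g ∘ₗ x ∘ₗ g with hy
    have hyS : y ∈ C.S i i := C.mul hg (C.mul hx hg)
    have hgy : g ∘ₗ y = y := by rw [hy, ← LinearMap.comp_assoc, hgg]
    have hyg : y ∘ₗ g = y := by rw [hy, LinearMap.comp_assoc, LinearMap.comp_assoc, hgg]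
    have hyz : y z ∈ M' := by
      rw [hy, LinearMap.comp_apply, LinearMap.comp_apply, hgz]
      exact hM' g hg _ hxz
    obtain ⟨q, hq1, hq2⟩ := exists_fit y
    set u := aeval y q with hu
    have huS : u ∈ C.S i i := C.aeval_mem hyS q
    have hcomm : u * y = y * u := by
      have : Commute (aeval y q) (aeval y (X : K[X])) := by
        rw [Commute, SemiconjBy, ← map_mul, ← map_mul, mul_comm]
      rw [aeval_X] at this
      exact this
    set π := u * y with hπ
    have hπS : π ∈ C.S i i := C.mul huS hyS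
    have hgπ : g * π = π := by
      rw [hcomm, ← mul_assoc]
      exact congrArg (fun f : Module.End K (V i) => f * u) hgy
    have hπg : π * g = π := by
      rw [hπ, mul_assoc]
      exact congrArg (fun f : Module.End K (V i) => u * f) hyg
    have hπ0 : π = 0 := by
      by_contra hne
      have h1 : (g - π) ∘ₗ (g - π) = g - π := by
        change (g - π) * (g - π) = g - π
        rw [sub_mul, mul_sub, mul_sub, hgπ, hπg, hq1, sub_self, sub_zero]
        change g ∘ₗ g - π = _
        rw [hgg]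
      have heg' : e * g = g := heg
      have hge' : g * e = g := hge
      have h1e : e ∘ₗ (g - π) = g - π := by
        change e * (g - π) = g - π
        rw [mul_sub, heg', ← hgπ, ← mul_assoc, heg', hgπ]
      have h1e' : (g - π) ∘ₗ e = g - π := by
        change (g - π) * e = g - π
        rw [sub_mul, hge', ← hπg, mul_assoc, hge', hπg]
      have h2 : (g - π) ∈ C.S i i := Submodule.sub_mem _ hg hπS
      have h3 : finrank K (LinearMap.range (g - π)) < finrank K (LinearMap.range g) := by
        have hle : LinearMap.range (g - π) ≤ LinearMap.range g := by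
          rintro _ ⟨x, rfl⟩
          refine ⟨(g - π) x, ?_⟩
          have : g * (g - π) = g - π := by
            rw [mul_sub, hgπ]
            change g ∘ₗ g - π = _
            rw [hgg]
          exact congrArg (fun f : Module.End K (V i) => f x) this
        apply Submodule.finrank_lt_finrank_of_lt
        refine lt_of_le_of_ne hle ?_
        intro heq
        apply hne
        apply LinearMap.ext
        intro x
        have h4 : π x ∈ LinearMap.range g := ⟨π x, congrArg (fun f : Module.End K (V i) => f x) hgπ⟩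
        rw [← heq] at h4
        obtain ⟨w, hw⟩ := h4
        have h5 : π ((g - π) w) = 0 := by
          have : π * (g - π) = 0 := by rw [mul_sub, hπg, hq1, sub_self]
          exact congrArg (fun f : Module.End K (V i) => f w) this
        rw [hw] at h5
        have h6 : π (π x) = π x := congrArg (fun f : Module.End K (V i) => f x) hq1
        rw [LinearMap.zero_apply, ← h6, h5]
      have h4 : (g - π) z ∈ M' := hmin _ h2 ⟨h1, h1e, h1e'⟩ h3 z hzM
      have h5 : π z ∈ M' := by
        rw [hπ, Module.End.mul_apply]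
        exact hM' u huS _ hyz
      have h6 : z ∈ M' := by
        have : z = (g - π) z + π z := by rw [LinearMap.sub_apply, hgz, sub_add_cancel]
        rw [this]
        exact Submodule.add_mem _ h4 h5
      exact hgm h6
    have hnil : IsNilpotent y := hq2 hπ0
    have h7 := C.tr_nil hyS hnil
    rw [hy] at h7
    have h8 : C.p i ∘ₗ g = g ∘ₗ C.p i := C.comm hg
    calc LinearMap.trace K (V i) (C.p i ∘ₗ g ∘ₗ x)
        = LinearMap.trace K (V i) (C.p i ∘ₗ (g ∘ₗ g) ∘ₗ x) := by rw [hgg]
      _ = LinearMap.trace K (V i) (g ∘ₗ (C.p i ∘ₗ g ∘ₗ x)) := by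
          congr 1
          rw [LinearMap.comp_assoc, ← LinearMap.comp_assoc (g ∘ₗ x) g (C.p i), h8,
            LinearMap.comp_assoc]
      _ = LinearMap.trace K (V i) ((C.p i ∘ₗ g ∘ₗ x) ∘ₗ g) := LinearMap.trace_comp_comm' _ _
      _ = 0 := by rw [← h7]; rfl
  -- the map `v ↦ v z`
  let Λ : C.S j i →ₗ[K] (V j ⧸ C.gen i j M') :=
    { toFun := fun v => (C.gen i j M').mkQ ((v : V i →ₗ[K] V j) z)
      map_add' := fun a b => by rw [Submodule.coe_add, LinearMap.add_apply, map_add]
      map_smul' := fun c a => by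
        rw [Submodule.coe_smul, LinearMap.smul_apply, map_smul, RingHom.id_apply] }
  have hker : LinearMap.ker Λ ≤ LinearMap.ker (C.B i j g LinearMap.id).flip := by
    intro v hv
    rw [LinearMap.mem_ker] at hv ⊢
    have h1 : (v : V i →ₗ[K] V j) z ∈ C.gen i j M' := by
      have : (C.gen i j M').mkQ ((v : V i →ₗ[K] V j) z) = 0 := hv
      rwa [Submodule.mkQ_apply, Submodule.Quotient.mk_eq_zero] at this
    apply LinearMap.ext
    intro u
    rw [LinearMap.flip_apply, Cat.B_apply, LinearMap.id_comp, LinearMap.zero_apply]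
    exact key _ (C.mul u.2 v.2) (C.gen_apply hM' u.2 h1)
  have hr1 := LinearMap.finrank_range_add_finrank_ker Λ
  have hr2 := LinearMap.finrank_range_add_finrank_ker (C.B i j g LinearMap.id).flip
  have hr3 := Submodule.finrank_mono hker
  have hr4 : rk (C.B i j g LinearMap.id) ≤ finrank K (LinearMap.range Λ) := by
    rw [← rk_flip, rk]
    omega
  have hr5 : LinearMap.range Λ ≤ (C.gen i j M).map (C.gen i j M').mkQ := by
    rintro _ ⟨v, rfl⟩
    exact ⟨_, Submodule.subset_span ⟨v, v.2, z, hzM, rfl⟩, rfl⟩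
  have hr6 := Submodule.finrank_mono hr5
  have hle := C.gen_mono (j := j) hle
  have hr7 : finrank K ((C.gen i j M).map (C.gen i j M').mkQ) + finrank K (C.gen i j M') =
      finrank K (C.gen i j M) := by
    have h1 := LinearMap.finrank_range_add_finrank_ker
      ((C.gen i j M').mkQ.domRestrict (C.gen i j M))
    rw [LinearMap.range_domRestrict] at h1
    rw [← h1]
    congr 1
    have h2 : LinearMap.ker ((C.gen i j M').mkQ.domRestrict (C.gen i j M)) =
        (C.gen i j M').submoduleOf (C.gen i j M) := by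
      ext x
      simp [Submodule.submoduleOf]
    rw [h2]
    exact (Submodule.submoduleOfEquivOfLe hle).finrank_eq.symm
  omega

/-- Chains of stable subspaces, seen by the idempotent `e`. -/
theorem chain (i : ι) (M : ℕ → Submodule K (V i)) (hM : ∀ n, C.Stable (M n)) (l : ℕ)
    (hle : ∀ n < l, M n ≤ M (n + 1)) {e : V i →ₗ[K] V i} (he : e ∈ C.S i i) (hee : e ∘ₗ e = e)
    (hlt : ∀ n < l, ∃ m ∈ M (n + 1), e m ∉ M n) (j : ι) :
    ∃ g : ℕ → Module.End K (V i), (∀ n < l, g n ∈ C.S i i ∧ g n ∘ₗ g n = g n ∧ g n ≠ 0 ∧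
        e ∘ₗ g n = g n ∧ g n ∘ₗ e = g n) ∧
      ∑ n ∈ Finset.range l, rk (C.B i j (g n) LinearMap.id) ≤ finrank K (C.gen i j (M l)) := by
  induction l with
  | zero => exact ⟨0, fun n hn => absurd hn (by omega), by simp⟩
  | succ l ih =>
    obtain ⟨g, hg, hs⟩ := ih (fun n hn => hle n (by omega)) fun n hn => hlt n (by omega)
    obtain ⟨g', hg'1, hg'2, hg'3, hg'5, hg'6, hg'4⟩ :=
      step C i (hM l) (hM (l + 1)) (hle l (by omega)) he hee (hlt l (by omega))
    refine ⟨fun n => if n < l then g n else g', fun n hn => ?_, ?_⟩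
    · by_cases h : n < l
      · simp only [if_pos h]; exact hg n h
      · simp only [if_neg h]; exact ⟨hg'1, hg'2, hg'3, hg'5, hg'6⟩
    · rw [Finset.sum_range_succ]
      have h1 : ∑ n ∈ Finset.range l, rk (C.B i j (if n < l then g n else g') LinearMap.id) =
          ∑ n ∈ Finset.range l, rk (C.B i j (g n) LinearMap.id) := by
        refine Finset.sum_congr rfl fun n hn => ?_
        rw [if_pos (Finset.mem_range.1 hn)]
      rw [h1]
      beta_reduce
      rw [if_neg (lt_irrefl l)]
      have := hg'4 j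
      omega

/-- A non-nilpotent element of the radical of the trace form, cut out by an idempotent `e`,
yields an idempotent below `e` in the radical. -/
theorem exists_idem {i : ι} {e : V i →ₗ[K] V i} {x : Module.End K (V i)} (hx : x ∈ C.S i i)
    (hex : e ∘ₗ x = x) (hxe : x ∘ₗ e = x)
    (h0 : ∀ y ∈ C.S i i, LinearMap.trace K (V i) (C.p i ∘ₗ x ∘ₗ y) = 0) (hn : ¬ IsNilpotent x) :
    ∃ g ∈ C.S i i, g ∘ₗ g = g ∧ g ≠ 0 ∧ e ∘ₗ g = g ∧ g ∘ₗ e = g ∧
      ∀ j, C.B i j g LinearMap.id = 0 := by
  obtain ⟨q, hq1, hq2⟩ := exists_fit x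
  have hu : aeval x q ∈ C.S i i := C.aeval_mem hx q
  have hcomm : aeval x q * x = x * aeval x q := by
    have : Commute (aeval x q) (aeval x (X : K[X])) := by
      rw [Commute, SemiconjBy, ← map_mul, ← map_mul, mul_comm]
    rw [aeval_X] at this
    exact this
  have hex' : e * x = x := hex
  have hxe' : x * e = x := hxe
  refine ⟨aeval x q * x, C.mul hu hx, hq1, fun h => hn (hq2 h), ?_, ?_, fun j => ?_⟩
  · change e * (aeval x q * x) = aeval x q * x
    rw [hcomm, ← mul_assoc, hex']
  · change aeval x q * x * e = aeval x q * x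
    rw [mul_assoc, hxe']
  apply LinearMap.ext
  intro u
  apply LinearMap.ext
  intro v
  rw [Cat.B_apply, LinearMap.id_comp, hcomm]
  exact h0 _ (C.mul hu (C.mul u.2 v.2))

end Ct

end Pool.Agent.Helper14G
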