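import Pool.Agent.Helper14G.Rate

/-!
# The sum of the pull-backs of a class of square zero
-/

open CategoryTheory AlgebraicGeometry

universe u v

namespace Pool.Agent.Helper14G

open Module
open Pool.Agent.H914 Pool.Agent.H914.VarClass Pool.Agent.H914.VarClass.Obj
  Pool.Agent.H914.WeilCohomology
open Pool.Agent.Y133.Half

variable {k : Type u} [Field k] {𝒱 : VarClass k} {ops : CycleOps 𝒱}
  {W : WeilCohomology.{u, v} ops} {P Q P' Q' Z X Y : 𝒱.Obj}

/-- The sum of the pull-backs of the class `z`. -/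
noncomputable def zt (z : W.H Y) (N : ℕ) : W.H (pw Y N) := ∑ i, W.map (prj Y N i) z

lemma zt_zero (z : W.H Y) : zt z 0 = z := by
  rw [zt, Fin.sum_univ_one]
  exact W.map_id _ z

lemma zt_succ (z : W.H Y) (N : ℕ) :
    zt z (N + 1) = W.map (pfst Y N) (zt z N) + W.map (psnd Y N) z := by
  rw [zt, Fin.sum_univ_castSucc, prj_last, zt, map_sum]
  congr 1
  refine Finset.sum_congr rfl fun i _ => ?_
  rw [prj_castSucc, W.map_comp]

lemma zt_num {S : Sys W} {z : W.H Y} (hz : z ∈ S.Num Y) (N : ℕ) : zt z N ∈ S.Num (pw Y N) :=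
  Submodule.sum_mem _ fun _ _ => Sys.Num.map _ hz

lemma rho_zt (z : W.H Y) (N : ℕ) (σ : Equiv.Perm (Fin (N + 1))) :
    W.map (tau Y N σ) (zt z N) = zt z N := by
  rw [zt, map_sum, ← Equiv.sum_comp σ (fun i => W.map (prj Y N i) z)]
  refine Finset.sum_congr rfl fun i _ => ?_
  rw [← W.map_comp, tau_prj]

lemma add_pow_sq_zero {R : Type*} [Ring R] {a b : R} (hc : a * b = b * a) (hb : b * b = 0)
    (k : ℕ) : (a + b) ^ (k + 1) = a ^ (k + 1) + (k + 1) • (a ^ k * b) := by
  induction k with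
  | zero => simp
  | succ k ih =>
    have h1 : a ^ k * b * a = a ^ (k + 1) * b := by
      rw [mul_assoc, ← hc, ← mul_assoc, ← pow_succ]
    have h2 : a ^ k * b * b = 0 := by rw [mul_assoc, hb, mul_zero]
    rw [pow_succ, ih, add_mul, mul_add, mul_add, smul_mul_assoc, smul_mul_assoc, h1, h2,
      smul_zero, add_zero, ← pow_succ, add_assoc, add_smul (k + 1) 1, one_smul, add_comm]
    rw [add_comm (a ^ (k + 1) * b)]
    abel

variable {z : W.H Y}

lemma zt_pow_succ (hz : z ∈ PH W Y 0) (hz2 : z * z = 0) (N k : ℕ) :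
    zt z (N + 1) ^ (k + 1) =
      (xp W (zt z N ^ (k + 1)) 1 + (k + 1) • xp W (zt z N ^ k) z : W.H ((pw Y N).prod Y)) := by
  have hz' : W.map (psnd Y N) z * W.map (psnd Y N) z = 0 := by
    rw [← map_mul, hz2, map_zero]
  have hc : W.map (pfst Y N) (zt z N) * W.map (psnd Y N) z =
      W.map (psnd Y N) z * W.map (pfst Y N) (zt z N) :=
    (PH.even_comm (PH.map _ hz) _).symm
  rw [zt_succ, add_pow_sq_zero hc hz', ← map_pow, ← map_pow]
  rw [xp, map_one, mul_one]
  rfl

/-- A numerically trivial class of square zero, if the defect of the unit is small. -/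
lemma exists_sq_zero {S : Sys W} {Y' : 𝒱.Obj} {z : W.H Y} (hz : z ∈ S.Num Y) (hz0 : z ≠ 0)
    (ha : 0 < S.a (Y'.prod Y')) (hD : Sy.df S Y 1 Y' < 1) :
    ∃ y ∈ S.Num Y, y * y = 0 ∧ y ≠ 0 := by
  classical
  have ha' : (0 : ℝ) < S.a (Y'.prod Y') := by exact_mod_cast ha
  have h1 : (S.r Y 1 (Y'.prod Y') : ℝ) = (rg (1 : Module.End W.K (W.H Y)) - Sy.df S Y 1 Y') *
      S.a (Y'.prod Y') := Sy.r_eq_df ha
  have h2 : rg (1 : Module.End W.K (W.H Y)) * S.a (Y'.prod Y') <
      S.r Y 1 (Y'.prod Y') + S.a (Y'.prod Y') := by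
    have h3 : (rg (1 : Module.End W.K (W.H Y)) : ℝ) * S.a (Y'.prod Y') <
        S.r Y 1 (Y'.prod Y') + S.a (Y'.prod Y') := by
      rw [h1]
      nlinarith [mul_lt_mul_of_pos_right hD ha']
    exact_mod_cast h3
  obtain ⟨n, hn⟩ := Sy.nilpotent S (e := 1) Sys.Op.id rfl h2 (Sy.mulLeft_nop S hz) rfl rfl
  have h3 : z ^ n = 0 := by
    have h4 := congrArg (fun f : Module.End W.K (W.H Y) => f 1) hn
    have h5 : ∀ j : ℕ, ((LinearMap.mulLeft W.K z : Module.End W.K (W.H Y)) ^ j) 1 = z ^ j := by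
      intro j
      induction j with
      | zero => rw [pow_zero, pow_zero]; rfl
      | succ j ih =>
        rw [pow_succ', Module.End.mul_apply, ih, pow_succ']
        rfl
    rw [h5] at h4
    exact h4
  have hex : ∃ n, z ^ n = 0 := ⟨n, h3⟩
  set r := Nat.find hex with hr
  have hr0 : z ^ r = 0 := Nat.find_spec hex
  have h1ne : (1 : W.H Y) ≠ 0 := one_ne_zero_of hz0
  have hr2 : 2 ≤ r := by
    by_contra hlt
    push Not at hlt
    interval_cases r
    · rw [pow_zero] at hr0; exact h1ne hr0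
    · rw [pow_one] at hr0; exact hz0 hr0
  have hmin : z ^ (r - 1) ≠ 0 := Nat.find_min hex (show r - 1 < r by omega)
  refine ⟨z ^ (r - 1), ?_, ?_, hmin⟩
  · have h6 : z ^ (r - 1) = z * z ^ (r - 2) := by
      rw [← pow_succ']; congr 1; omega
    rw [h6]
    exact Sys.Num.mul hz (Sy.pow_mem S hz.1 _)
  · rw [← pow_add]
    have h7 : r - 1 + (r - 1) = r + (r - 2) := by omega
    rw [h7, pow_add, hr0, zero_mul]

end Pool.Agent.Helper14G
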